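import Pool.Agent.Helper29.AntiFrob.Star

set_option autoImplicit false

namespace Pool.Agent.Helper29.AntiFrob

open Matrix

lemma exists_BlkKer_left (N p q : ℕ) (hq : q = 0) :
    (∃ (Λ : Matrix (Fin N) (Fin N) ℂ) (X : Fin p → Matrix (Fin 1) (Fin N) ℂ)
      (X' : Fin q → Matrix (Fin N) (Fin 1) ℂ), BlkKer Λ X X') ↔ (p + q) ∣ N := by
  subst hq
  rw [add_zero, ← exists_Qm_iff]
  constructor
  · rintro ⟨Λ, X, X', h⟩
    exact ⟨Λ, _, (BlkKer_left Λ X X').1 h⟩
  · rintro ⟨Λ, X, h⟩
    refine ⟨Λ, fun t => Matrix.of fun _ p => X t p, fun t => isEmptyElim t, ?_⟩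
    rw [BlkKer_left]
    exact h

lemma exists_BlkKer (N p q : ℕ) (hpq : p = 0 ∨ q = 0) :
    (∃ (Λ : Matrix (Fin N) (Fin N) ℂ) (X : Fin p → Matrix (Fin 1) (Fin N) ℂ)
      (X' : Fin q → Matrix (Fin N) (Fin 1) ℂ), BlkKer Λ X X') ↔ (p + q) ∣ N := by
  rcases hpq with h | h
  · rw [add_comm, ← exists_BlkKer_left N q p h]
    constructor
    · rintro ⟨Λ, X, X', h⟩
      exact ⟨_, _, _, BlkKer_transpose Λ X X' h⟩
    · rintro ⟨Λ, X, X', h⟩
      exact ⟨_, _, _, BlkKer_transpose Λ X X' h⟩
  · exact exists_BlkKer_left N p q h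

section

variable {ι : Type} [Fintype ι] {n : ι → ℕ} {m : Option ι → Option ι → ℕ}

lemma star_frobenius (h00 : m none none = 0) (hr : ∀ i j, m (some i) (some j) = 0)
    (h0 : ∀ i, m (some i) none = 0 ∨ m none (some i) = 0) :
    HasFrobeniusFunctional (SqZero n m) ↔ ∀ i, (m (some i) none + m none (some i)) ∣ n i := by
  rw [matForm_iff]
  constructor
  · rintro ⟨Lam, Xi, h⟩ i
    rw [← exists_BlkKer (n i) _ _ (h0 i)]
    exact ⟨_, _, _, (star_iff h00 hr Lam Xi).1 h i⟩
  · intro h
    choose Λ X X' hK using fun i => (exists_BlkKer (n i) _ _ (h0 i)).2 (h i)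
    have he00 : IsEmpty (Fin (m none none)) := by rw [h00]; infer_instance
    have her : ∀ i j, IsEmpty (Fin (m (some i) (some j))) := by
      intro i j; rw [hr]; infer_instance
    let Xi : ∀ a b : Option ι, Fin (m a b) → Matrix (Fin (size n b)) (Fin (size n a)) ℂ :=
      fun a b => match a, b with
        | none, none => fun t => isEmptyElim t
        | none, some i => X' i
        | some i, none => X i
        | some _, some _ => fun t => isEmptyElim t
    exact ⟨Λ, Xi, (star_iff h00 hr Λ Xi).2 hK⟩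

theorem star_classification (hn : ∀ i, 0 < n i)
    (hsym : ∀ i j, i ≠ j → m (some i) (some j) = m (some j) (some i)) :
    IsAntiFrobenius (SqZero n m) ↔ (∀ a, Even (m a a)) ∧
      ∀ i, ((m (some i) none : ℤ) - (m none (some i) : ℤ)) ∣ (n i : ℤ) := by
  rw [reduction hn, star_frobenius (by simp) ?_ ?_]
  · refine and_congr_right fun _ => forall_congr' fun i => ?_
    rw [← Int.natCast_dvd_natCast]
    rcases le_total (m (some i) none) (m none (some i)) with h | h
    · have e1 : m (some i) none - m none (some i) = 0 := by omega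
      have e2 : (((m (some i) none - m none (some i)) + (m none (some i) - m (some i) none) : ℕ) : ℤ)
        = -((m (some i) none : ℤ) - (m none (some i) : ℤ)) := by
        omega
      rw [e2, neg_dvd]
    · have e2 : (((m (some i) none - m none (some i)) + (m none (some i) - m (some i) none) : ℕ) : ℤ)
        = ((m (some i) none : ℤ) - (m none (some i) : ℤ)) := by
        omega
      rw [e2]
  · intro i j
    rcases eq_or_ne i j with rfl | hij
    · simp
    · rw [hsym i j hij, Nat.sub_self]
  · intro i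
    omega

end

end Pool.Agent.Helper29.AntiFrob
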