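import Pool.Agent.Helper29.AntiFrob.Defs

set_option autoImplicit false

namespace Pool.Agent.Helper29.AntiFrob

open Matrix

section alg

variable {ι : Type} {n : ι → ℕ} {m : Option ι → Option ι → ℕ}

@[simp] lemma blk_mul (s t : SemisimpleAlg n) (a : Option ι) : blk (s * t) a = blk s a * blk t a := by
  cases a with
  | none => simp [blk]
  | some i => rfl

@[simp] lemma blk_add (s t : SemisimpleAlg n) (a : Option ι) : blk (s + t) a = blk s a + blk t a := by
  cases a with
  | none => simp [blk]
  | some i => rfl

@[simp] lemma blk_sub (s t : SemisimpleAlg n) (a : Option ι) : blk (s - t) a = blk s a - blk t a := by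
  cases a with
  | none => simp [blk]
  | some i => rfl

@[simp] lemma blk_zero (a : Option ι) : blk (0 : SemisimpleAlg n) a = 0 := by
  cases a with
  | none => simp [blk]
  | some i => rfl

@[simp] lemma blk_smul (c : ℂ) (s : SemisimpleAlg n) (a : Option ι) :
    blk (c • s) a = c • blk s a := by
  cases a with
  | none => simp [blk]
  | some i => rfl

namespace SqZero

lemma mul_fst (u v : SqZero n m) : (u * v).1 = u.1 * v.1 := rfl

lemma mul_snd (u v : SqZero n m) (a b : Option ι) (t : Fin (m a b)) :
    (u * v).2 a b t = blk u.1 a * v.2 a b t + u.2 a b t * blk v.1 b := rfl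

lemma add_fst (u v : SqZero n m) : (u + v).1 = u.1 + v.1 := rfl
lemma add_snd (u v : SqZero n m) : (u + v).2 = u.2 + v.2 := rfl
lemma smul_fst (c : ℂ) (v : SqZero n m) : (c • v).1 = c • v.1 := rfl
lemma smul_snd (c : ℂ) (v : SqZero n m) : (c • v).2 = c • v.2 := rfl
lemma zero_fst : (0 : SqZero n m).1 = 0 := rfl
lemma zero_snd : (0 : SqZero n m).2 = 0 := rfl

lemma ext' {u v : SqZero n m} (h1 : u.1 = v.1) (h2 : ∀ a b t, u.2 a b t = v.2 a b t) : u = v := by
  apply Prod.ext h1
  funext a b t
  exact h2 a b t

instance : NonUnitalRing (SqZero n m) :=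
  { (inferInstance : AddCommGroup (SqZero n m)), (inferInstance : Mul (SqZero n m)) with
    left_distrib := by
      intro u v w
      apply ext'
      · simp only [mul_fst, add_fst, mul_add]
      · intro a b t
        simp only [mul_snd, add_snd, add_fst, Pi.add_apply, blk_add, Matrix.mul_add,
          Matrix.add_mul]
        abel
    right_distrib := by
      intro u v w
      apply ext'
      · simp only [mul_fst, add_fst, add_mul]
      · intro a b t
        simp only [mul_snd, add_snd, add_fst, Pi.add_apply, blk_add, Matrix.mul_add,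
          Matrix.add_mul]
        abel
    zero_mul := by
      intro u
      apply ext'
      · simp only [mul_fst, zero_fst, zero_mul]
      · intro a b t
        simp [mul_snd, zero_fst, zero_snd]
    mul_zero := by
      intro u
      apply ext'
      · simp only [mul_fst, zero_fst, mul_zero]
      · intro a b t
        simp [mul_snd, zero_fst, zero_snd]
    mul_assoc := by
      intro u v w
      apply ext'
      · simp only [mul_fst, mul_assoc]
      · intro a b t
        simp only [mul_snd, mul_fst, blk_mul, Matrix.mul_add, Matrix.add_mul, Matrix.mul_assoc]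
        abel }

instance : IsScalarTower ℂ (SqZero n m) (SqZero n m) where
  smul_assoc c u v := by
    apply ext'
    · simp only [smul_eq_mul, mul_fst, smul_fst, smul_mul_assoc]
    · intro a b t
      simp only [smul_eq_mul, mul_snd, smul_fst, smul_snd, Pi.smul_apply, blk_smul, smul_add,
        Matrix.smul_mul]

instance : SMulCommClass ℂ (SqZero n m) (SqZero n m) where
  smul_comm c u v := by
    apply ext'
    · simp only [smul_eq_mul, mul_fst, smul_fst, mul_smul_comm]
    · intro a b t
      simp only [smul_eq_mul, mul_snd, smul_fst, smul_snd, Pi.smul_apply, blk_smul, smul_add,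
        Matrix.mul_smul]

end SqZero

end alg

/-! ### Bimodules with multiplicity spaces -/

/-- enlarged semisimple algebra, with one more one-dimensional factor -/
abbrev SP {ι : Type} (n : ι → ℕ) : Type :=
  ∀ a : Option ι, Matrix (Fin (size n a)) (Fin (size n a)) ℂ

/-- bimodule with multiplicity spaces -/
abbrev MU {ι : Type} (n : ι → ℕ) (U : Option ι → Option ι → Type) : Type :=
  ∀ a b : Option ι, Fin (size n a) → Fin (size n b) → U a b

section mu

variable {ι : Type} {n : ι → ℕ} {U : Option ι → Option ι → Type}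
  [∀ a b, AddCommGroup (U a b)] [∀ a b, Module ℂ (U a b)]

/-- left action -/
def L : SP n →ₗ[ℂ] MU n U →ₗ[ℂ] MU n U :=
  LinearMap.mk₂ ℂ (fun σ x a b p q => ∑ p', σ a p p' • x a b p' q)
    (by intro σ τ x; funext a b p q; simp [add_smul, Finset.sum_add_distrib])
    (by intro c σ x; funext a b p q; simp [Finset.smul_sum, mul_smul])
    (by intro σ x y; funext a b p q; simp [Finset.sum_add_distrib])
    (by intro c σ x; funext a b p q; simp [Finset.smul_sum, smul_comm c])

/-- right action -/
def R : SP n →ₗ[ℂ] MU n U →ₗ[ℂ] MU n U :=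
  LinearMap.mk₂ ℂ (fun σ x a b p q => ∑ q', σ b q' q • x a b p q')
    (by intro σ τ x; funext a b p q; simp [add_smul, Finset.sum_add_distrib])
    (by intro c σ x; funext a b p q; simp [Finset.smul_sum, mul_smul])
    (by intro σ x y; funext a b p q; simp [Finset.sum_add_distrib])
    (by intro c σ x; funext a b p q; simp [Finset.smul_sum, smul_comm c])

lemma L_apply (σ : SP n) (x : MU n U) (a b : Option ι) (p : Fin (size n a)) (q : Fin (size n b)) :
    L σ x a b p q = ∑ p', σ a p p' • x a b p' q := rfl

lemma R_apply (σ : SP n) (x : MU n U) (a b : Option ι) (p : Fin (size n a)) (q : Fin (size n b)) :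
    R σ x a b p q = ∑ q', σ b q' q • x a b p q' := rfl

/-- commutator action -/
def br : SP n →ₗ[ℂ] MU n U →ₗ[ℂ] MU n U := L - R

lemma br_apply (σ : SP n) (x : MU n U) : br σ x = L σ x - R σ x := rfl

lemma L_mul (σ τ : SP n) (x : MU n U) : L (σ * τ) x = L σ (L τ x) := by
  funext a b p q
  simp only [L_apply, Pi.mul_apply, Matrix.mul_apply, Finset.sum_smul, Finset.smul_sum, mul_smul]
  rw [Finset.sum_comm]

lemma R_mul (σ τ : SP n) (x : MU n U) : R (σ * τ) x = R τ (R σ x) := by
  funext a b p q
  simp only [R_apply, Pi.mul_apply, Matrix.mul_apply, Finset.sum_smul, Finset.smul_sum, smul_smul]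
  rw [Finset.sum_comm]
  refine Finset.sum_congr rfl fun q' _ => Finset.sum_congr rfl fun q'' _ => ?_
  rw [mul_comm]

lemma L_R (σ τ : SP n) (x : MU n U) : L σ (R τ x) = R τ (L σ x) := by
  funext a b p q
  simp only [L_apply, R_apply, Finset.smul_sum]
  rw [Finset.sum_comm]
  refine Finset.sum_congr rfl fun q' _ => Finset.sum_congr rfl fun q'' _ => ?_
  rw [smul_comm]

lemma br_comm (σ τ : SP n) (x : MU n U) :
    br (σ * τ - τ * σ) x = br σ (br τ x) - br τ (br σ x) := by
  simp only [br_apply, map_sub, LinearMap.sub_apply, L_mul, R_mul, L_R]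
  abel

/-- `blk` as a linear map -/
def bl : SemisimpleAlg n →ₗ[ℂ] SP n where
  toFun s := blk s
  map_add' s t := by funext a; simp
  map_smul' c s := by funext a; simp

lemma bl_apply (s : SemisimpleAlg n) (a : Option ι) : bl s a = blk s a := rfl

lemma bl_mul (s t : SemisimpleAlg n) : bl (s * t) = bl s * bl t := by
  funext a; simp [bl_apply]

end mu

section bet

variable {ι : Type} [Fintype ι] {n : ι → ℕ} {U : Option ι → Option ι → Type}
  [∀ a b, AddCommGroup (U a b)] [∀ a b, Module ℂ (U a b)]

/-- the form on the bimodule given by pairings of multiplicity spaces -/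
def bet (B : ∀ a b, U a b →ₗ[ℂ] U b a →ₗ[ℂ] ℂ) : MU n U →ₗ[ℂ] MU n U →ₗ[ℂ] ℂ :=
  LinearMap.mk₂ ℂ (fun x y => ∑ a, ∑ b, ∑ p, ∑ q, B a b (x a b p q) (y b a q p))
    (by
      intro x x' y
      simp only [Pi.add_apply, map_add, LinearMap.add_apply, Finset.sum_add_distrib])
    (by
      intro c x y
      simp only [Pi.smul_apply, map_smul, LinearMap.smul_apply, smul_eq_mul, Finset.mul_sum])
    (by
      intro x y y'
      simp only [Pi.add_apply, map_add, LinearMap.add_apply, Finset.sum_add_distrib])
    (by
      intro c x y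
      simp only [Pi.smul_apply, map_smul, LinearMap.smul_apply, smul_eq_mul, Finset.mul_sum])

variable (B : ∀ a b, U a b →ₗ[ℂ] U b a →ₗ[ℂ] ℂ)

lemma bet_apply (x y : MU n U) :
    bet B x y = ∑ a, ∑ b, ∑ p, ∑ q, B a b (x a b p q) (y b a q p) := rfl

lemma bet_L (σ : SP n) (x y : MU n U) : bet B (L σ x) y = bet B x (R σ y) := by
  simp only [bet_apply, L_apply, R_apply, map_sum, LinearMap.sum_apply, map_smul,
    LinearMap.smul_apply]
  refine Finset.sum_congr rfl fun a _ => Finset.sum_congr rfl fun b _ => ?_
  simp only [Finset.sum_comm (s := (Finset.univ : Finset (Fin (size n b))))]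
  rw [Finset.sum_comm]

lemma bet_R (σ : SP n) (x y : MU n U) : bet B (R σ x) y = bet B x (L σ y) := by
  simp only [bet_apply, L_apply, R_apply, map_sum, LinearMap.sum_apply, map_smul,
    LinearMap.smul_apply]
  refine Finset.sum_congr rfl fun a _ => Finset.sum_congr rfl fun b _ => ?_
  refine Finset.sum_congr rfl fun p _ => ?_
  rw [Finset.sum_comm]

lemma bet_br (σ : SP n) (x y : MU n U) : bet B (br σ x) y = - bet B x (br σ y) := by
  simp only [br_apply, map_sub, LinearMap.sub_apply, bet_L, bet_R]
  abel

lemma bet_anti (hB : ∀ a b u v, B a b u v = - B b a v u) (x y : MU n U) :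
    bet B x y = - bet B y x := by
  simp only [bet_apply]
  rw [Finset.sum_comm, ← Finset.sum_neg_distrib]
  refine Finset.sum_congr rfl fun a _ => ?_
  rw [← Finset.sum_neg_distrib]
  refine Finset.sum_congr rfl fun b _ => ?_
  rw [Finset.sum_comm, ← Finset.sum_neg_distrib]
  refine Finset.sum_congr rfl fun p _ => ?_
  rw [← Finset.sum_neg_distrib]
  refine Finset.sum_congr rfl fun q _ => ?_
  rw [hB]

/-- The forms attached to the data have a nondegenerate member. -/
def Good (n : ι → ℕ) (U : Option ι → Option ι → Type)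
    [∀ a b, AddCommGroup (U a b)] [∀ a b, Module ℂ (U a b)]
    (B : ∀ a b, U a b →ₗ[ℂ] U b a →ₗ[ℂ] ℂ) : Prop :=
  ∃ (lam : SemisimpleAlg n →ₗ[ℂ] ℂ) (xi : MU n U →ₗ[ℂ] ℂ), ∀ (s : SemisimpleAlg n) (x : MU n U),
    (∀ s', lam (s * s' - s' * s) - xi (br (bl s') x) = 0) →
    (∀ y, xi (br (bl s) y) + bet B x y = 0) → s = 0 ∧ x = 0

end bet

end Pool.Agent.Helper29.AntiFrob
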