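import Mathlib

set_option autoImplicit false

namespace Pool.Agent.Helper29.AntiFrob

section

variable {V W Y Z S N A E : Type}
  [AddCommGroup V] [Module ℂ V] [AddCommGroup W] [Module ℂ W] [AddCommGroup Y] [Module ℂ Y]
  [AddCommGroup Z] [Module ℂ Z] [AddCommGroup S] [Module ℂ S] [AddCommGroup N] [Module ℂ N]
  [AddCommGroup A] [Module ℂ A] [AddCommGroup E] [Module ℂ E]

/-- kernel system, arrows going out of the distinguished vertex -/
def KSout (a : S →ₗ[ℂ] A) (ρ : S →ₗ[ℂ] Y →ₗ[ℂ] Y) (bb : N →ₗ[ℂ] S →ₗ[ℂ] N) (c : E →ₗ[ℂ] N)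
    (τ : (Y →ₗ[ℂ] Y) →ₗ[ℂ] N) (Λ : V →ₗ[ℂ] V) (X : V →ₗ[ℂ] Y) (l : N) : Prop :=
  ∀ (σ : V →ₗ[ℂ] V) (s : S) (x : E) (m : Y →ₗ[ℂ] V), a s = 0 → X ∘ₗ σ = ρ s ∘ₗ X →
    Λ ∘ₗ σ - σ ∘ₗ Λ = m ∘ₗ X → bb l s + c x + τ (X ∘ₗ m) = 0 →
    σ = 0 ∧ s = 0 ∧ x = 0 ∧ m = 0

/-- kernel system, arrows going into the distinguished vertex -/
def KSin (a : S →ₗ[ℂ] A) (ρ : S →ₗ[ℂ] Y →ₗ[ℂ] Y) (bb : N →ₗ[ℂ] S →ₗ[ℂ] N) (c : E →ₗ[ℂ] N)
    (τ : (Y →ₗ[ℂ] Y) →ₗ[ℂ] N) (Λ : Z →ₗ[ℂ] Z) (q : Y →ₗ[ℂ] Z) (l : N) : Prop :=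
  ∀ (σ : Z →ₗ[ℂ] Z) (s : S) (x : E) (m : Z →ₗ[ℂ] Y), a s = 0 → σ ∘ₗ q = q ∘ₗ ρ s →
    Λ ∘ₗ σ - σ ∘ₗ Λ = - (q ∘ₗ m) → bb l s + c x - τ (m ∘ₗ q) = 0 →
    σ = 0 ∧ s = 0 ∧ x = 0 ∧ m = 0

variable {a : S →ₗ[ℂ] A} {ρ : S →ₗ[ℂ] Y →ₗ[ℂ] Y} {bb : N →ₗ[ℂ] S →ₗ[ℂ] N} {c : E →ₗ[ℂ] N}
  {τ : (Y →ₗ[ℂ] Y) →ₗ[ℂ] N}

/-- In a nondegenerate system the structure map is injective or surjective. -/
lemma KSout.inj_or_surj {Λ : V →ₗ[ℂ] V} {X : V →ₗ[ℂ] Y} {l : N}
    (h : KSout a ρ bb c τ Λ X l) : Function.Injective X ∨ Function.Surjective X := by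
  by_contra hcon
  rw [not_or] at hcon
  obtain ⟨hi, hs⟩ := hcon
  have hker : LinearMap.ker X ≠ ⊥ := fun h0 => hi (LinearMap.ker_eq_bot.1 h0)
  obtain ⟨v, hv, hv0⟩ := (Submodule.ne_bot_iff _).1 hker
  have hrange : LinearMap.range X ≠ ⊤ := fun h0 => hs (LinearMap.range_eq_top.1 h0)
  obtain ⟨φ, hφ0, hφ⟩ := Submodule.exists_le_ker_of_lt_top _ (lt_top_iff_ne_top.2 hrange)
  have h1 := h 0 0 0 (φ.smulRight v) (map_zero a) (by simp) (by
      apply LinearMap.ext
      intro w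
      have : φ (X w) = 0 := hφ (LinearMap.mem_range_self X w)
      simp [this]) (by
      have : X ∘ₗ φ.smulRight v = 0 := by
        apply LinearMap.ext
        intro w
        have hv' : X v = 0 := hv
        simp [hv']
      rw [this]
      simp)
  apply hφ0
  apply LinearMap.ext
  intro y
  have h2 := LinearMap.congr_fun h1.2.2.2 y
  rw [LinearMap.smulRight_apply, LinearMap.zero_apply, smul_eq_zero] at h2
  exact h2.resolve_right hv0

lemma KSin.inj_or_surj {Λ : Z →ₗ[ℂ] Z} {q : Y →ₗ[ℂ] Z} {l : N}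
    (h : KSin a ρ bb c τ Λ q l) : Function.Injective q ∨ Function.Surjective q := by
  by_contra hcon
  rw [not_or] at hcon
  obtain ⟨hi, hs⟩ := hcon
  have hker : LinearMap.ker q ≠ ⊥ := fun h0 => hi (LinearMap.ker_eq_bot.1 h0)
  obtain ⟨v, hv, hv0⟩ := (Submodule.ne_bot_iff _).1 hker
  have hrange : LinearMap.range q ≠ ⊤ := fun h0 => hs (LinearMap.range_eq_top.1 h0)
  obtain ⟨φ, hφ0, hφ⟩ := Submodule.exists_le_ker_of_lt_top _ (lt_top_iff_ne_top.2 hrange)
  have h1 := h 0 0 0 (φ.smulRight v) (map_zero a) (by simp) (by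
      apply LinearMap.ext
      intro w
      have hv' : q v = 0 := hv
      simp [hv']) (by
      have : φ.smulRight v ∘ₗ q = 0 := by
        apply LinearMap.ext
        intro w
        have : φ (q w) = 0 := hφ (LinearMap.mem_range_self q w)
        simp [this]
      rw [this]
      simp)
  apply hφ0
  apply LinearMap.ext
  intro y
  have h2 := LinearMap.congr_fun h1.2.2.2 y
  rw [LinearMap.smulRight_apply, LinearMap.zero_apply, smul_eq_zero] at h2
  exact h2.resolve_right hv0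

/-- transport along an isomorphism -/
lemma KSout.congr {Λ : V →ₗ[ℂ] V} {X : V →ₗ[ℂ] Y} {l : N}
    (h : KSout a ρ bb c τ Λ X l) (e : V ≃ₗ[ℂ] W) :
    KSout a ρ bb c τ (e.toLinearMap ∘ₗ Λ ∘ₗ e.symm.toLinearMap) (X ∘ₗ e.symm.toLinearMap) l := by
  intro σ s x m h1 h2 h3 h4
  have h5 := h (e.symm.toLinearMap ∘ₗ σ ∘ₗ e.toLinearMap) s x (e.symm.toLinearMap ∘ₗ m) h1
    (by
      apply LinearMap.ext
      intro v
      have := LinearMap.congr_fun h2 (e v)
      simpa using this)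
    (by
      apply LinearMap.ext
      intro v
      have := congrArg e.symm (LinearMap.congr_fun h3 (e v))
      simpa using this)
    h4
  refine ⟨?_, h5.2.1, h5.2.2.1, ?_⟩
  · apply LinearMap.ext
    intro v
    have := congrArg e (LinearMap.congr_fun h5.1 (e.symm v))
    simpa using this
  · apply LinearMap.ext
    intro v
    have := congrArg e (LinearMap.congr_fun h5.2.2.2 v)
    simpa using this

lemma KSin.congr {Λ : Z →ₗ[ℂ] Z} {q : Y →ₗ[ℂ] Z} {l : N}
    (h : KSin a ρ bb c τ Λ q l) (e : Z ≃ₗ[ℂ] W) :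
    KSin a ρ bb c τ (e.toLinearMap ∘ₗ Λ ∘ₗ e.symm.toLinearMap) (e.toLinearMap ∘ₗ q) l := by
  intro σ s x m h1 h2 h3 h4
  have h5 := h (e.symm.toLinearMap ∘ₗ σ ∘ₗ e.toLinearMap) s x (m ∘ₗ e.toLinearMap) h1
    (by
      apply LinearMap.ext
      intro v
      have := congrArg e.symm (LinearMap.congr_fun h2 v)
      simpa using this)
    (by
      apply LinearMap.ext
      intro v
      have := congrArg e.symm (LinearMap.congr_fun h3 (e v))
      simpa using this)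
    h4
  refine ⟨?_, h5.2.1, h5.2.2.1, ?_⟩
  · apply LinearMap.ext
    intro v
    have := congrArg e (LinearMap.congr_fun h5.1 (e.symm v))
    simpa using this
  · apply LinearMap.ext
    intro v
    have := LinearMap.congr_fun h5.2.2.2 (e.symm v)
    simpa using this

/-- Subtraction, forward. -/
lemma KSout.sub_mp [FiniteDimensional ℂ V] [FiniteDimensional ℂ W] [FiniteDimensional ℂ Y]
    (hτ : ∀ P s, τ (P ∘ₗ ρ s - ρ s ∘ₗ P) = bb (τ P) s)
    (hdim : Module.finrank ℂ V = Module.finrank ℂ W + Module.finrank ℂ Y)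
    {Λ : V →ₗ[ℂ] V} {X : V →ₗ[ℂ] Y} {l : N} (h : KSout a ρ bb c τ Λ X l) :
    ∃ (Λ' : W →ₗ[ℂ] W) (X' : W →ₗ[ℂ] Y) (l' : N), KSout a ρ bb c τ Λ' X' l' := by
  have hsurj : Function.Surjective X := by
    rcases h.inj_or_surj with h1 | h1
    · have hle := LinearMap.finrank_le_finrank_of_injective h1
      exact (LinearMap.injective_iff_surjective_of_finrank_eq_finrank (by omega)).1 h1
    · exact h1
  obtain ⟨σ₀, hσ⟩ := X.exists_rightInverse_of_surjective (LinearMap.range_eq_top.2 hsurj)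
  have hσ' : ∀ y, X (σ₀ y) = y := fun y => LinearMap.congr_fun hσ y
  have hπmem : ∀ v, v - σ₀ (X v) ∈ LinearMap.ker X := by
    intro v
    rw [LinearMap.mem_ker, map_sub, hσ', sub_self]
  let π : V →ₗ[ℂ] LinearMap.ker X :=
    LinearMap.codRestrict (LinearMap.ker X) (LinearMap.id - σ₀ ∘ₗ X) (fun v => hπmem v)
  have hπ : ∀ v, (π v : V) = v - σ₀ (X v) := fun v => rfl
  have hπinc : ∀ w : LinearMap.ker X, π (w : V) = w := by
    intro w
    apply Subtype.ext
    rw [hπ, LinearMap.mem_ker.1 w.2, map_zero, sub_zero]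
  have hπσ : ∀ y, π (σ₀ y) = 0 := by
    intro y
    apply Subtype.ext
    rw [hπ, hσ', sub_self]
    rfl
  let inc' : LinearMap.ker X →ₗ[ℂ] V := (LinearMap.ker X).subtype
  have hinc : ∀ w, inc' w = (w : V) := fun _ => rfl
  have hX0 : ∀ w : LinearMap.ker X, X (w : V) = 0 := fun w => w.2
  let P : Y →ₗ[ℂ] Y := X ∘ₗ Λ ∘ₗ σ₀
  have hker : KSout (V := LinearMap.ker X) a ρ bb c τ (π ∘ₗ Λ ∘ₗ inc') (X ∘ₗ Λ ∘ₗ inc')
      (l + τ P) := by
    intro t s x cc h1 h2 h3 h4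
    have h2' : ∀ w, X (Λ (t w : V)) = ρ s (X (Λ (w : V))) := fun w => LinearMap.congr_fun h2 w
    have h3' : ∀ w, π (Λ (t w : V)) - t (π (Λ (w : V))) = cc (X (Λ (w : V))) :=
      fun w => LinearMap.congr_fun h3 w
    let σ : V →ₗ[ℂ] V := inc' ∘ₗ t ∘ₗ π + inc' ∘ₗ cc ∘ₗ X + σ₀ ∘ₗ ρ s ∘ₗ X
    have hσapp : ∀ v, σ v = (t (π v) : V) + (cc (X v) : V) + σ₀ (ρ s (X v)) := fun v => rfl
    have hXσ : ∀ v, X (σ v) = ρ s (X v) := by
      intro v
      rw [hσapp, map_add, map_add, hX0, hX0, hσ', zero_add, zero_add]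
    have hzero : ∀ w : LinearMap.ker X, Λ (σ (w : V)) - σ (Λ (w : V)) = 0 := by
      intro w
      have e1 : σ (w : V) = (t w : V) := by
        rw [hσapp, hπinc, hX0, map_zero, map_zero, map_zero]
        simp
      have e2 : σ (Λ (w : V)) = (t (π (Λ (w : V))) : V) + (cc (X (Λ (w : V))) : V) +
          σ₀ (ρ s (X (Λ (w : V)))) := hσapp _
      have e3 : Λ (t w : V) = (π (Λ (t w : V)) : V) + σ₀ (X (Λ (t w : V))) := by
        rw [hπ]; abel
      have e4 : (π (Λ (t w : V)) : V) - (t (π (Λ (w : V))) : V) = (cc (X (Λ (w : V))) : V) := by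
        rw [← h3' w]; rfl
      rw [e1, e2, e3, h2', ← e4]
      abel
    let m : Y →ₗ[ℂ] V := (Λ ∘ₗ σ - σ ∘ₗ Λ) ∘ₗ σ₀
    have hm : Λ ∘ₗ σ - σ ∘ₗ Λ = m ∘ₗ X := by
      apply LinearMap.ext
      intro v
      have hv : v = (π v : V) + σ₀ (X v) := by rw [hπ]; abel
      have h5 : (Λ ∘ₗ σ - σ ∘ₗ Λ) (π v : V) = 0 := hzero (π v)
      conv_lhs => rw [hv, map_add, h5, zero_add]
      rfl
    have hXm : X ∘ₗ m = (X ∘ₗ Λ ∘ₗ inc') ∘ₗ cc + (P ∘ₗ ρ s - ρ s ∘ₗ P) := by
      apply LinearMap.ext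
      intro y
      have e1 : σ (σ₀ y) = (cc y : V) + σ₀ (ρ s y) := by
        rw [hσapp, hπσ, hσ', map_zero]
        simp
      change X (Λ (σ (σ₀ y)) - σ (Λ (σ₀ y))) =
        X (Λ (cc y : V)) + (X (Λ (σ₀ (ρ s y))) - ρ s (X (Λ (σ₀ y))))
      rw [map_sub, hXσ, e1, map_add, map_add]
      abel
    have hres := h σ s x m h1 (by
        apply LinearMap.ext
        intro v
        exact hXσ v) hm (by
        rw [hXm, map_add, hτ]
        rw [map_add, LinearMap.add_apply] at h4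
        rw [← h4]
        abel)
    refine ⟨?_, hres.2.1, hres.2.2.1, ?_⟩
    · apply LinearMap.ext
      intro w
      have e1 : σ (w : V) = (t w : V) := by
        rw [hσapp, hπinc, hX0, map_zero, map_zero, map_zero]
        simp
      apply Subtype.ext
      rw [← e1, hres.1]
      rfl
    · apply LinearMap.ext
      intro y
      have e1 : σ (σ₀ y) = (cc y : V) + σ₀ (ρ s y) := by
        rw [hσapp, hπσ, hσ', map_zero]
        simp
      rw [hres.1, hres.2.1] at e1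
      apply Subtype.ext
      simpa using e1.symm
  have hd := LinearMap.finrank_range_add_finrank_ker X
  rw [LinearMap.range_eq_top.2 hsurj, finrank_top] at hd
  let e : LinearMap.ker X ≃ₗ[ℂ] W := LinearEquiv.ofFinrankEq _ _ (by omega)
  exact ⟨_, _, _, hker.congr e⟩

/-- Subtraction, backward. -/
lemma KSout.sub_mpr [FiniteDimensional ℂ V] [FiniteDimensional ℂ W] [FiniteDimensional ℂ Y]
    (hdim : Module.finrank ℂ V = Module.finrank ℂ W + Module.finrank ℂ Y)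
    {Λ : W →ₗ[ℂ] W} {X : W →ₗ[ℂ] Y} {l : N} (h : KSout a ρ bb c τ Λ X l) :
    ∃ (Λ' : V →ₗ[ℂ] V) (X' : V →ₗ[ℂ] Y) (l' : N), KSout a ρ bb c τ Λ' X' l' := by
  have hker : KSout (V := W × Y) a ρ bb c τ ((LinearMap.prod Λ X) ∘ₗ LinearMap.fst ℂ W Y)
      (LinearMap.snd ℂ W Y) l := by
    intro σ s x m h1 h2 h3 h4
    let t : W →ₗ[ℂ] W := LinearMap.fst ℂ W Y ∘ₗ σ ∘ₗ LinearMap.inl ℂ W Y
    let cc : Y →ₗ[ℂ] W := LinearMap.fst ℂ W Y ∘ₗ σ ∘ₗ LinearMap.inr ℂ W Y
    have ht : ∀ w, t w = (σ (w, 0)).1 := fun _ => rfl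
    have hcc : ∀ y, cc y = (σ (0, y)).1 := fun _ => rfl
    have h2' : ∀ v, (σ v).2 = ρ s v.2 := fun v => LinearMap.congr_fun h2 v
    have hσ : ∀ w y, σ (w, y) = (t w + cc y, ρ s y) := by
      intro w y
      have : ((w, y) : W × Y) = (w, 0) + (0, y) := by simp
      refine Prod.ext ?_ (h2' _)
      rw [this, map_add]
      rfl
    have h3w : ∀ w : W, (Λ (t w), X (t w)) - σ (Λ w, X w) = (0 : W × Y) := by
      intro w
      have h := LinearMap.congr_fun h3 (w, (0 : Y))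
      have e : m ((LinearMap.snd ℂ W Y) (w, 0)) = 0 := by simp
      exact h.trans e
    have h3y : ∀ y : Y, (Λ (cc y), X (cc y)) = m y := by
      intro y
      have h := LinearMap.congr_fun h3 ((0 : W), y)
      have e : (((LinearMap.prod Λ X) ∘ₗ LinearMap.fst ℂ W Y) ∘ₗ σ -
        σ ∘ₗ ((LinearMap.prod Λ X) ∘ₗ LinearMap.fst ℂ W Y)) ((0 : W), y) =
          (Λ (cc y), X (cc y)) := by
        simp [cc]
        exact map_zero σ
      rw [e] at h
      exact h
    have hres := h t s x cc h1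
      (by
        apply LinearMap.ext
        intro w
        have := congrArg Prod.snd (h3w w)
        rw [hσ] at this
        exact sub_eq_zero.1 this)
      (by
        apply LinearMap.ext
        intro w
        have := congrArg Prod.fst (h3w w)
        rw [hσ] at this
        have h5 : Λ (t w) = t (Λ w) + cc (X w) := sub_eq_zero.1 this
        change Λ (t w) - t (Λ w) = cc (X w)
        rw [h5]
        abel)
      (by
        have e : X ∘ₗ cc = LinearMap.snd ℂ W Y ∘ₗ m := by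
          apply LinearMap.ext
          intro y
          have := congrArg Prod.snd (h3y y)
          exact this
        rw [e]
        exact h4)
    refine ⟨?_, hres.2.1, hres.2.2.1, ?_⟩
    · apply LinearMap.ext
      rintro ⟨w, y⟩
      rw [hσ, hres.1, hres.2.1, hres.2.2.2]
      simp
    · apply LinearMap.ext
      intro y
      rw [← h3y, hres.2.2.2]
      simp
  let e : (W × Y) ≃ₗ[ℂ] V := LinearEquiv.ofFinrankEq _ _ (by
    rw [Module.finrank_prod, hdim])
  exact ⟨_, _, _, hker.congr e⟩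

/-- Castling, from outgoing to incoming arrows. -/
lemma KSout.castle [FiniteDimensional ℂ V] [FiniteDimensional ℂ Z] [FiniteDimensional ℂ Y]
    (hτ : ∀ P s, τ (P ∘ₗ ρ s - ρ s ∘ₗ P) = bb (τ P) s)
    (hdim : Module.finrank ℂ V + Module.finrank ℂ Z = Module.finrank ℂ Y)
    {Λ : V →ₗ[ℂ] V} {X : V →ₗ[ℂ] Y} {l : N} (h : KSout a ρ bb c τ Λ X l) :
    ∃ (Λ' : Z →ₗ[ℂ] Z) (q : Y →ₗ[ℂ] Z) (l' : N), KSin a ρ bb c τ Λ' q l' := by
  have hinj : Function.Injective X := by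
    rcases h.inj_or_surj with h1 | h1
    · exact h1
    · have hle := LinearMap.finrank_le_finrank_of_surjective h1
      exact (LinearMap.injective_iff_surjective_of_finrank_eq_finrank (by omega)).2 h1
  obtain ⟨r, hr⟩ := X.exists_leftInverse_of_injective (LinearMap.ker_eq_bot.2 hinj)
  have hr' : ∀ v, r (X v) = v := fun v => LinearMap.congr_fun hr v
  let q : Y →ₗ[ℂ] (Y ⧸ LinearMap.range X) := (LinearMap.range X).mkQ
  have hqX : ∀ v, q (X v) = 0 := by
    intro v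
    exact (Submodule.Quotient.mk_eq_zero _).2 (LinearMap.mem_range_self X v)
  have hq0 : ∀ y, q y = 0 → y = X (r y) := by
    intro y hy
    obtain ⟨v, rfl⟩ := (Submodule.Quotient.mk_eq_zero _).1 hy
    rw [hr']
  have hqs : Function.Surjective q := Submodule.mkQ_surjective _
  let LY : Y →ₗ[ℂ] Y := X ∘ₗ Λ ∘ₗ r
  have hker : KSin (Z := Y ⧸ LinearMap.range X) a ρ bb c τ 0 q (l + τ LY) := by
    intro σ s x m h1 h2 h3 h4
    have h2' : ∀ y, σ (q y) = q (ρ s y) := fun y => LinearMap.congr_fun h2 y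
    have hqm : ∀ z, q (m z) = 0 := by
      intro z
      have := LinearMap.congr_fun h3 z
      simpa using this.symm
    have hρX : ∀ v, ρ s (X v) = X (r (ρ s (X v))) := by
      intro v
      apply hq0
      rw [← h2', hqX, map_zero]
    let σV : V →ₗ[ℂ] V := r ∘ₗ ρ s ∘ₗ X
    let D : Y →ₗ[ℂ] Y := (LY ∘ₗ ρ s - ρ s ∘ₗ LY) - m ∘ₗ q
    have hqD : ∀ y, q (D y) = 0 := by
      intro y
      change q ((X (Λ (r (ρ s y))) - ρ s (X (Λ (r y)))) - m (q y)) = 0
      rw [map_sub, map_sub, hqX, ← h2', hqX, map_zero, hqm]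
      simp
    have hXm : X ∘ₗ (r ∘ₗ D) = D := by
      apply LinearMap.ext
      intro y
      exact (hq0 _ (hqD y)).symm
    have hres := h σV s x (r ∘ₗ D) h1
      (by
        apply LinearMap.ext
        intro v
        exact (hρX v).symm)
      (by
        apply LinearMap.ext
        intro v
        apply hinj
        change X (Λ (r (ρ s (X v))) - r (ρ s (X (Λ v)))) = X (r (D (X v)))
        rw [← hq0 _ (hqD (X v)), map_sub, ← hρX]
        change X (Λ (r (ρ s (X v)))) - ρ s (X (Λ v)) =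
          (X (Λ (r (ρ s (X v)))) - ρ s (X (Λ (r (X v))))) - m (q (X v))
        rw [hr', hqX, map_zero, sub_zero])
      (by
        rw [hXm]
        change bb l s + c x + τ ((LY ∘ₗ ρ s - ρ s ∘ₗ LY) - m ∘ₗ q) = 0
        rw [map_sub, hτ]
        rw [map_add, LinearMap.add_apply] at h4
        rw [← h4]
        abel)
    have hs : s = 0 := hres.2.1
    have hD0 : D = 0 := by rw [← hXm, hres.2.2.2]; simp
    refine ⟨?_, hs, hres.2.2.1, ?_⟩
    · apply LinearMap.ext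
      intro z
      obtain ⟨y, rfl⟩ := hqs z
      rw [h2', hs]
      simp
    · apply LinearMap.ext
      intro z
      obtain ⟨y, rfl⟩ := hqs z
      have e1 := LinearMap.congr_fun hD0 y
      change (X (Λ (r (ρ s y))) - ρ s (X (Λ (r y)))) - m (q y) = 0 at e1
      rw [hs] at e1
      simpa using e1
  have hd := Submodule.finrank_quotient_add_finrank (LinearMap.range X)
  rw [LinearMap.finrank_range_of_inj hinj] at hd
  let e : (Y ⧸ LinearMap.range X) ≃ₗ[ℂ] Z := LinearEquiv.ofFinrankEq _ _ (by omega)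
  exact ⟨_, _, _, hker.congr e⟩

/-- Castling, from incoming to outgoing arrows. -/
lemma KSin.castle [FiniteDimensional ℂ V] [FiniteDimensional ℂ Z] [FiniteDimensional ℂ Y]
    (hτ : ∀ P s, τ (P ∘ₗ ρ s - ρ s ∘ₗ P) = bb (τ P) s)
    (hdim : Module.finrank ℂ V + Module.finrank ℂ Z = Module.finrank ℂ Y)
    {Λ : Z →ₗ[ℂ] Z} {q : Y →ₗ[ℂ] Z} {l : N} (h : KSin a ρ bb c τ Λ q l) :
    ∃ (Λ' : V →ₗ[ℂ] V) (X : V →ₗ[ℂ] Y) (l' : N), KSout a ρ bb c τ Λ' X l' := by
  have hsurj : Function.Surjective q := by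
    rcases h.inj_or_surj with h1 | h1
    · have hle := LinearMap.finrank_le_finrank_of_injective h1
      exact (LinearMap.injective_iff_surjective_of_finrank_eq_finrank (by omega)).1 h1
    · exact h1
  obtain ⟨σ₀, hσ⟩ := q.exists_rightInverse_of_surjective (LinearMap.range_eq_top.2 hsurj)
  have hσ' : ∀ z, q (σ₀ z) = z := fun z => LinearMap.congr_fun hσ z
  let X : LinearMap.ker q →ₗ[ℂ] Y := (LinearMap.ker q).subtype
  have hXinj : Function.Injective X := Subtype.val_injective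
  have hqX : ∀ v, q (X v) = 0 := fun v => v.2
  let LY : Y →ₗ[ℂ] Y := σ₀ ∘ₗ Λ ∘ₗ q
  have hker : KSout (V := LinearMap.ker q) a ρ bb c τ 0 X (l + τ LY) := by
    intro σ s x m h1 h2 h3 h4
    have h2' : ∀ v, X (σ v) = ρ s (X v) := fun v => LinearMap.congr_fun h2 v
    have hmX : ∀ v, m (X v) = 0 := by
      intro v
      have := LinearMap.congr_fun h3 v
      simpa using this.symm
    have hker' : ∀ y, y - σ₀ (q y) ∈ LinearMap.ker q := by
      intro y
      rw [LinearMap.mem_ker, map_sub, hσ', sub_self]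
    -- factorisation through q
    have hqρ : ∀ y, q (ρ s y) = q (ρ s (σ₀ (q y))) := by
      intro y
      have e1 : y = X ⟨y - σ₀ (q y), hker' y⟩ + σ₀ (q y) := by
        change y = (y - σ₀ (q y)) + σ₀ (q y)
        abel
      conv_lhs => rw [e1]
      rw [map_add, map_add, ← h2', hqX, zero_add]
    have hmq : ∀ y, m y = m (σ₀ (q y)) := by
      intro y
      have e1 : y = X ⟨y - σ₀ (q y), hker' y⟩ + σ₀ (q y) := by
        change y = (y - σ₀ (q y)) + σ₀ (q y)
        abel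
      conv_lhs => rw [e1]
      rw [map_add, hmX, zero_add]
    let σZ : Z →ₗ[ℂ] Z := q ∘ₗ ρ s ∘ₗ σ₀
    let D : Y →ₗ[ℂ] Y := (LY ∘ₗ ρ s - ρ s ∘ₗ LY) + X ∘ₗ m
    let m' : Z →ₗ[ℂ] Y := - (D ∘ₗ σ₀)
    have hDX : ∀ y, D y = D (σ₀ (q y)) := by
      intro y
      change (σ₀ (Λ (q (ρ s y))) - ρ s (σ₀ (Λ (q y)))) + X (m y) =
        (σ₀ (Λ (q (ρ s (σ₀ (q y))))) - ρ s (σ₀ (Λ (q (σ₀ (q y)))))) + X (m (σ₀ (q y)))
      rw [← hqρ, ← hmq, hσ']
    have hm'q : m' ∘ₗ q = - D := by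
      apply LinearMap.ext
      intro y
      change - D (σ₀ (q y)) = - D y
      rw [← hDX]
    have hres := h σZ s x m' h1
      (by
        apply LinearMap.ext
        intro y
        exact (hqρ y).symm)
      (by
        apply LinearMap.ext
        intro z
        change Λ (q (ρ s (σ₀ z))) - q (ρ s (σ₀ (Λ z))) = - q (- D (σ₀ z))
        have : q (D (σ₀ z)) = Λ (q (ρ s (σ₀ z))) - q (ρ s (σ₀ (Λ z))) := by
          change q ((σ₀ (Λ (q (ρ s (σ₀ z)))) - ρ s (σ₀ (Λ (q (σ₀ z))))) + X (m (σ₀ z))) = _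
          rw [map_add, map_sub, hσ', hσ', hqX, add_zero]
        rw [map_neg, neg_neg, this])
      (by
        rw [hm'q]
        change bb l s + c x - τ (-((LY ∘ₗ ρ s - ρ s ∘ₗ LY) + X ∘ₗ m)) = 0
        rw [map_neg, map_add, hτ]
        rw [map_add, LinearMap.add_apply] at h4
        rw [← h4]
        abel)
    have hs : s = 0 := hres.2.1
    have hD0 : D = 0 := by
      have : m' ∘ₗ q = 0 := by rw [hres.2.2.2]; simp
      rw [hm'q, neg_eq_zero] at this
      exact this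
    refine ⟨?_, hs, hres.2.2.1, ?_⟩
    · apply LinearMap.ext
      intro v
      apply hXinj
      rw [h2', hs]
      simp
    · apply LinearMap.ext
      intro y
      apply hXinj
      have e1 := LinearMap.congr_fun hD0 y
      change (σ₀ (Λ (q (ρ s y))) - ρ s (σ₀ (Λ (q y)))) + X (m y) = 0 at e1
      rw [hs] at e1
      simpa using e1
  have hd := LinearMap.finrank_range_add_finrank_ker q
  rw [LinearMap.range_eq_top.2 hsurj, finrank_top] at hd
  let e : LinearMap.ker q ≃ₗ[ℂ] V := LinearEquiv.ofFinrankEq _ _ (by omega)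
  exact ⟨_, _, _, hker.congr e⟩

end

end Pool.Agent.Helper29.AntiFrob
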