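import Pool.Agent.Helper29.AntiFrob.Reduce

set_option autoImplicit false

namespace Pool.Agent.Helper29.AntiFrob

open Matrix

/-! ### Even dimension -/

lemma even_of_anti {k : ℕ} (B : (Fin k → ℂ) →ₗ[ℂ] (Fin k → ℂ) →ₗ[ℂ] ℂ)
    (hB : ∀ u v, B u v = - B v u) (hnd : ∀ u, (∀ v, B u v = 0) → u = 0) : Even k := by
  classical
  let M : Matrix (Fin k) (Fin k) ℂ := fun i j => B (Pi.single i 1) (Pi.single j 1)
  have hMT : M.transpose = - M := by
    ext i j
    exact hB _ _
  have hdet : M.det ≠ 0 := by
    intro h0
    obtain ⟨v, hv, hMv⟩ := Matrix.exists_mulVec_eq_zero_iff.2 h0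
    apply hv
    apply hnd
    intro w
    rw [hB, neg_eq_zero]
    have h1 : ∀ i, B (Pi.single i 1) v = 0 := by
      intro i
      have h2 : M.mulVec v i = 0 := by rw [hMv]; rfl
      have h3 : v = ∑ j, v j • (Pi.single j (1 : ℂ) : Fin k → ℂ) := by
        funext t
        simp [Finset.sum_apply, Pi.single_apply]
      rw [h3, map_sum]
      simp only [map_smul, smul_eq_mul]
      rw [← h2, Matrix.mulVec, dotProduct]
      refine Finset.sum_congr rfl fun j _ => ?_
      rw [mul_comm]
    have h4 : w = ∑ j, w j • (Pi.single j (1 : ℂ) : Fin k → ℂ) := by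
      funext t
      simp [Finset.sum_apply, Pi.single_apply]
    rw [h4, map_sum, LinearMap.sum_apply]
    refine Finset.sum_eq_zero fun j _ => ?_
    rw [map_smul, LinearMap.smul_apply, h1, smul_zero]
  by_contra hodd
  rw [Nat.not_even_iff_odd] at hodd
  apply hdet
  have h5 : M.det = - M.det := by
    conv_lhs => rw [← Matrix.det_transpose, hMT, Matrix.det_neg]
    rw [Fintype.card_fin, hodd.neg_one_pow]
    ring
  have h6 : (2 : ℂ) * M.det = 0 := by linear_combination h5
  rcases mul_eq_zero.1 h6 with h | h
  · norm_num at h
  · exact h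

section

variable {ι : Type} [Fintype ι] {n : ι → ℕ} {m : Option ι → Option ι → ℕ}

lemma reduction_mp (hn : ∀ i, 0 < n i) (h : IsAntiFrobenius (SqZero n m)) :
    (∀ a, Even (m a a)) ∧
      HasFrobeniusFunctional (SqZero n (fun a b => m a b - m b a)) := by
  classical
  obtain ⟨B, hB, hgood⟩ := (antiFrobenius_iff hn).1 h
  let K : Option ι → Option ι → Type := fun a b => LinearMap.ker (B a b)
  have hK : Good n K (fun _ _ => 0) := by
    refine good_ker (U := K) B hB (fun a b => (LinearMap.ker (B a b)).subtype)
      (fun a b => Subtype.val_injective) ?_ ?_ hn hgood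
    · intro a b u v
      exact LinearMap.congr_fun u.2 v
    · intro a b v hv
      rw [Submodule.range_subtype, LinearMap.mem_ker]
      exact LinearMap.ext hv
  have hloop : ∀ a, ∀ u, (∀ v, B a a u v = 0) → u = 0 := by
    intro a u hu
    have := good_loop hn hK a ⟨u, LinearMap.mem_ker.2 (LinearMap.ext hu)⟩
    exact congrArg Subtype.val this
  refine ⟨fun a => even_of_anti (B a a) (fun u v => hB a a u v) (hloop a), ?_⟩
  have hcyc : ∀ a b, LinearMap.ker (B a b) = ⊥ ∨ LinearMap.ker (B b a) = ⊥ := by
    intro a b
    rcases eq_or_ne a b with rfl | hab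
    · left
      rw [Submodule.eq_bot_iff]
      intro u hu
      exact hloop a u (fun v => LinearMap.congr_fun hu v)
    · by_contra hcon
      rw [not_or] at hcon
      obtain ⟨u, hu, hu0⟩ := (Submodule.ne_bot_iff _).1 hcon.1
      obtain ⟨v, hv, hv0⟩ := (Submodule.ne_bot_iff _).1 hcon.2
      rcases good_two_cycle hn hK hab ⟨u, hu⟩ ⟨v, hv⟩ with h1 | h1
      · exact hu0 (congrArg Subtype.val h1)
      · exact hv0 (congrArg Subtype.val h1)
  have hdim : ∀ a b, LinearMap.ker (B a b) = ⊥ →
      m a b ≤ m b a ∧ Module.finrank ℂ (LinearMap.ker (B b a)) = m b a - m a b := by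
    intro a b h0
    have hinj : Function.Injective (B a b) := LinearMap.ker_eq_bot.1 h0
    have hsurj : Function.Surjective (B a b).flip := LinearMap.flip_surjective_iff₁.2 hinj
    have hneg : B b a = - (B a b).flip := by
      apply LinearMap.ext; intro u
      apply LinearMap.ext; intro v
      exact hB b a u v
    have hsurj' : Function.Surjective (B b a) := by
      intro f
      obtain ⟨u, hu⟩ := hsurj (-f)
      exact ⟨u, by rw [hneg, LinearMap.neg_apply, hu, neg_neg]⟩
    have hrn := LinearMap.finrank_range_add_finrank_ker (B b a)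
    rw [LinearMap.range_eq_top.2 hsurj', finrank_top, Module.finrank_fin_fun] at hrn
    have hd : Module.finrank ℂ ((Fin (m a b) → ℂ) →ₗ[ℂ] ℂ) = m a b := by
      have := Subspace.dual_finrank_eq (K := ℂ) (V := Fin (m a b) → ℂ)
      rw [Module.finrank_fin_fun] at this
      exact this
    rw [hd] at hrn
    omega
  have hfin : ∀ a b, Module.finrank ℂ (LinearMap.ker (B a b)) = m a b - m b a := by
    intro a b
    rcases hcyc a b with h0 | h0
    · rw [h0, finrank_bot]
      have := (hdim a b h0).1
      omega
    · exact (hdim b a h0).2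
  have heq : ∀ a b, Nonempty ((Fin (m a b - m b a) → ℂ) ≃ₗ[ℂ] LinearMap.ker (B a b)) := by
    intro a b
    apply FiniteDimensional.nonempty_linearEquiv_of_finrank_eq
    rw [Module.finrank_fin_fun, hfin]
  choose e _he using fun a b => exists_true_iff_nonempty.2 (heq a b)
  rw [frobenius_iff]
  refine good_ker (U := fun a b => Fin (m a b - m b a) → ℂ) B hB
    (fun a b => (LinearMap.ker (B a b)).subtype.comp (e a b).toLinearMap)
      (fun a b => Subtype.val_injective.comp (e a b).injective) ?_ ?_ hn hgood
  · intro a b u v
    exact LinearMap.congr_fun (e a b u).2 v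
  · intro a b v hv
    refine ⟨(e a b).symm ⟨v, LinearMap.mem_ker.2 (LinearMap.ext hv)⟩, ?_⟩
    simp

/-- pairs `2t, 2t+1` -/
def symp (i j : ℕ) : ℂ :=
  if i % 2 = 0 ∧ j = i + 1 then 1 else if j % 2 = 0 ∧ i = j + 1 then -1 else 0

lemma symp_anti (i j : ℕ) : symp i j = - symp j i := by
  unfold symp
  split_ifs <;> first | (exfalso; omega) | simp

/-- bilinear form of a matrix -/
def Bm {p q : ℕ} (M : Matrix (Fin p) (Fin q) ℂ) : (Fin p → ℂ) →ₗ[ℂ] (Fin q → ℂ) →ₗ[ℂ] ℂ :=
  LinearMap.mk₂ ℂ (fun u v => ∑ i, ∑ j, u i * M i j * v j)
    (by intro u u' v; simp only [Pi.add_apply, add_mul, Finset.sum_add_distrib])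
    (by intro c u v; simp only [Pi.smul_apply, smul_eq_mul, Finset.mul_sum, mul_assoc])
    (by intro u v v'; simp only [Pi.add_apply, mul_add, Finset.sum_add_distrib])
    (by
      intro c u v
      simp only [Pi.smul_apply, smul_eq_mul, Finset.mul_sum]
      refine Finset.sum_congr rfl fun i _ => Finset.sum_congr rfl fun j _ => ?_
      ring)

lemma Bm_apply {p q : ℕ} (M : Matrix (Fin p) (Fin q) ℂ) (u : Fin p → ℂ) (v : Fin q → ℂ) :
    Bm M u v = ∑ i, ∑ j, u i * M i j * v j := rfl

lemma Bm_single {p q : ℕ} (M : Matrix (Fin p) (Fin q) ℂ) (u : Fin p → ℂ) (j : Fin q) :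
    Bm M u (Pi.single j 1) = ∑ i, u i * M i j := by
  rw [Bm_apply]
  refine Finset.sum_congr rfl fun i _ => ?_
  rw [Finset.sum_eq_single j]
  · simp
  · intro j' _ hj'
    simp [Pi.single_eq_of_ne hj']
  · simp

lemma reduction_mpr (hn : ∀ i, 0 < n i) (heven : ∀ a, Even (m a a))
    (h : HasFrobeniusFunctional (SqZero n (fun a b => m a b - m b a))) :
    IsAntiFrobenius (SqZero n m) := by
  classical
  rw [frobenius_iff] at h
  rw [antiFrobenius_iff hn]
  let e := Fintype.equivFin (Option ι)
  let ε : Option ι → Option ι → ℂ := fun a b => if e a < e b then 1 else -1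
  have hε : ∀ a b, a ≠ b → ε a b = - ε b a := by
    intro a b hab
    have hne : e a ≠ e b := fun h => hab (e.injective h)
    rcases lt_or_gt_of_ne hne with h1 | h1
    · simp [ε, h1, not_lt.2 h1.le]
    · simp [ε, h1, not_lt.2 h1.le]
  have hε0 : ∀ a b, ε a b ≠ 0 := by
    intro a b
    by_cases h1 : e a < e b
    · simp [ε, h1]
    · simp [ε, h1]
  let M : ∀ a b, Matrix (Fin (m a b)) (Fin (m b a)) ℂ := fun a b i j =>
    if a = b then symp i.val j.val else if i.val = j.val then ε a b else 0
  have hM : ∀ a b i j, M a b i j = - M b a j i := by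
    intro a b i j
    rcases eq_or_ne a b with rfl | hab
    · simp only [M, if_true]
      exact symp_anti _ _
    · simp only [M, if_neg hab, if_neg (Ne.symm hab)]
      by_cases hij : i.val = j.val
      · rw [if_pos hij, if_pos hij.symm, hε a b hab]
      · rw [if_neg hij, if_neg (Ne.symm hij), neg_zero]
  let inj : ∀ a b, (Fin (m a b - m b a) → ℂ) →ₗ[ℂ] (Fin (m a b) → ℂ) := fun a b =>
    { toFun := fun u t => if ht : m b a ≤ t.val then u ⟨t.val - m b a, by omega⟩ else 0
      map_add' := by
        intro u v; funext t
        by_cases ht : m b a ≤ t.val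
        · simp [ht]
        · simp [ht]
      map_smul' := by
        intro c u; funext t
        by_cases ht : m b a ≤ t.val
        · simp [ht]
        · simp [ht] }
  have hinj : ∀ a b u t, inj a b u t =
    if ht : m b a ≤ t.val then u ⟨t.val - m b a, by omega⟩ else 0 := fun _ _ _ _ => rfl
  let π : ∀ a b, (Fin (m a b) → ℂ) →ₗ[ℂ] (Fin (m a b - m b a) → ℂ) := fun a b =>
    { toFun := fun u t => u ⟨t.val + m b a, by omega⟩
      map_add' := by intro u v; rfl
      map_smul' := by intro c u; rfl }
  have hπ' : ∀ a b u t, π a b u t = u ⟨t.val + m b a, by omega⟩ := fun _ _ _ _ => rfl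
  refine ⟨fun a b => Bm (M a b), ?_, ?_⟩
  · intro a b u v
    rw [Bm_apply, Bm_apply, Finset.sum_comm, ← Finset.sum_neg_distrib]
    refine Finset.sum_congr rfl fun i _ => ?_
    rw [← Finset.sum_neg_distrib]
    refine Finset.sum_congr rfl fun j _ => ?_
    rw [hM]
    ring
  · refine good_of_retract (fun a b => Bm (M a b)) ?_ inj π ?_ ?_ ?_ hn h
    · intro a b u v
      rw [Bm_apply, Bm_apply, Finset.sum_comm, ← Finset.sum_neg_distrib]
      refine Finset.sum_congr rfl fun i _ => ?_
      rw [← Finset.sum_neg_distrib]
      refine Finset.sum_congr rfl fun j _ => ?_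
      rw [hM]
      ring
    · intro a b u
      funext t
      rw [hπ', hinj, dif_pos (by simp)]
      congr 1
      apply Fin.ext
      simp
    · intro a b u v
      rw [Bm_apply]
      refine Finset.sum_eq_zero fun i _ => Finset.sum_eq_zero fun j _ => ?_
      rw [hinj]
      split_ifs with ht
      · rcases eq_or_ne a b with rfl | hab
        · exact absurd ht (not_le.2 i.2)
        · have : M a b i j = 0 := by
            simp only [M, if_neg hab]
            rw [if_neg]
            have := j.2
            omega
          rw [this]; ring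
      · ring
    · intro a b v hv
      have hv' : ∀ j, ∑ i, v i * M a b i j = 0 := by
        intro j
        rw [← Bm_single]
        exact hv _
      have hkey : ∀ t : Fin (m a b), t.val < m b a → v t = 0 := by
        intro t ht
        rcases eq_or_ne a b with rfl | hab
        · obtain ⟨h', hh'⟩ := heven a
          rcases Nat.mod_two_eq_zero_or_one t.val with h2 | h2
          · have hlt : t.val + 1 < m a a := by omega
            have h3 := hv' ⟨t.val + 1, hlt⟩
            rw [Finset.sum_eq_single t] at h3
            · have : M a a t ⟨t.val + 1, hlt⟩ = 1 := by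
                simp [M, symp, h2]
              rw [this, mul_one] at h3
              exact h3
            · intro i _ hi
              have hi' : i.val ≠ t.val := fun h => hi (Fin.ext h)
              have : M a a i ⟨t.val + 1, hlt⟩ = 0 := by
                simp only [M, if_true, symp]
                rw [if_neg, if_neg]
                · simp only [not_and]
                  omega
                · simp only [not_and]
                  omega
              rw [this, mul_zero]
            · simp
          · have hlt : t.val - 1 < m a a := by omega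
            have h3 := hv' ⟨t.val - 1, hlt⟩
            rw [Finset.sum_eq_single t] at h3
            · have : M a a t ⟨t.val - 1, hlt⟩ = -1 := by
                simp only [M, if_true, symp]
                rw [if_neg, if_pos]
                · constructor <;> omega
                · simp only [not_and]
                  omega
              rw [this, mul_neg, mul_one, neg_eq_zero] at h3
              exact h3
            · intro i _ hi
              have hi' : i.val ≠ t.val := fun h => hi (Fin.ext h)
              have : M a a i ⟨t.val - 1, hlt⟩ = 0 := by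
                simp only [M, if_true, symp]
                rw [if_neg, if_neg]
                · simp only [not_and]
                  omega
                · simp only [not_and]
                  omega
              rw [this, mul_zero]
            · simp
        · have h3 := hv' ⟨t.val, ht⟩
          rw [Finset.sum_eq_single t] at h3
          · have : M a b t ⟨t.val, ht⟩ = ε a b := by
              simp [M, hab]
            rw [this] at h3
            rcases mul_eq_zero.1 h3 with h4 | h4
            · exact h4
            · exact absurd h4 (hε0 a b)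
          · intro i _ hi
            have hi' : i.val ≠ t.val := fun h => hi (Fin.ext h)
            have : M a b i ⟨t.val, ht⟩ = 0 := by
              simp [M, hab, hi']
            rw [this, mul_zero]
          · simp
      refine ⟨π a b v, ?_⟩
      funext t
      rw [hinj]
      split_ifs with ht
      · rw [hπ']
        congr 1
        apply Fin.ext
        simp only
        omega
      · exact (hkey t (not_le.1 ht)).symm

/-- The reduction theorem. -/
theorem reduction (hn : ∀ i, 0 < n i) :
    IsAntiFrobenius (SqZero n m) ↔ (∀ a, Even (m a a)) ∧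
      HasFrobeniusFunctional (SqZero n (fun a b => m a b - m b a)) :=
  ⟨reduction_mp hn, fun h => reduction_mpr hn h.1 h.2⟩

end

end Pool.Agent.Helper29.AntiFrob
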