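import Pool.Agent.Helper29.AntiFrob.SplitIff
import Pool.Agent.Helper29.AntiFrob.Final

set_option autoImplicit false

namespace Pool.Agent.Helper29.AntiFrob

section base

variable {J : Type} [Fintype J] (fr : J → Prop) (V : J → Type) [∀ a, AddCommGroup (V a)]
  [∀ a, Module ℂ (V a)] (T : J → J → Type) [∀ a b, Fintype (T a b)]

lemma frobG_base : FrobG fr V T ↔ ∃ (Ξ : ∀ j k, T j k → V j →ₗ[ℂ] V k) (l : NJ fr V),
    ∀ (s : SJ fr V) (x : EJ V T), aMap fr V Ξ s = 0 → bbMap fr V l s + cMap fr V Ξ x = 0 →
      s = 0 ∧ x = 0 := by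
  classical
  constructor
  · rintro ⟨Λ, Ξ, hk⟩
    refine ⟨Ξ, fun j => Λ j.1, ?_⟩
    intro s x h1 h2
    have hres := hk s.1 x s.2
      (by
        intro a b t
        exact sub_eq_zero.1 (congrFun (congrFun (congrFun h1 a) b) t))
      (by
        intro j hj
        have := congrFun h2 ⟨j, hj⟩
        change (Λ j ∘ₗ s.1 j - s.1 j ∘ₗ Λ j) + (∑ k, ∑ t, Ξ k j t ∘ₗ x k j t -
          ∑ k, ∑ t, x j k t ∘ₗ Ξ j k t) = 0 at this
        rw [← sub_eq_zero, ← this]
        abel)
    refine ⟨?_, ?_⟩
    · apply Subtype.ext
      funext j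
      exact hres.1 j
    · funext j k t
      exact hres.2 j k t
  · rintro ⟨Ξ, l, hk⟩
    refine ⟨fun j => if hj : fr j then 0 else l ⟨j, hj⟩, Ξ, ?_⟩
    intro s x h1 h2 h3
    have hres := hk ⟨s, h1⟩ x
      (by
        funext j k t
        exact sub_eq_zero.2 (h2 j k t))
      (by
        funext ⟨j, hj⟩
        have := h3 j hj
        simp only [dif_neg hj] at this
        change (l ⟨j, hj⟩ ∘ₗ s j - s j ∘ₗ l ⟨j, hj⟩) + (∑ k, ∑ t, Ξ k j t ∘ₗ x k j t -
          ∑ k, ∑ t, x j k t ∘ₗ Ξ j k t) = 0
        rw [this]
        abel)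
    exact ⟨fun a => congrFun (congrArg Subtype.val hres.1) a,
      fun a b t => congrFun (congrFun (congrFun hres.2 a) b) t⟩

lemma KSout_subsingleton {Q : J → Type} [∀ j, Fintype (Q j)] [DecidableEq J]
    [∀ j, DecidableEq (Q j)] (W : Type) [AddCommGroup W] [Module ℂ W] [Subsingleton W]
    (Ξ : ∀ j k, T j k → V j →ₗ[ℂ] V k) (Λ : W →ₗ[ℂ] W) (X : W →ₗ[ℂ] YY V Q) (l : NJ fr V) :
    KSout (aMap fr V Ξ) (ρMap fr V Q) (bbMap fr V) (cMap fr V Ξ) (τMap fr V Q) Λ X l ↔
    ∀ (s : SJ fr V) (x : EJ V T), aMap fr V Ξ s = 0 → bbMap fr V l s + cMap fr V Ξ x = 0 →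
      s = 0 ∧ x = 0 := by
  constructor
  · intro h s x h1 h2
    have := h 0 s x 0 h1
      (by apply LinearMap.ext; intro w; rw [Subsingleton.elim w 0, map_zero, map_zero])
      (by apply LinearMap.ext; intro w; exact Subsingleton.elim _ _)
      (by rw [h2, LinearMap.comp_zero, map_zero, add_zero])
    exact ⟨this.2.1, this.2.2.1⟩
  · intro h σ s x m h1 _ _ h4
    have hm : m = 0 := by apply LinearMap.ext; intro w; exact Subsingleton.elim _ _
    rw [hm, LinearMap.comp_zero, map_zero, add_zero] at h4
    have := h s x h1 h4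
    exact ⟨by apply LinearMap.ext; intro w; exact Subsingleton.elim _ _, this.1, this.2, hm⟩

end base

section forms

variable {ι : Type} [Fintype ι] [DecidableEq ι]

/-- vertices other than `some i` -/
abbrev JJ (i : ι) : Type := {a : Option ι // a ≠ some i}

lemma out_form (i : ι) (n n' : ι → ℕ) (m m' : Option ι → Option ι → ℕ)
    (hsize : ∀ a, a ≠ some i → size n' a = size n a)
    (hm : ∀ a b, a ≠ some i → b ≠ some i → m' a b = m a b)
    (hout : ∀ b, m' b (some i) = 0)
    (hq : ∀ b, b ≠ some i → m' (some i) b = m (some i) b) :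
    HasFrobeniusFunctional (SqZero n' m') ↔
      FrobG (ofr (fun j : JJ i => j.1 = none))
        (OV (Fin (n' i) → ℂ) (fun j : JJ i => Fin (size n j.1) → ℂ))
        (OTo (fun j : JJ i => Fin (m (some i) j.1)) (fun j k : JJ i => Fin (m j.1 k.1))) := by
  rw [frobG_iff]
  refine (FrobG.transport_iff (Equiv.optionSubtypeNe (some i)) ?_ ?_ ?_).symm
  · intro a
    cases a with
    | none => simp [ofr]
    | some j => simp [ofr]
  · intro a
    cases a with
    | none =>
      change Module.finrank ℂ (Fin (n' i) → ℂ) = Module.finrank ℂ (Fin (n' i) → ℂ)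
      rfl
    | some j =>
      change Module.finrank ℂ (Fin (size n j.1) → ℂ) = Module.finrank ℂ (Fin (size n' j.1) → ℂ)
      rw [hsize j.1 j.2]
  · intro a b
    cases a with
    | none =>
      cases b with
      | none =>
        change Fintype.card Empty = Fintype.card (Fin (m' (some i) (some i)))
        rw [hout]
        rfl
      | some j =>
        change Fintype.card (Fin (m (some i) j.1)) = Fintype.card (Fin (m' (some i) j.1))
        rw [hq j.1 j.2]
    | some j =>
      cases b with
      | none =>
        change Fintype.card Empty = Fintype.card (Fin (m' j.1 (some i)))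
        rw [hout]
        rfl
      | some k =>
        change Fintype.card (Fin (m j.1 k.1)) = Fintype.card (Fin (m' j.1 k.1))
        rw [hm j.1 k.1 j.2 k.2]

lemma in_form (i : ι) (n n' : ι → ℕ) (m m' : Option ι → Option ι → ℕ)
    (hsize : ∀ a, a ≠ some i → size n' a = size n a)
    (hm : ∀ a b, a ≠ some i → b ≠ some i → m' a b = m a b)
    (hout : ∀ b, m' (some i) b = 0)
    (hq : ∀ b, b ≠ some i → m' b (some i) = m (some i) b) :
    HasFrobeniusFunctional (SqZero n' m') ↔
      FrobG (ofr (fun j : JJ i => j.1 = none))
        (OV (Fin (n' i) → ℂ) (fun j : JJ i => Fin (size n j.1) → ℂ))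
        (OTi (fun j : JJ i => Fin (m (some i) j.1)) (fun j k : JJ i => Fin (m j.1 k.1))) := by
  rw [frobG_iff]
  refine (FrobG.transport_iff (Equiv.optionSubtypeNe (some i)) ?_ ?_ ?_).symm
  · intro a
    cases a with
    | none => simp [ofr]
    | some j => simp [ofr]
  · intro a
    cases a with
    | none =>
      change Module.finrank ℂ (Fin (n' i) → ℂ) = Module.finrank ℂ (Fin (n' i) → ℂ)
      rfl
    | some j =>
      change Module.finrank ℂ (Fin (size n j.1) → ℂ) = Module.finrank ℂ (Fin (size n' j.1) → ℂ)
      rw [hsize j.1 j.2]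
  · intro a b
    cases a with
    | none =>
      cases b with
      | none =>
        change Fintype.card Empty = Fintype.card (Fin (m' (some i) (some i)))
        rw [hout]
        rfl
      | some j =>
        change Fintype.card Empty = Fintype.card (Fin (m' (some i) j.1))
        rw [hout]
        rfl
    | some j =>
      cases b with
      | none =>
        change Fintype.card (Fin (m (some i) j.1)) = Fintype.card (Fin (m' j.1 (some i)))
        rw [hq j.1 j.2]
      | some k =>
        change Fintype.card (Fin (m j.1 k.1)) = Fintype.card (Fin (m' j.1 k.1))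
        rw [hm j.1 k.1 j.2 k.2]

lemma finrank_YY (i : ι) (n : ι → ℕ) (m : Option ι → Option ι → ℕ) (h : m (some i) (some i) = 0) :
    Module.finrank ℂ (YY (fun j : JJ i => Fin (size n j.1) → ℂ)
      (fun j : JJ i => Fin (m (some i) j.1))) = ∑ b, m (some i) b * size n b := by
  rw [Module.finrank_pi_fintype]
  simp only [Module.finrank_pi_fintype, Module.finrank_fin_fun, Finset.sum_const,
    Finset.card_univ, Fintype.card_fin, smul_eq_mul]
  rw [← Equiv.sum_comp (Equiv.optionSubtypeNe (some i))
    (fun b => m (some i) b * size n b), Fintype.sum_option]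
  simp [h]

lemma size_update (n : ι → ℕ) (i : ι) (k : ℕ) (a : Option ι) (ha : a ≠ some i) :
    size (Function.update n i k) a = size n a := by
  cases a with
  | none => rfl
  | some j =>
    have : j ≠ i := fun h => ha (by rw [h])
    change Function.update n i k j = n j
    rw [Function.update_of_ne this]

lemma castle_out (i : ι) (n : ι → ℕ) (m : Option ι → Option ι → ℕ)
    (hout : ∀ b, m b (some i) = 0) :
    (∑ b, m (some i) b * size n b ≤ n i → (HasFrobeniusFunctional (SqZero n m) ↔
      HasFrobeniusFunctional (SqZero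
        (Function.update n i (n i - ∑ b, m (some i) b * size n b)) m))) ∧
    (n i ≤ ∑ b, m (some i) b * size n b → (HasFrobeniusFunctional (SqZero n m) ↔
      HasFrobeniusFunctional (SqZero
        (Function.update n i (∑ b, m (some i) b * size n b - n i)) (swapAt i m)))) := by
  have hY := finrank_YY i n m (hout _)
  constructor
  · intro hle
    rw [out_form i n n m m (fun _ _ => rfl) (fun _ _ _ _ => rfl) hout (fun _ _ => rfl),
      out_form i n (Function.update n i (n i - ∑ b, m (some i) b * size n b)) m m
        (fun a ha => size_update n i _ a ha) (fun _ _ _ _ => rfl) hout (fun _ _ => rfl)]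
    have hdim : Module.finrank ℂ (Fin (n i) → ℂ) =
        Module.finrank ℂ
          (Fin (Function.update n i (n i - ∑ b, m (some i) b * size n b) i) → ℂ) +
        Module.finrank ℂ (YY (fun j : JJ i => Fin (size n j.1) → ℂ)
          (fun j : JJ i => Fin (m (some i) j.1))) := by
      rw [hY, Module.finrank_fin_fun, Module.finrank_fin_fun, Function.update_self]
      omega
    constructor
    · intro h
      obtain ⟨Ξ, Λ, X, l, hk⟩ := frobG_out_mp _ _ _ _ _ h
      apply frobG_out_mpr
      obtain ⟨Λ', X', l', hk'⟩ := hk.sub_mp (τMap_comm _ _ _) hdim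
      exact ⟨Ξ, Λ', X', l', hk'⟩
    · intro h
      obtain ⟨Ξ, Λ, X, l, hk⟩ := frobG_out_mp _ _ _ _ _ h
      apply frobG_out_mpr
      obtain ⟨Λ', X', l', hk'⟩ := hk.sub_mpr hdim
      exact ⟨Ξ, Λ', X', l', hk'⟩
  · intro hle
    rw [out_form i n n m m (fun _ _ => rfl) (fun _ _ _ _ => rfl) hout (fun _ _ => rfl),
      in_form i n (Function.update n i (∑ b, m (some i) b * size n b - n i)) m (swapAt i m)
        (fun a ha => size_update n i _ a ha)
        (fun a b ha hb => by simp [swapAt, ha, hb])
        (fun b => by simp [swapAt, hout]) (fun b hb => by simp [swapAt])]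
    have hdim : Module.finrank ℂ (Fin (n i) → ℂ) +
        Module.finrank ℂ
          (Fin (Function.update n i (∑ b, m (some i) b * size n b - n i) i) → ℂ) =
        Module.finrank ℂ (YY (fun j : JJ i => Fin (size n j.1) → ℂ)
          (fun j : JJ i => Fin (m (some i) j.1))) := by
      rw [hY, Module.finrank_fin_fun, Module.finrank_fin_fun, Function.update_self]
      omega
    constructor
    · intro h
      obtain ⟨Ξ, Λ, X, l, hk⟩ := frobG_out_mp _ _ _ _ _ h
      apply frobG_in_mpr
      obtain ⟨Λ', X', l', hk'⟩ := hk.castle (τMap_comm _ _ _) hdim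
      exact ⟨Ξ, Λ', X', l', hk'⟩
    · intro h
      obtain ⟨Ξ, Λ, X, l, hk⟩ := frobG_in_mp _ _ _ _ _ h
      apply frobG_out_mpr
      obtain ⟨Λ', X', l', hk'⟩ := hk.castle (τMap_comm _ _ _) hdim
      exact ⟨Ξ, Λ', X', l', hk'⟩

lemma frobenius_op_iff {n : ι → ℕ} {m : Option ι → Option ι → ℕ} :
    HasFrobeniusFunctional (SqZero n m) ↔ HasFrobeniusFunctional (SqZero n (fun a b => m b a)) :=
  ⟨frobenius_op, fun h => frobenius_op h⟩

lemma castle_in (i : ι) (n : ι → ℕ) (m : Option ι → Option ι → ℕ)
    (hin : ∀ b, m (some i) b = 0) :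
    (∑ b, m b (some i) * size n b ≤ n i → (HasFrobeniusFunctional (SqZero n m) ↔
      HasFrobeniusFunctional (SqZero
        (Function.update n i (n i - ∑ b, m b (some i) * size n b)) m))) ∧
    (n i ≤ ∑ b, m b (some i) * size n b → (HasFrobeniusFunctional (SqZero n m) ↔
      HasFrobeniusFunctional (SqZero
        (Function.update n i (∑ b, m b (some i) * size n b - n i)) (swapAt i m)))) := by
  obtain ⟨h1, h2⟩ := castle_out i n (fun a b => m b a) hin
  constructor
  · intro hle
    rw [frobenius_op_iff, h1 hle, ← frobenius_op_iff]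
  · intro hle
    have e : (fun a b => swapAt i m b a) = swapAt i (fun a b => m b a) := by
      funext a b
      unfold swapAt
      by_cases ha : a = some i
      · simp [ha]
      · by_cases hb : b = some i
        · simp [hb]
        · simp [ha, hb]
    rw [frobenius_op_iff, h2 hle, ← e, ← frobenius_op_iff]

/-- Removal of a factor of size zero. -/
lemma remove_zero (i : ι) (n : ι → ℕ) (m : Option ι → Option ι → ℕ) (h0 : n i = 0)
    (hout : ∀ b, m b (some i) = 0) :
    HasFrobeniusFunctional (SqZero n m) ↔
      HasFrobeniusFunctional (SqZero (fun j : {j : ι // j ≠ i} => n j)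
        (fun a b => m (a.map Subtype.val) (b.map Subtype.val))) := by
  classical
  rw [out_form i n n m m (fun _ _ => rfl) (fun _ _ _ _ => rfl) hout (fun _ _ => rfl)]
  have hsub : Subsingleton (Fin (n i) → ℂ) := by rw [h0]; infer_instance
  have h1 : FrobG (ofr (fun j : JJ i => j.1 = none))
        (OV (Fin (n i) → ℂ) (fun j : JJ i => Fin (size n j.1) → ℂ))
        (OTo (fun j : JJ i => Fin (m (some i) j.1)) (fun j k : JJ i => Fin (m j.1 k.1))) ↔
      FrobG (fun j : JJ i => j.1 = none) (fun j : JJ i => Fin (size n j.1) → ℂ)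
        (fun j k : JJ i => Fin (m j.1 k.1)) := by
    rw [frobG_base (fun j : JJ i => j.1 = none) (fun j : JJ i => Fin (size n j.1) → ℂ)
      (fun j k : JJ i => Fin (m j.1 k.1))]
    constructor
    · intro h
      obtain ⟨Ξ, Λ, X, l, hk⟩ := frobG_out_mp _ _ _ _ _ h
      exact ⟨Ξ, l, (KSout_subsingleton _ _ _ _ _ _ _ _).1 hk⟩
    · rintro ⟨Ξ, l, hk⟩
      apply frobG_out_mpr
      exact ⟨Ξ, 0, 0, l, (KSout_subsingleton _ _ _ _ _ _ _ _).2 hk⟩
  rw [h1, frobG_iff]
  let ε : Option {j : ι // j ≠ i} ≃ JJ i :=
    { toFun := fun a => ⟨a.map Subtype.val, by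
        cases a with
        | none => simp
        | some j => simpa using j.2⟩
      invFun := fun a => match a with
        | ⟨none, _⟩ => none
        | ⟨some j, hj⟩ => some ⟨j, fun h => hj (by rw [h])⟩
      left_inv := by
        intro a
        cases a with
        | none => rfl
        | some j => rfl
      right_inv := by
        rintro ⟨a, ha⟩
        cases a with
        | none => rfl
        | some j => rfl }
  refine (FrobG.transport_iff ε ?_ ?_ ?_).symm
  · intro a
    cases a with
    | none => simp [ε]
    | some j => simp [ε]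
  · intro a
    cases a with
    | none => rfl
    | some j => rfl
  · intro a b
    rfl

lemma remove_zero' (i : ι) (n : ι → ℕ) (m : Option ι → Option ι → ℕ) (h0 : n i = 0)
    (h : (∀ b, m b (some i) = 0) ∨ (∀ b, m (some i) b = 0)) :
    HasFrobeniusFunctional (SqZero n m) ↔
      HasFrobeniusFunctional (SqZero (fun j : {j : ι // j ≠ i} => n j)
        (fun a b => m (a.map Subtype.val) (b.map Subtype.val))) := by
  rcases h with h | h
  · exact remove_zero i n m h0 h
  · rw [frobenius_op_iff, remove_zero i n (fun a b => m b a) h0 h, ← frobenius_op_iff]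

/-- The reduction step at a factor that is a source or a sink. -/
theorem castling (i : ι) (n : ι → ℕ) (hn : ∀ j, 0 < n j) (m : Option ι → Option ι → ℕ)
    (N : ℕ) (hN : N = ∑ b, ((m (some i) b - m b (some i)) + (m b (some i) - m (some i) b)) *
      size n b)
    (h : (∀ b, m b (some i) ≤ m (some i) b) ∨ (∀ b, m (some i) b ≤ m b (some i))) :
    (N < n i → (IsAntiFrobenius (SqZero n m) ↔
      IsAntiFrobenius (SqZero (Function.update n i (n i - N)) m))) ∧
    (n i = N → (IsAntiFrobenius (SqZero n m) ↔ Even (m (some i) (some i)) ∧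
      IsAntiFrobenius (SqZero (fun j : {j : ι // j ≠ i} => n j)
        (fun a b => m (a.map Subtype.val) (b.map Subtype.val))))) ∧
    (n i < N → (IsAntiFrobenius (SqZero n m) ↔
      IsAntiFrobenius (SqZero (Function.update n i (N - n i)) (swapAt i m)))) := by
  let r : Option ι → Option ι → ℕ := fun a b => m a b - m b a
  have hr : ∀ a b, r a b = m a b - m b a := fun _ _ => rfl
  have hrs : (∀ b, r b (some i) = 0) ∨ (∀ b, r (some i) b = 0) := by
    rcases h with h | h
    · left; intro b; have := h b; rw [hr]; omega
    · right; intro b; have := h b; rw [hr]; omega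
  have hupd : ∀ k, 0 < k → ∀ j, 0 < Function.update n i k j := by
    intro k hk j
    rcases eq_or_ne j i with rfl | hj
    · rw [Function.update_self]; exact hk
    · rw [Function.update_of_ne hj]; exact hn j
  have hstep : (N ≤ n i → (HasFrobeniusFunctional (SqZero n r) ↔
      HasFrobeniusFunctional (SqZero (Function.update n i (n i - N)) r))) ∧
    (n i ≤ N → (HasFrobeniusFunctional (SqZero n r) ↔
      HasFrobeniusFunctional (SqZero (Function.update n i (N - n i)) (swapAt i r)))) := by
    rcases h with h | h
    · have h0 : ∀ b, r b (some i) = 0 := by intro b; have := h b; rw [hr]; omega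
      have hN' : N = ∑ b, r (some i) b * size n b := by
        rw [hN]
        refine Finset.sum_congr rfl fun b _ => ?_
        have h1 := h b
        have : m b (some i) - m (some i) b = 0 := by omega
        rw [this, add_zero]
      rw [hN']
      exact castle_out i n r h0
    · have h0 : ∀ b, r (some i) b = 0 := by intro b; have := h b; rw [hr]; omega
      have hN' : N = ∑ b, r b (some i) * size n b := by
        rw [hN]
        refine Finset.sum_congr rfl fun b _ => ?_
        have h1 := h b
        have : m (some i) b - m b (some i) = 0 := by omega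
        rw [this, zero_add]
      rw [hN']
      exact castle_in i n r h0
  refine ⟨?_, ?_, ?_⟩
  · intro hlt
    rw [reduction hn, reduction (hupd _ (by omega))]
    exact and_congr_right fun _ => hstep.1 hlt.le
  · intro heq
    rw [reduction hn, reduction (n := fun j : {j : ι // j ≠ i} => n j.1) (fun j => hn j.1)]
    have h1 := hstep.1 heq.ge
    have h2 := remove_zero' i (Function.update n i (n i - N)) r
      (by rw [Function.update_self]; omega) hrs
    have h3 : (fun j : {j : ι // j ≠ i} => Function.update n i (n i - N) j.1) =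
        (fun j : {j : ι // j ≠ i} => n j.1) := by
      funext j
      rw [Function.update_of_ne j.2]
    rw [h3] at h2
    rw [show HasFrobeniusFunctional (SqZero n (fun a b => m a b - m b a)) ↔ _ from h1.trans h2,
      ← and_assoc]
    refine and_congr_left fun _ => ?_
    constructor
    · intro he
      exact ⟨he _, fun a => he _⟩
    · rintro ⟨he0, he⟩ a
      cases a with
      | none => exact he none
      | some j =>
        rcases eq_or_ne j i with rfl | hj
        · exact he0
        · exact he (some ⟨j, hj⟩)
  · intro hlt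
    rw [reduction hn, reduction (hupd _ (by omega))]
    have e : (fun a b => swapAt i m a b - swapAt i m b a) = swapAt i r := by
      funext a b
      unfold swapAt
      by_cases ha : a = some i
      · simp [ha, r]
      · by_cases hb : b = some i
        · simp [hb, r]
        · simp [ha, hb, r]
    rw [e]
    refine and_congr ?_ (hstep.2 hlt.le)
    refine forall_congr' fun a => ?_
    have : swapAt i m a a = m a a := by
      unfold swapAt
      split_ifs <;> rfl
    rw [this]

end forms

end Pool.Agent.Helper29.AntiFrob
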