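import Pool.Agent.Helper29.AntiFrob.Basic

set_option autoImplicit false

namespace Pool.Agent.Helper29.AntiFrob

open Matrix

/-! ### Cyclic cocycles are coboundaries on a separable part -/

lemma cobound {A : Type} [NonUnitalRing A] [Module ℂ A] [IsScalarTower ℂ A A]
    [SMulCommClass ℂ A A] (ω : A →ₗ[ℂ] A →ₗ[ℂ] ℂ) (hanti : ∀ x y, ω x y = - ω y x)
    (hcyc : ∀ x y z, ω x (y * z) + ω y (z * x) + ω z (x * y) = 0)
    {T : Type} [Fintype T] (X Y : T → A) (e : A) (S : Set A) (heS : e ∈ S)
    (hXY : ∑ t, X t * Y t = e) (hl : ∀ s ∈ S, e * s = s) (hr : ∀ s ∈ S, s * e = s)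
    (hsep : ∀ s ∈ S, ∀ f : A →ₗ[ℂ] A →ₗ[ℂ] ℂ,
      ∑ t, f (s * X t) (Y t) = ∑ t, f (X t) (Y t * s)) :
    ∃ l : A →ₗ[ℂ] ℂ, ∀ s ∈ S, ∀ a, ω s a = l (s * a - a * s) := by
  let l : A →ₗ[ℂ] ℂ := - (∑ t, (ω (Y t)).comp (LinearMap.mulRight ℂ (X t))) +
    (ω e).comp (LinearMap.id - LinearMap.mulRight ℂ e)
  have hlapp : ∀ a, l a = - (∑ t, ω (Y t) (a * X t)) + ω e (a - a * e) := by
    intro a
    simp [l, LinearMap.sum_apply]
  refine ⟨l, fun s hs a => ?_⟩
  have h1 : ∑ t, ω (Y t) (a * s * X t) = ∑ t, ω (Y t * s) (a * X t) := by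
    have := hsep s hs (ω.flip.comp (LinearMap.mulLeft ℂ a))
    simpa [mul_assoc] using this
  have h2 : ∀ t, ω (Y t * s) (a * X t) = ω (Y t) (s * a * X t) + ω s (a * (X t * Y t)) := by
    intro t
    have h := hcyc (Y t) s (a * X t)
    rw [hanti (Y t * s) (a * X t)]
    rw [← mul_assoc, mul_assoc a (X t) (Y t)] at h
    linear_combination (-1 : ℂ) * h
  have h3 : ∑ t, ω (Y t) (a * s * X t) = ∑ t, ω (Y t) (s * a * X t) + ω s (a * e) := by
    rw [h1, Finset.sum_congr rfl (fun t _ => h2 t), Finset.sum_add_distrib, ← map_sum,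
      ← Finset.mul_sum, hXY]
  have h4 : ω e (s * (a - a * e)) = ω s (a - a * e) := by
    have h := hcyc e s (a - a * e)
    have he : (a - a * e) * e = 0 := by
      rw [sub_mul, mul_assoc, hl e heS, sub_self]
    rw [he, map_zero, hl s hs, hanti (a - a * e) s] at h
    linear_combination h
  rw [hlapp]
  have h5 : (s * a - a * s) - (s * a - a * s) * e = s * (a - a * e) := by
    rw [sub_mul, mul_assoc a s e, hr s hs, mul_sub, mul_assoc]
    abel
  rw [h5, h4]
  have h6 : ∑ t, ω (Y t) ((s * a - a * s) * X t) =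
      ∑ t, ω (Y t) (s * a * X t) - ∑ t, ω (Y t) (a * s * X t) := by
    rw [← Finset.sum_sub_distrib]
    refine Finset.sum_congr rfl fun t _ => ?_
    rw [sub_mul, map_sub]
  rw [h6, h3, map_sub]
  ring

/-! ### Elementary tensors -/

section tens

variable {ι : Type} [DecidableEq ι] {n : ι → ℕ} {U : Option ι → Option ι → Type}
  [∀ a b, AddCommGroup (U a b)] [∀ a b, Module ℂ (U a b)]

/-- elementary element of the bimodule -/
def tens (a b : Option ι) (X : Matrix (Fin (size n a)) (Fin (size n b)) ℂ) (u : U a b) :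
    MU n U := Pi.single a (Pi.single b (fun p q => X p q • u))

lemma tens_same (a b : Option ι) (X : Matrix (Fin (size n a)) (Fin (size n b)) ℂ) (u : U a b) :
    tens a b X u a b = fun p q => X p q • u := by
  simp [tens]

lemma tens_ne_left {a a' : Option ι} (h : a' ≠ a) (b b' : Option ι)
    (X : Matrix (Fin (size n a)) (Fin (size n b)) ℂ) (u : U a b) :
    tens a b X u a' b' = 0 := by
  simp [tens, Pi.single_eq_of_ne h]

lemma tens_ne_right {b b' : Option ι} (h : b' ≠ b) (a a' : Option ι)
    (X : Matrix (Fin (size n a)) (Fin (size n b)) ℂ) (u : U a b) :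
    tens a b X u a' b' = 0 := by
  rcases eq_or_ne a' a with rfl | h'
  · simp [tens, Pi.single_eq_of_ne h]
  · exact tens_ne_left h' b b' X u

lemma L_tens (σ : SP n) (a b : Option ι) (X : Matrix (Fin (size n a)) (Fin (size n b)) ℂ)
    (u : U a b) : L σ (tens a b X u) = tens a b (σ a * X) u := by
  funext a' b' p q
  rw [L_apply]
  rcases eq_or_ne a' a with rfl | h
  · rcases eq_or_ne b' b with rfl | h'
    · simp only [tens_same, Matrix.mul_apply, Finset.sum_smul, smul_smul]
    · simp [tens_ne_right h']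
  · simp [tens_ne_left h]

lemma R_tens (σ : SP n) (a b : Option ι) (X : Matrix (Fin (size n a)) (Fin (size n b)) ℂ)
    (u : U a b) : R σ (tens a b X u) = tens a b (X * σ b) u := by
  funext a' b' p q
  rw [R_apply]
  rcases eq_or_ne a' a with rfl | h
  · rcases eq_or_ne b' b with rfl | h'
    · simp only [tens_same, Matrix.mul_apply, Finset.sum_smul, smul_smul]
      refine Finset.sum_congr rfl fun q' _ => ?_
      rw [mul_comm]
    · simp [tens_ne_right h']
  · simp [tens_ne_left h]

lemma tens_add (a b : Option ι) (X X' : Matrix (Fin (size n a)) (Fin (size n b)) ℂ)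
    (u : U a b) : tens a b (X + X') u = tens a b X u + tens a b X' u := by
  funext a' b' p q
  rcases eq_or_ne a' a with rfl | h
  · rcases eq_or_ne b' b with rfl | h'
    · simp [tens_same, add_smul]
    · simp [tens_ne_right h']
  · simp [tens_ne_left h]

lemma tens_smul (c : ℂ) (a b : Option ι) (X : Matrix (Fin (size n a)) (Fin (size n b)) ℂ)
    (u : U a b) : tens a b (c • X) u = c • tens a b X u := by
  funext a' b' p q
  rcases eq_or_ne a' a with rfl | h
  · rcases eq_or_ne b' b with rfl | h'
    · simp [tens_same, mul_smul]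
    · simp [tens_ne_right h']
  · simp [tens_ne_left h]

lemma tens_zero (a b : Option ι) (u : U a b) :
    tens a b (0 : Matrix (Fin (size n a)) (Fin (size n b)) ℂ) u = 0 := by
  have := tens_smul (0 : ℂ) a b (0 : Matrix (Fin (size n a)) (Fin (size n b)) ℂ) u
  simpa using this

/-- `tens` as a linear map in the matrix -/
def tensL (a b : Option ι) (u : U a b) : Matrix (Fin (size n a)) (Fin (size n b)) ℂ →ₗ[ℂ] MU n U where
  toFun X := tens a b X u
  map_add' X X' := tens_add a b X X' u
  map_smul' c X := tens_smul c a b X u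

lemma decomp [Fintype ι] (x : MU n U) :
    x = ∑ a, ∑ b, ∑ p, ∑ q, tens a b (Matrix.single p q 1) (x a b p q) := by
  funext a b p q
  simp only [Finset.sum_apply]
  rw [Finset.sum_eq_single a]
  · rw [Finset.sum_eq_single b]
    · rw [Finset.sum_eq_single p]
      · rw [Finset.sum_eq_single q]
        · simp [tens_same]
        · intro q' _ hq'
          simp [tens_same, Matrix.single_apply_of_col_ne _ _ hq']
        · simp
      · intro p' _ hp'
        refine Finset.sum_eq_zero fun q' _ => ?_
        simp [tens_same, Matrix.single_apply_of_row_ne hp']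
      · simp
    · intro b' _ hb'
      refine Finset.sum_eq_zero fun p' _ => Finset.sum_eq_zero fun q' _ => ?_
      rw [tens_ne_right (Ne.symm hb')]
      rfl
    · simp
  · intro a' _ ha'
    refine Finset.sum_eq_zero fun b' _ => Finset.sum_eq_zero fun p' _ =>
      Finset.sum_eq_zero fun q' _ => ?_
    rw [tens_ne_left (Ne.symm ha')]
    rfl
  · simp

end tens

/-! ### Balanced forms -/

section bal

variable {ι : Type} [DecidableEq ι] [Fintype ι] {n : ι → ℕ} {U : Option ι → Option ι → Type}
  [∀ a b, AddCommGroup (U a b)] [∀ a b, Module ℂ (U a b)]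

lemma size_pos (hn : ∀ i, 0 < n i) (a : Option ι) : 0 < size n a := by
  cases a with
  | none => exact Nat.one_pos
  | some i => exact hn i

/-- the first index -/
def z (hn : ∀ i, 0 < n i) (a : Option ι) : Fin (size n a) := ⟨0, size_pos hn a⟩

lemma balanced_eq_bet (hn : ∀ i, 0 < n i) (β : MU n U →ₗ[ℂ] MU n U →ₗ[ℂ] ℂ)
    (hL : ∀ (σ : SP n) (x y : MU n U), β (L σ x) y = β x (R σ y))
    (hR : ∀ (σ : SP n) (x y : MU n U), β (R σ x) y = β x (L σ y)) :
    ∃ B : ∀ a b, U a b →ₗ[ℂ] U b a →ₗ[ℂ] ℂ, β = bet B := by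
  let E0 : ∀ a b : Option ι, Matrix (Fin (size n a)) (Fin (size n b)) ℂ :=
    fun a b => Matrix.single (z hn a) (z hn b) 1
  let B : ∀ a b, U a b →ₗ[ℂ] U b a →ₗ[ℂ] ℂ := fun a b =>
    LinearMap.mk₂ ℂ (fun u v => β (tens a b (E0 a b) u) (tens b a (E0 b a) v))
      (by
        intro u u' v
        have : tens a b (E0 a b) (u + u') = tens a b (E0 a b) u + tens a b (E0 a b) u' := by
          simp only [tens, smul_add, ← Pi.single_add]
          rfl
        rw [this, map_add, LinearMap.add_apply])
      (by
        intro c u v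
        have : tens a b (E0 a b) (c • u) = c • tens a b (E0 a b) u := by
          simp only [tens, smul_comm _ c, ← Pi.single_smul]
          rfl
        rw [this, map_smul, LinearMap.smul_apply])
      (by
        intro u v v'
        have : tens b a (E0 b a) (v + v') = tens b a (E0 b a) v + tens b a (E0 b a) v' := by
          simp only [tens, smul_add, ← Pi.single_add]
          rfl
        rw [this, map_add])
      (by
        intro c u v
        have : tens b a (E0 b a) (c • v) = c • tens b a (E0 b a) v := by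
          simp only [tens, smul_comm _ c, ← Pi.single_smul]
          rfl
        rw [this, map_smul])
  have hB : ∀ a b u v, B a b u v = β (tens a b (E0 a b) u) (tens b a (E0 b a) v) :=
    fun _ _ _ _ => rfl
  have hP2 : ∀ (a b a' b' : Option ι) (X : Matrix (Fin (size n a)) (Fin (size n b)) ℂ)
      (X' : Matrix (Fin (size n a')) (Fin (size n b')) ℂ) (u : U a b) (v : U a' b'),
      b' ≠ a → β (tens a b X u) (tens a' b' X' v) = 0 := by
    intro a b a' b' X X' u v h
    have h1 : tens a b X u = L (Pi.single a 1 : SP n) (tens a b X u) := by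
      rw [L_tens]; simp
    rw [h1, hL, R_tens, Pi.single_eq_of_ne h, Matrix.mul_zero, tens_zero, map_zero]
  have hP1 : ∀ (a b a' b' : Option ι) (X : Matrix (Fin (size n a)) (Fin (size n b)) ℂ)
      (X' : Matrix (Fin (size n a')) (Fin (size n b')) ℂ) (u : U a b) (v : U a' b'),
      a' ≠ b → β (tens a b X u) (tens a' b' X' v) = 0 := by
    intro a b a' b' X X' u v h
    have h1 : tens a b X u = R (Pi.single b 1 : SP n) (tens a b X u) := by
      rw [R_tens]; simp
    rw [h1, hR, L_tens, Pi.single_eq_of_ne h, Matrix.zero_mul, tens_zero, map_zero]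
  have hP3 : ∀ (a b : Option ι) (p : Fin (size n a)) (q : Fin (size n b))
      (X' : Matrix (Fin (size n b)) (Fin (size n a)) ℂ) (u : U a b) (v : U b a),
      β (tens a b (Matrix.single p q 1) u) (tens b a X' v) = X' q p * B a b u v := by
    intro a b p q X' u v
    have h1 : tens a b (Matrix.single p q 1) u =
        L (Pi.single a (Matrix.single p (z hn a) 1) : SP n)
          (R (Pi.single b (Matrix.single (z hn b) q 1) : SP n) (tens a b (E0 a b) u)) := by
      rw [R_tens, L_tens]
      simp [E0]
    have h2 : Matrix.single (z hn b) q (1 : ℂ) * (X' * Matrix.single p (z hn a) (1 : ℂ)) =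
        X' q p • E0 b a := by
      ext i j
      simp only [Matrix.smul_apply, E0, smul_eq_mul]
      rw [← Matrix.mul_assoc, Matrix.single_mul_mul_single]
      simp [Matrix.single_apply]
    rw [h1, hL, hR, R_tens, L_tens, Pi.single_eq_same, Pi.single_eq_same, h2, tens_smul, map_smul,
      hB, smul_eq_mul]
  refine ⟨B, ?_⟩
  apply LinearMap.ext
  intro x
  apply LinearMap.ext
  intro y
  rw [bet_apply]
  conv_lhs => rw [decomp x]
  simp only [map_sum, LinearMap.sum_apply]
  refine Finset.sum_congr rfl fun a _ => Finset.sum_congr rfl fun b _ =>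
    Finset.sum_congr rfl fun p _ => Finset.sum_congr rfl fun q _ => ?_
  conv_lhs => rw [decomp y]
  simp only [map_sum, LinearMap.sum_apply]
  rw [Finset.sum_eq_single b]
  · rw [Finset.sum_eq_single a]
    · rw [Finset.sum_eq_single q]
      · rw [Finset.sum_eq_single p]
        · rw [hP3]; simp
        · intro q' _ hq'
          rw [hP3]; simp [Matrix.single_apply_of_col_ne _ _ hq']
        · simp
      · intro p' _ hp'
        refine Finset.sum_eq_zero fun q' _ => ?_
        rw [hP3]; simp [Matrix.single_apply_of_row_ne hp']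
      · simp
    · intro b' _ hb'
      refine Finset.sum_eq_zero fun p' _ => Finset.sum_eq_zero fun q' _ => ?_
      exact hP2 _ _ _ _ _ _ _ _ hb'
    · simp
  · intro a' _ ha'
    refine Finset.sum_eq_zero fun b' _ => Finset.sum_eq_zero fun p' _ =>
      Finset.sum_eq_zero fun q' _ => ?_
    exact hP1 _ _ _ _ _ _ _ _ ha'
  · simp

end bal

end Pool.Agent.Helper29.AntiFrob
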