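import Pool.Agent.Helper29.AntiFrob.MatForm
import Pool.Agent.Helper29.AntiFrob.Final

set_option autoImplicit false

namespace Pool.Agent.Helper29.AntiFrob

open Matrix

section

variable {ι : Type} [Fintype ι] {m : Option ι → Option ι → ℕ}

/-- all sizes are one -/
abbrev n1 (ι : Type) : ι → ℕ := fun _ => 1

instance uniqueSize (a : Option ι) : Unique (Fin (size (n1 ι) a)) :=
  match a with
  | none => inferInstanceAs (Unique (Fin 1))
  | some _ => inferInstanceAs (Unique (Fin 1))

/-- extension by zero -/
def ez (s : ι → ℂ) : Option ι → ℂ
  | none => 0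
  | some i => s i

/-- arrows -/
abbrev Arr (m : Option ι → Option ι → ℕ) : Type := Σ a : Option ι, Σ b : Option ι, Fin (m a b)

/-- difference map -/
def dmap (ξ : Arr m → ℂ) : (ι → ℂ) →ₗ[ℂ] (Arr m → ℂ) where
  toFun s e := ξ e * (ez s e.1 - ez s e.2.1)
  map_add' s t := by
    funext e
    rcases e with ⟨a, b, t'⟩
    cases a <;> cases b <;> simp [ez] <;> ring
  map_smul' c s := by
    funext e
    rcases e with ⟨a, b, t'⟩
    cases a <;> cases b <;> simp [ez] <;> ring

/-- adjoint map -/
def dadj (ξ : Arr m → ℂ) : (Arr m → ℂ) →ₗ[ℂ] (ι → ℂ) where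
  toFun x i := ∑ b, ∑ t, x ⟨some i, b, t⟩ * ξ ⟨some i, b, t⟩ - ∑ a, ∑ t, x ⟨a, some i, t⟩ * ξ ⟨a, some i, t⟩
  map_add' s t := by
    funext i
    simp only [Pi.add_apply, add_mul, Finset.sum_add_distrib]
    ring
  map_smul' c s := by
    funext i
    simp only [Pi.smul_apply, smul_eq_mul, RingHom.id_apply, mul_sub, Finset.mul_sum, mul_assoc]

lemma dmap_apply (ξ : Arr m → ℂ) (s : ι → ℂ) (e : Arr m) :
    dmap ξ s e = ξ e * (ez s e.1 - ez s e.2.1) := rfl

lemma dadj_apply (ξ : Arr m → ℂ) (x : Arr m → ℂ) (i : ι) : dadj ξ x i =
    ∑ b, ∑ t, x ⟨some i, b, t⟩ * ξ ⟨some i, b, t⟩ -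
      ∑ a, ∑ t, x ⟨a, some i, t⟩ * ξ ⟨a, some i, t⟩ := rfl

lemma adjoint_eq (ξ : Arr m → ℂ) (s : ι → ℂ) (x : Arr m → ℂ) :
    ∑ i, s i * dadj ξ x i = ∑ e, x e * dmap ξ s e := by
  have h1 : ∀ f : Option ι → ℂ, ∑ i, s i * f (some i) = ∑ a, ez s a * f a := by
    intro f
    rw [Fintype.sum_option]
    simp [ez]
  rw [Fintype.sum_sigma]
  simp only [Fintype.sum_sigma]
  simp only [dadj_apply, dmap_apply, mul_sub, Finset.sum_sub_distrib]
  rw [h1 (fun a => ∑ b, ∑ t, x ⟨a, b, t⟩ * ξ ⟨a, b, t⟩),
    h1 (fun b => ∑ a, ∑ t, x ⟨a, b, t⟩ * ξ ⟨a, b, t⟩)]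
  congr 1
  · refine Finset.sum_congr rfl fun a _ => ?_
    rw [Finset.mul_sum]
    refine Finset.sum_congr rfl fun b _ => ?_
    rw [Finset.mul_sum]
    refine Finset.sum_congr rfl fun t _ => ?_
    ring
  · rw [Finset.sum_comm]
    refine Finset.sum_congr rfl fun a _ => ?_
    rw [Finset.mul_sum]
    refine Finset.sum_congr rfl fun b _ => ?_
    rw [Finset.mul_sum]
    refine Finset.sum_congr rfl fun t _ => ?_
    ring

lemma mat_ext {a b : Option ι} {M N : Matrix (Fin (size (n1 ι) a)) (Fin (size (n1 ι) b)) ℂ}
    (h : M default default = N default default) : M = N := by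
  ext p q
  rw [Unique.eq_default p, Unique.eq_default q, h]

lemma comm_iff (Lam : SemisimpleAlg (n1 ι))
    (Xi : ∀ a b : Option ι, Fin (m a b) →
      Matrix (Fin (size (n1 ι) b)) (Fin (size (n1 ι) a)) ℂ) :
    MatKer Lam Xi ↔
      Function.Injective (dmap (m := m) (fun e => Xi e.1 e.2.1 e.2.2 default default)) ∧
      Function.Injective (dadj (m := m) (fun e => Xi e.1 e.2.1 e.2.2 default default)) := by
  have hblk : ∀ (s : SemisimpleAlg (n1 ι)) (a : Option ι),
      blk s a default default = ez (fun i => s i default default) a := by
    intro s a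
    cases a <;> rfl
  constructor
  · intro h
    constructor
    · rw [← LinearMap.ker_eq_bot, Submodule.eq_bot_iff]
      intro s hs
      have hs' : ∀ e, dmap (m := m) (fun e => Xi e.1 e.2.1 e.2.2 default default) s e = 0 :=
        fun e => congrFun hs e
      obtain ⟨e1, -⟩ := h (fun i => Matrix.of fun _ _ => s i) 0
        (by
          intro a b t
          apply mat_ext
          have := hs' ⟨a, b, t⟩
          rw [dmap_apply] at this
          rw [Matrix.mul_apply, Matrix.mul_apply, Fintype.sum_unique, Fintype.sum_unique,
            hblk, hblk]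
          simp only [Matrix.of_apply]
          linear_combination this)
        (by
          intro i
          apply mat_ext
          simp [Matrix.mul_apply]
          ring)
      funext i
      have := congrFun (congrFun (congrFun e1 i) default) default
      simpa using this
    · rw [← LinearMap.ker_eq_bot, Submodule.eq_bot_iff]
      intro x hx
      have hx' : ∀ i, dadj (m := m) (fun e => Xi e.1 e.2.1 e.2.2 default default) x i = 0 :=
        fun i => congrFun hx i
      obtain ⟨-, e2⟩ := h 0 (fun a b t => Matrix.of fun _ _ => x ⟨a, b, t⟩)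
        (by
          intro a b t
          simp)
        (by
          intro i
          apply mat_ext
          have := hx' i
          rw [dadj_apply] at this
          simp only [blk_zero, Matrix.mul_zero, Matrix.zero_mul, sub_self, Matrix.zero_apply,
            Matrix.sub_apply, Matrix.sum_apply, Matrix.mul_apply, Fintype.sum_unique,
            Matrix.of_apply]
          rw [← this]
          congr 1
          refine Finset.sum_congr rfl fun a _ => Finset.sum_congr rfl fun t _ => ?_
          ring)
      funext ⟨a, b, t⟩
      have := congrFun (congrFun (congrFun (congrFun (congrFun e2 a) b) t) default) default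
      simpa using this
  · rintro ⟨h1, h2⟩ s x e1 e2
    rw [← LinearMap.ker_eq_bot, Submodule.eq_bot_iff] at h1 h2
    constructor
    · have := h1 (fun i => s i default default) (by
        rw [LinearMap.mem_ker]
        funext ⟨a, b, t⟩
        rw [dmap_apply, ← hblk, ← hblk]
        have := congrFun (congrFun (e1 a b t) default) default
        rw [Matrix.mul_apply, Matrix.mul_apply, Fintype.sum_unique, Fintype.sum_unique] at this
        simp only [Pi.zero_apply]
        linear_combination this)
      funext i
      ext p q
      have hp : p = 0 := Subsingleton.elim _ _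
      have hq : q = 0 := Subsingleton.elim _ _
      subst hp hq
      exact congrFun this i
    · have := h2 (fun e => x e.1 e.2.1 e.2.2 default default) (by
        rw [LinearMap.mem_ker]
        funext i
        rw [dadj_apply]
        have := congrFun (congrFun (e2 i) default) default
        simp only [Matrix.sub_apply, Matrix.sum_apply, Matrix.mul_apply,
          Fintype.sum_unique] at this
        simp only [Pi.zero_apply]
        have h3 : ∀ a : Option ι, ∑ t, x a (some i) t default default * Xi a (some i) t default default
            = ∑ t, Xi a (some i) t default default * x a (some i) t default default := by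
          intro a
          refine Finset.sum_congr rfl fun t _ => ?_
          ring
        simp only [h3]
        rw [← this]
        ring)
      funext a b t
      apply mat_ext
      exact congrFun this ⟨a, b, t⟩

lemma diffGraph_adj (a b : Option ι) : (diffGraph m).Adj a b ↔ m a b ≠ m b a := Iff.rfl

open Classical in
lemma two_mul_edges : 2 * Nat.card (diffGraph m).edgeSet =
    ∑ a, ∑ b, if (diffGraph m).Adj a b then 1 else 0 := by
  rw [Nat.card_eq_fintype_card, ← SimpleGraph.edgeFinset_card,
    ← SimpleGraph.sum_degrees_eq_twice_card_edges]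
  refine Finset.sum_congr rfl fun a _ => ?_
  rw [← SimpleGraph.card_neighborFinset_eq_degree, SimpleGraph.neighborFinset_eq_filter,
    Finset.card_filter]

lemma two_mul_arr (r : Option ι → Option ι → ℕ) : 2 * Fintype.card (Arr r) =
    ∑ a, ∑ b, (r a b + r b a) := by
  have h1 : Fintype.card (Arr r) = ∑ a, ∑ b, r a b := by
    simp only [Fintype.card_sigma, Fintype.card_fin]
  have h2 : ∑ a, ∑ b, (r a b + r b a) = ∑ a, ∑ b, r a b + ∑ a, ∑ b, r b a := by
    simp only [Finset.sum_add_distrib]
  rw [h2, h1, Finset.sum_comm (f := fun a b => r b a)]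
  ring

lemma reach_const {f : Option ι → ℂ} (h : ∀ a b, (diffGraph m).Adj a b → f a = f b)
    {a b : Option ι} (hr : (diffGraph m).Reachable a b) : f a = f b := by
  obtain ⟨w⟩ := hr
  induction w with
  | nil => rfl
  | cons hadj _ ih => exact (h _ _ hadj).trans ih

theorem comm_classification : IsAntiFrobenius (SqZero (n1 ι) m) ↔
    (∀ a, Even (m a a)) ∧ (∀ a b, m a b ≤ m b a + 1) ∧ (diffGraph m).IsTree := by
  classical
  rw [reduction (fun _ => Nat.one_pos), matForm_iff]
  refine and_congr_right fun _ => ?_
  let r : Option ι → Option ι → ℕ := fun a b => m a b - m b a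
  have hadj1 : ∀ a b, (if (diffGraph m).Adj a b then 1 else 0) ≤ r a b + r b a := by
    intro a b
    split_ifs with h
    · rw [diffGraph_adj] at h
      simp only [r]
      omega
    · exact Nat.zero_le _
  have hcardO : Nat.card (Option ι) = Fintype.card ι + 1 := by
    rw [Nat.card_eq_fintype_card, Fintype.card_option]
  constructor
  · rintro ⟨Lam, Xi, hk⟩
    rw [comm_iff] at hk
    obtain ⟨hd, ha⟩ := hk
    -- connectedness
    have hreach : ∀ a, (diffGraph m).Reachable none a := by
      rw [← LinearMap.ker_eq_bot, Submodule.eq_bot_iff] at hd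
      let s : ι → ℂ := fun i => if (diffGraph m).Reachable none (some i) then 0 else 1
      have hs : ∀ a, ez s a = if (diffGraph m).Reachable none a then 0 else 1 := by
        intro a
        cases a with
        | none => simp [ez]
        | some i => rfl
      have hs0 := hd s (by
        rw [LinearMap.mem_ker]
        funext ⟨a, b, t⟩
        rw [dmap_apply]
        have hab : (diffGraph m).Adj a b := by
          rw [diffGraph_adj]
          have h1 : (t : ℕ) < m a b - m b a := t.2
          omega
        have : (diffGraph m).Reachable none a ↔ (diffGraph m).Reachable none b :=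
          ⟨fun h => h.trans hab.reachable, fun h => h.trans hab.symm.reachable⟩
        simp only [hs, this, sub_self, mul_zero, Pi.zero_apply])
      intro a
      cases a with
      | none => exact SimpleGraph.Reachable.refl _
      | some i =>
        by_contra hn
        have := congrFun hs0 i
        simp only [s, hn, if_false, Pi.zero_apply] at this
        exact one_ne_zero this
    have hconn : (diffGraph m).Connected := by
      refine ⟨fun a b => (hreach a).symm.trans (hreach b)⟩
    have hle : Fintype.card (Arr r) ≤ Fintype.card ι := by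
      have := LinearMap.finrank_le_finrank_of_injective ha
      rwa [Module.finrank_fintype_fun_eq_card, Module.finrank_fintype_fun_eq_card] at this
    have hge := hconn.card_vert_le_card_edgeSet_add_one
    rw [hcardO] at hge
    have h2e := two_mul_edges (m := m)
    have h2a := two_mul_arr r
    have hsum : ∑ a, ∑ b, (if (diffGraph m).Adj a b then 1 else 0) ≤
        ∑ a, ∑ b, (r a b + r b a) :=
      Finset.sum_le_sum fun a _ => Finset.sum_le_sum fun b _ => hadj1 a b
    have heq : ∑ a, ∑ b, (if (diffGraph m).Adj a b then 1 else 0) =
        ∑ a, ∑ b, (r a b + r b a) := by omega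
    have heq1 : ∀ a, ∑ b, (if (diffGraph m).Adj a b then 1 else 0) = ∑ b, (r a b + r b a) := by
      intro a
      have := (Finset.sum_eq_sum_iff_of_le (fun a _ => Finset.sum_le_sum fun b _ => hadj1 a b)).1
        heq a (Finset.mem_univ a)
      exact this
    have heq2 : ∀ a b, (if (diffGraph m).Adj a b then 1 else 0) = r a b + r b a := by
      intro a b
      exact (Finset.sum_eq_sum_iff_of_le (fun b _ => hadj1 a b)).1 (heq1 a) b (Finset.mem_univ b)
    refine ⟨?_, ?_⟩
    · intro a b
      have := heq2 a b
      simp only [r] at this
      split_ifs at this <;> omega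
    · rw [SimpleGraph.isTree_iff_connected_and_card]
      refine ⟨hconn, ?_⟩
      rw [hcardO]
      omega
  · rintro ⟨hle, htree⟩
    have hconn := htree.connected
    have hcard := (SimpleGraph.isTree_iff_connected_and_card.1 htree).2
    rw [hcardO] at hcard
    have heq : ∑ a, ∑ b, (if (diffGraph m).Adj a b then 1 else 0) =
        ∑ a, ∑ b, (r a b + r b a) := by
      refine Finset.sum_congr rfl fun a _ => Finset.sum_congr rfl fun b _ => ?_
      have h1 := hle a b
      have h2 := hle b a
      split_ifs with h
      · rw [diffGraph_adj] at h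
        simp only [r]
        omega
      · rw [diffGraph_adj, not_not] at h
        simp only [r]
        omega
    have h2e := two_mul_edges (m := m)
    have h2a := two_mul_arr r
    have hcA : Fintype.card (Arr r) = Fintype.card ι := by omega
    refine ⟨0, fun _ _ _ => Matrix.of fun _ _ => 1, ?_⟩
    rw [comm_iff]
    have hinj : Function.Injective (dmap (m := r) (fun _ => 1)) := by
      rw [← LinearMap.ker_eq_bot, Submodule.eq_bot_iff]
      intro s hs
      have hs' : ∀ e, dmap (m := r) (fun _ => 1) s e = 0 := fun e => congrFun hs e
      have hconst : ∀ a b, (diffGraph m).Adj a b → ez s a = ez s b := by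
        intro a b hab
        rw [diffGraph_adj] at hab
        rcases lt_or_gt_of_ne hab with h | h
        · have := hs' ⟨b, a, ⟨0, by simp only [r]; omega⟩⟩
          rw [dmap_apply] at this
          simp only [one_mul] at this
          exact (sub_eq_zero.1 this).symm
        · have := hs' ⟨a, b, ⟨0, by simp only [r]; omega⟩⟩
          rw [dmap_apply] at this
          simp only [one_mul] at this
          exact sub_eq_zero.1 this
      funext i
      have := reach_const hconst (hconn.preconnected (some i) none)
      exact this
    refine ⟨hinj, ?_⟩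
    have hsurj : Function.Surjective (dmap (m := r) (fun _ => 1)) := by
      refine (LinearMap.injective_iff_surjective_of_finrank_eq_finrank ?_).1 hinj
      rw [Module.finrank_fintype_fun_eq_card, Module.finrank_fintype_fun_eq_card, hcA]
    change Function.Injective (dadj (m := r) (fun _ => 1))
    rw [← LinearMap.ker_eq_bot, Submodule.eq_bot_iff]
    intro x hx
    have hx' : ∀ i, dadj (m := r) (fun _ => 1) x i = 0 := fun i => congrFun hx i
    funext e0
    obtain ⟨s, hs⟩ := hsurj (Pi.single e0 1)
    have := adjoint_eq (m := r) (fun _ => 1) s x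
    rw [hs] at this
    simp only [hx', mul_zero, Finset.sum_const_zero] at this
    rw [Finset.sum_eq_single e0] at this
    · simpa using this.symm
    · intro e _ he
      rw [Pi.single_eq_of_ne he, mul_zero]
    · simp

end

end Pool.Agent.Helper29.AntiFrob
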