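import Mathlib

set_option autoImplicit false

namespace Pool.Agent.Helper29.AntiFrob

open Matrix

/-- Sizes of the simple unital modules: the extra index `none` stands for the one-dimensional
module on which the whole semisimple algebra acts by zero. -/
def size {ι : Type} (n : ι → ℕ) : Option ι → ℕ
  | none => 1
  | some i => n i

/-- The semisimple algebra with simple factors the `n i` by `n i` complex matrices. -/
abbrev SemisimpleAlg {ι : Type} (n : ι → ℕ) : Type := ∀ i : ι, Matrix (Fin (n i)) (Fin (n i)) ℂ

/-- The matrix by which `s` acts on the simple module of index `a` (zero for `none`). -/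
def blk {ι : Type} {n : ι → ℕ} (s : SemisimpleAlg n) :
    ∀ a : Option ι, Matrix (Fin (size n a)) (Fin (size n a)) ℂ
  | none => 0
  | some i => s i

/-- The bimodule in which the simple bimodule of `size n a` by `size n b` matrices (left action
through the factor `a`, right action through the factor `b`) occurs `m a b` times. -/
abbrev Bimod {ι : Type} (n : ι → ℕ) (m : Option ι → Option ι → ℕ) : Type :=
  ∀ a b : Option ι, Fin (m a b) → Matrix (Fin (size n a)) (Fin (size n b)) ℂ

/-- The vector space `S ⊕ M`. -/
def SqZero {ι : Type} (n : ι → ℕ) (m : Option ι → Option ι → ℕ) : Type :=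
  SemisimpleAlg n × Bimod n m

namespace SqZero

variable {ι : Type} {n : ι → ℕ} {m : Option ι → Option ι → ℕ}

instance : AddCommGroup (SqZero n m) :=
  inferInstanceAs (AddCommGroup (SemisimpleAlg n × Bimod n m))

instance : Module ℂ (SqZero n m) :=
  inferInstanceAs (Module ℂ (SemisimpleAlg n × Bimod n m))

/-- The product `(s, x) (s', x') = (s s', s x' + x s')`. -/
instance : Mul (SqZero n m) where
  mul u v := (u.1 * v.1, fun a b t => blk u.1 a * v.2 a b t + u.2 a b t * blk v.1 b)

end SqZero

/-- A (not necessarily unital) complex algebra is anti-Frobenius when it has a nondegenerate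
antisymmetric bilinear form with the cyclic identity. -/
def IsAntiFrobenius (A : Type) [AddCommGroup A] [Module ℂ A] [Mul A] : Prop :=
  ∃ ω : A →ₗ[ℂ] A →ₗ[ℂ] ℂ,
    (∀ x, (∀ y, ω x y = 0) → x = 0) ∧
    (∀ x y, ω x y = - ω y x) ∧
    (∀ x y z, ω x (y * z) + ω y (z * x) + ω z (x * y) = 0)

/-- Some linear functional `l` makes the form `(x, y) ↦ l (x y - y x)` nondegenerate. -/
def HasFrobeniusFunctional (A : Type) [AddCommGroup A] [Module ℂ A] [Mul A] : Prop :=
  ∃ l : A →ₗ[ℂ] ℂ, ∀ x, (∀ y, l (x * y - y * x) = 0) → x = 0

/-- The simple graph on the indices in which `a` and `b` are adjacent when the multiplicities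
`m a b` and `m b a` differ. -/
def diffGraph {ι : Type} (m : Option ι → Option ι → ℕ) : SimpleGraph (Option ι) where
  Adj a b := m a b ≠ m b a
  symm := ⟨fun _ _ h => Ne.symm h⟩
  loopless := ⟨fun _ h => h rfl⟩

/-- The multiplicities obtained from `m` by exchanging `m (some i) b` and `m b (some i)` for all
`b`. -/
def swapAt {ι : Type} [DecidableEq ι] (i : ι) (m : Option ι → Option ι → ℕ) :
    Option ι → Option ι → ℕ := fun a b =>
  if a = some i ∨ b = some i then m b a else m a b

end Pool.Agent.Helper29.AntiFrob
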