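import Pool.Agent.Helper29.AntiFrob.Coh

set_option autoImplicit false

namespace Pool.Agent.Helper29.AntiFrob

open Matrix

section

variable {ι : Type} [DecidableEq ι] [Fintype ι] {n : ι → ℕ} {U : Option ι → Option ι → Type}
  [∀ a b, AddCommGroup (U a b)] [∀ a b, Module ℂ (U a b)]

lemma bet_tens (B : ∀ a b, U a b →ₗ[ℂ] U b a →ₗ[ℂ] ℂ) (a b : Option ι)
    (p : Fin (size n a)) (q : Fin (size n b)) (u : U a b) (y : MU n U) :
    bet B (tens a b (Matrix.single p q 1) u) y = B a b u (y b a q p) := by
  rw [bet_apply, Finset.sum_eq_single a]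
  · rw [Finset.sum_eq_single b]
    · rw [Finset.sum_eq_single p]
      · rw [Finset.sum_eq_single q]
        · simp [tens_same]
        · intro q' _ hq'
          simp [tens_same, Matrix.single_apply_of_col_ne _ _ (Ne.symm hq')]
        · simp
      · intro p' _ hp'
        refine Finset.sum_eq_zero fun q' _ => ?_
        simp [tens_same, Matrix.single_apply_of_row_ne (Ne.symm hp')]
      · simp
    · intro b' _ hb'
      refine Finset.sum_eq_zero fun p' _ => Finset.sum_eq_zero fun q' _ => ?_
      rw [tens_ne_right hb']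
      simp
    · simp
  · intro a' _ ha'
    refine Finset.sum_eq_zero fun b' _ => Finset.sum_eq_zero fun p' _ =>
      Finset.sum_eq_zero fun q' _ => ?_
    rw [tens_ne_left ha']
    simp
  · simp

lemma anti_of_bet (hn : ∀ i, 0 < n i) (B : ∀ a b, U a b →ₗ[ℂ] U b a →ₗ[ℂ] ℂ)
    (h : ∀ x y : MU n U, bet B x y = - bet B y x) (a b : Option ι) (u : U a b) (v : U b a) :
    B a b u v = - B b a v u := by
  have h1 := h (tens a b (Matrix.single (z hn a) (z hn b) 1) u)
    (tens b a (Matrix.single (z hn b) (z hn a) 1) v)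
  rw [bet_tens, bet_tens] at h1
  simpa [tens_same] using h1

end

section

variable {ι : Type} {n : ι → ℕ} {m : Option ι → Option ι → ℕ}

/-- reordering of the indices -/
def toMU : Bimod n m ≃ₗ[ℂ] MU n (fun a b => Fin (m a b) → ℂ) where
  toFun x a b p q t := x a b t p q
  invFun y a b t := fun p q => y a b p q t
  left_inv _ := rfl
  right_inv _ := rfl
  map_add' _ _ := rfl
  map_smul' _ _ := rfl

lemma toMU_mul (u v : SqZero n m) :
    toMU (u * v).2 = L (bl u.1) (toMU v.2) + R (bl v.1) (toMU u.2) := by
  funext a b p q t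
  change (blk u.1 a * v.2 a b t + u.2 a b t * blk v.1 b) p q = _
  rw [Pi.add_apply, Pi.add_apply, Pi.add_apply, Pi.add_apply, Pi.add_apply, L_apply, R_apply,
    Finset.sum_apply, Finset.sum_apply, Matrix.add_apply, Matrix.mul_apply, Matrix.mul_apply]
  congr 1
  refine Finset.sum_congr rfl fun q' _ => ?_
  rw [mul_comm]
  rfl

/-- inclusion of the semisimple part -/
def inc : SemisimpleAlg n →ₗ[ℂ] SqZero n m := LinearMap.inl ℂ (SemisimpleAlg n) (Bimod n m)

/-- inclusion of the bimodule part -/
def incM : Bimod n m →ₗ[ℂ] SqZero n m := LinearMap.inr ℂ (SemisimpleAlg n) (Bimod n m)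

/-- projection -/
def prS : SqZero n m →ₗ[ℂ] SemisimpleAlg n := LinearMap.fst ℂ (SemisimpleAlg n) (Bimod n m)

/-- projection -/
def prM : SqZero n m →ₗ[ℂ] Bimod n m := LinearMap.snd ℂ (SemisimpleAlg n) (Bimod n m)

lemma inc_fst (s : SemisimpleAlg n) : (inc s : SqZero n m).1 = s := rfl
lemma inc_snd (s : SemisimpleAlg n) : (inc s : SqZero n m).2 = 0 := rfl
lemma incM_fst (x : Bimod n m) : (incM x : SqZero n m).1 = 0 := rfl
lemma incM_snd (x : Bimod n m) : (incM x : SqZero n m).2 = x := rfl

lemma ext_toMU {u v : SqZero n m} (h1 : u.1 = v.1) (h2 : toMU u.2 = toMU v.2) : u = v :=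
  Prod.ext h1 (toMU.injective h2)

lemma eq_inc_add (u : SqZero n m) : u = inc u.1 + incM u.2 := by
  apply ext_toMU
  · rw [SqZero.add_fst, inc_fst, incM_fst, add_zero]
  · rw [SqZero.add_snd, inc_snd, incM_snd, zero_add]

lemma inc_mul (s t : SemisimpleAlg n) : (inc (s * t) : SqZero n m) = inc s * inc t := by
  apply ext_toMU
  · rfl
  · rw [toMU_mul, inc_snd, inc_snd, inc_snd, map_zero, map_zero, map_zero, add_zero]

lemma inc_mul_incM (s : SemisimpleAlg n) (x : Bimod n m) :
    (inc s * incM x : SqZero n m) = incM (toMU.symm (L (bl s) (toMU x))) := by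
  apply ext_toMU
  · rw [SqZero.mul_fst, incM_fst, incM_fst, mul_zero]
  · rw [toMU_mul, inc_fst, inc_snd, incM_fst, incM_snd, incM_snd, map_zero, map_zero,
      LinearEquiv.apply_symm_apply, LinearMap.zero_apply, add_zero]

lemma incM_mul_inc (s : SemisimpleAlg n) (x : Bimod n m) :
    (incM x * inc s : SqZero n m) = incM (toMU.symm (R (bl s) (toMU x))) := by
  apply ext_toMU
  · rw [SqZero.mul_fst, incM_fst, incM_fst, zero_mul]
  · rw [toMU_mul, inc_fst, inc_snd, incM_fst, incM_snd, incM_snd, map_zero, map_zero,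
      LinearEquiv.apply_symm_apply, LinearMap.zero_apply, zero_add]

lemma incM_mul_incM (x y : Bimod n m) : (incM x * incM y : SqZero n m) = 0 := by
  apply ext_toMU
  · rw [SqZero.mul_fst, incM_fst, incM_fst, zero_mul, SqZero.zero_fst]
  · rw [toMU_mul, incM_fst, incM_fst, SqZero.zero_snd, map_zero, map_zero, map_zero,
      LinearMap.zero_apply, LinearMap.zero_apply, add_zero, map_zero]

/-- functional on the algebra given by its two components -/
def lfun (lam : SemisimpleAlg n →ₗ[ℂ] ℂ) (xi : MU n (fun a b => Fin (m a b) → ℂ) →ₗ[ℂ] ℂ) :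
    SqZero n m →ₗ[ℂ] ℂ := lam.comp prS + (xi.comp toMU.toLinearMap).comp prM

lemma lfun_apply (lam : SemisimpleAlg n →ₗ[ℂ] ℂ)
    (xi : MU n (fun a b => Fin (m a b) → ℂ) →ₗ[ℂ] ℂ) (u : SqZero n m) :
    lfun lam xi u = lam u.1 + xi (toMU u.2) := rfl

lemma lfun_comm (lam : SemisimpleAlg n →ₗ[ℂ] ℂ)
    (xi : MU n (fun a b => Fin (m a b) → ℂ) →ₗ[ℂ] ℂ) (u v : SqZero n m) :
    lfun lam xi (u * v - v * u) = lam (u.1 * v.1 - v.1 * u.1) +
      xi (br (bl u.1) (toMU v.2)) - xi (br (bl v.1) (toMU u.2)) := by
  rw [map_sub, lfun_apply, lfun_apply, toMU_mul, toMU_mul, SqZero.mul_fst, SqZero.mul_fst,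
    br_apply, br_apply]
  simp only [map_add, map_sub]
  ring

variable [DecidableEq ι] [Fintype ι]

/-- matrix units -/
def E (i : ι) (p q : Fin (n i)) : SemisimpleAlg n := Pi.single i (Matrix.single p q 1)

lemma mul_E (s : SemisimpleAlg n) (i : ι) (p q : Fin (n i)) :
    s * E i p q = ∑ r, s i r p • E i r q := by
  funext j
  rw [Pi.mul_apply, Finset.sum_apply]
  rcases eq_or_ne j i with rfl | h
  · ext x y
    simp only [E, Pi.single_eq_same, Pi.smul_apply, Matrix.sum_apply, Matrix.smul_apply,
      smul_eq_mul, Matrix.mul_apply, Matrix.single_apply]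
    rcases eq_or_ne q y with rfl | hq
    · simp
    · simp [hq]
  · simp [E, Pi.single_eq_of_ne h]

lemma E_mul (s : SemisimpleAlg n) (i : ι) (p q : Fin (n i)) :
    E i p q * s = ∑ r, s i q r • E i p r := by
  funext j
  rw [Pi.mul_apply, Finset.sum_apply]
  rcases eq_or_ne j i with rfl | h
  · ext x y
    simp only [E, Pi.single_eq_same, Pi.smul_apply, Matrix.sum_apply, Matrix.smul_apply,
      smul_eq_mul, Matrix.mul_apply, Matrix.single_apply]
    rcases eq_or_ne p x with rfl | hq
    · simp
    · simp [hq]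
  · simp [E, Pi.single_eq_of_ne h]

lemma E_mul_E (i : ι) (p q r : Fin (n i)) : (E i p q * E i q r : SemisimpleAlg n) = E i p r := by
  simp only [E, ← Pi.single_mul, Matrix.single_mul_single_same, mul_one]

lemma sum_E : (∑ t : (Σ i, Fin (n i)), E t.1 t.2 t.2 : SemisimpleAlg n) = 1 := by
  rw [Fintype.sum_sigma]
  funext j
  rw [Finset.sum_apply, Finset.sum_eq_single j]
  · simp only [E, Finset.sum_apply, Pi.single_eq_same, Pi.one_apply]
    ext x y
    rw [Matrix.sum_apply]
    simp only [Matrix.single_apply, Matrix.one_apply]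
    rcases eq_or_ne x y with rfl | h
    · simp
    · rw [Finset.sum_eq_zero, if_neg h]
      intro c _
      rw [if_neg]
      rintro ⟨rfl, h2⟩
      exact h h2
  · intro i _ hi
    rw [Finset.sum_apply]
    refine Finset.sum_eq_zero fun p _ => ?_
    simp [E, Pi.single_eq_of_ne (Ne.symm hi)]
  · simp

/-- The anti-Frobenius property in terms of the internal data. -/
theorem antiFrobenius_iff (hn : ∀ i, 0 < n i) :
    IsAntiFrobenius (SqZero n m) ↔
      ∃ B : ∀ a b, (Fin (m a b) → ℂ) →ₗ[ℂ] (Fin (m b a) → ℂ) →ₗ[ℂ] ℂ,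
        (∀ a b u v, B a b u v = - B b a v u) ∧ Good n (fun a b => Fin (m a b) → ℂ) B := by
  constructor
  · rintro ⟨ω, hnd, hanti, hcyc⟩
    obtain ⟨l, hl⟩ := cobound ω hanti hcyc (T := Σ i, Fin (n i))
      (fun t => inc (E t.1 t.2 ⟨0, hn t.1⟩)) (fun t => inc (E t.1 ⟨0, hn t.1⟩ t.2))
      (inc 1) (Set.range inc) ⟨1, rfl⟩
      (by
        rw [← sum_E, map_sum]
        refine Finset.sum_congr rfl fun t _ => ?_
        rw [← inc_mul, E_mul_E])
      (by
        rintro _ ⟨s, rfl⟩
        rw [← inc_mul, one_mul])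
      (by
        rintro _ ⟨s, rfl⟩
        rw [← inc_mul, mul_one])
      (by
        rintro _ ⟨s, rfl⟩ f
        rw [Fintype.sum_sigma, Fintype.sum_sigma]
        refine Finset.sum_congr rfl fun i _ => ?_
        simp only [← inc_mul, mul_E, E_mul, map_sum, map_smul, LinearMap.sum_apply,
          LinearMap.smul_apply]
        rw [Finset.sum_comm])
    let β : MU n (fun a b => Fin (m a b) → ℂ) →ₗ[ℂ] MU n (fun a b => Fin (m a b) → ℂ) →ₗ[ℂ] ℂ :=
      (ω.compl₁₂ (incM.comp toMU.symm.toLinearMap) (incM.comp toMU.symm.toLinearMap))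
    have hβ : ∀ x y, β x y = ω (incM (toMU.symm x)) (incM (toMU.symm y)) := fun _ _ => rfl
    have hβ' : ∀ x y, ω (incM x) (incM y) = β (toMU x) (toMU y) := by
      intro x y
      rw [hβ, LinearEquiv.symm_apply_apply, LinearEquiv.symm_apply_apply]
    have hβanti : ∀ x y, β x y = - β y x := by
      intro x y
      rw [hβ, hβ, hanti]
    have hLs : ∀ (s : SemisimpleAlg n) x y, β (L (bl s) x) y = β x (R (bl s) y) := by
      intro s x y
      have h := hcyc (inc s) (incM (toMU.symm x)) (incM (toMU.symm y))
      rw [incM_mul_incM, map_zero, zero_add, incM_mul_inc, inc_mul_incM, hβ', hβ',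
        LinearEquiv.apply_symm_apply, LinearEquiv.apply_symm_apply, LinearEquiv.apply_symm_apply,
        LinearEquiv.apply_symm_apply, hβanti y] at h
      linear_combination (-1 : ℂ) * h
    have hRs : ∀ (s : SemisimpleAlg n) x y, β (R (bl s) x) y = β x (L (bl s) y) := by
      intro s x y
      rw [hβanti, ← hLs, ← hβanti]
    have hdec : ∀ σ : SP n, σ = bl (n := n) (fun i => σ (some i)) +
        (σ none (z hn none) (z hn none)) • ((1 : SP n) - bl (1 : SemisimpleAlg n)) := by
      intro σ
      funext a
      cases a with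
      | none =>
        ext i j
        have hi : i = z hn none := Subsingleton.elim (α := Fin 1) _ _
        have hj : j = z hn none := Subsingleton.elim (α := Fin 1) _ _
        subst hi hj
        simp [bl_apply, blk]
      | some i =>
        have e1 : bl (n := n) (fun i => σ (some i)) (some i) = σ (some i) := rfl
        have e2 : bl (1 : SemisimpleAlg n) (some i) = 1 := rfl
        rw [Pi.add_apply, Pi.smul_apply, Pi.sub_apply, e1, e2, Pi.one_apply, sub_self, smul_zero,
          add_zero]
    have hL1 : ∀ x : MU n (fun a b => Fin (m a b) → ℂ), L 1 x = x := by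
      intro x
      funext a b p q
      rw [L_apply]
      simp [Matrix.one_apply]
    have hR1 : ∀ x : MU n (fun a b => Fin (m a b) → ℂ), R 1 x = x := by
      intro x
      funext a b p q
      rw [R_apply]
      simp [Matrix.one_apply]
    have key : ∀ (s : SemisimpleAlg n) (c : ℂ) x y,
        β (L (bl s + c • ((1 : SP n) - bl (1 : SemisimpleAlg n))) x) y =
          β x (R (bl s + c • ((1 : SP n) - bl (1 : SemisimpleAlg n))) y) := by
      intro s c x y
      simp only [map_add, map_smul, map_sub, LinearMap.add_apply, LinearMap.smul_apply,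
        LinearMap.sub_apply, hL1, hR1, hLs]
    have hLσ : ∀ (σ : SP n) x y, β (L σ x) y = β x (R σ y) := by
      intro σ x y
      rw [hdec σ]
      exact key _ _ _ _
    have hRσ : ∀ (σ : SP n) x y, β (R σ x) y = β x (L σ y) := by
      intro σ x y
      rw [hβanti, ← hLσ, ← hβanti]
    obtain ⟨B, hB⟩ := balanced_eq_bet hn β hLσ hRσ
    refine ⟨B, anti_of_bet hn B (fun x y => by rw [← hB]; exact hβanti x y), ?_⟩
    refine ⟨l.comp inc, (l.comp incM).comp toMU.symm.toLinearMap, ?_⟩
    intro s x h1 h2
    have hker := hnd (inc s + incM (toMU.symm x)) ?_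
    · have e1 := congrArg (fun u : SqZero n m => u.1) hker
      have e2 := congrArg (fun u : SqZero n m => toMU u.2) hker
      simp only [SqZero.add_fst, SqZero.add_snd, inc_fst, inc_snd, incM_fst, incM_snd, add_zero,
        zero_add, LinearEquiv.apply_symm_apply, SqZero.zero_fst, SqZero.zero_snd, map_zero] at e1 e2
      exact ⟨e1, e2⟩
    · intro v
      rw [eq_inc_add v]
      have h1' := h1 v.1
      have h2' := h2 (toMU v.2)
      rw [← hB] at h2'
      simp only [map_add, LinearMap.add_apply]
      rw [hl (inc s) ⟨s, rfl⟩, hl (inc s) ⟨s, rfl⟩, hanti (incM _) (inc _),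
        hl (inc v.1) ⟨v.1, rfl⟩, hβ', LinearEquiv.apply_symm_apply, ← inc_mul, ← inc_mul,
        ← map_sub, inc_mul_incM, incM_mul_inc, inc_mul_incM, incM_mul_inc,
        LinearEquiv.apply_symm_apply, ← map_sub incM, ← map_sub incM, ← map_sub toMU.symm,
        ← map_sub toMU.symm, ← br_apply, ← br_apply]
      simp only [LinearMap.comp_apply, LinearEquiv.coe_coe] at h1' h2'
      linear_combination h1' + h2'
  · rintro ⟨B, hBanti, lam, xi, hgood⟩
    have hbanti := bet_anti (n := n) B hBanti
    let l : SqZero n m →ₗ[ℂ] ℂ := lfun lam xi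
    have hlapp : ∀ u : SqZero n m, l u = lam u.1 + xi (toMU u.2) := fun _ => rfl
    let ω : SqZero n m →ₗ[ℂ] SqZero n m →ₗ[ℂ] ℂ :=
      LinearMap.mk₂ ℂ (fun u v => l (u * v - v * u) + bet B (toMU u.2) (toMU v.2))
        (by
          intro u u' v
          simp only [SqZero.add_snd, map_add, LinearMap.add_apply, add_mul, mul_add, map_sub]
          ring)
        (by
          intro c u v
          simp only [SqZero.smul_snd, map_smul, LinearMap.smul_apply, smul_mul_assoc,
            mul_smul_comm, map_sub, smul_eq_mul]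
          ring)
        (by
          intro u v v'
          simp only [SqZero.add_snd, map_add, LinearMap.add_apply, add_mul, mul_add, map_sub]
          ring)
        (by
          intro c u v
          simp only [SqZero.smul_snd, map_smul, smul_mul_assoc,
            mul_smul_comm, map_sub, smul_eq_mul]
          ring)
    have hω : ∀ u v, ω u v = l (u * v - v * u) + bet B (toMU u.2) (toMU v.2) := fun _ _ => rfl
    refine ⟨ω, ?_, ?_, ?_⟩
    · intro u hu
      have hfin := hgood u.1 (toMU u.2) ?_ ?_
      · apply ext_toMU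
        · rw [hfin.1, SqZero.zero_fst]
        · rw [hfin.2, SqZero.zero_snd, map_zero]
      · intro s'
        have h := hu (inc s')
        rw [hω, lfun_comm, inc_fst, inc_snd, map_zero, map_zero, map_zero, map_zero, add_zero,
          add_zero] at h
        exact h
      · intro y
        have h := hu (incM (toMU.symm y))
        rw [hω, lfun_comm, incM_fst, incM_snd, mul_zero, zero_mul, sub_zero, map_zero, map_zero,
          map_zero, LinearMap.zero_apply, map_zero, zero_add, sub_zero,
          LinearEquiv.apply_symm_apply] at h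
        exact h
    · intro u v
      rw [hω, hω, hbanti, ← neg_sub (u * v) (v * u), map_neg]
      ring
    · intro u v w
      simp only [hω, toMU_mul, map_add, map_sub]
      have k1 : bet B (toMU u.2) (L (bl v.1) (toMU w.2)) =
          - bet B (toMU w.2) (R (bl v.1) (toMU u.2)) := by
        rw [← bet_R, hbanti]
      have k2 : bet B (toMU v.2) (L (bl w.1) (toMU u.2)) =
          - bet B (toMU u.2) (R (bl w.1) (toMU v.2)) := by
        rw [← bet_R, hbanti]
      have k3 : bet B (toMU w.2) (L (bl u.1) (toMU v.2)) =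
          - bet B (toMU v.2) (R (bl u.1) (toMU w.2)) := by
        rw [← bet_R, hbanti]
      rw [k1, k2, k3]
      simp only [mul_assoc]
      ring

/-- The existence of a Frobenius functional in terms of the internal data. -/
theorem frobenius_iff :
    HasFrobeniusFunctional (SqZero n m) ↔ Good n (fun a b => Fin (m a b) → ℂ) (fun _ _ => 0) := by
  have hbet : ∀ x y : MU n (fun a b => Fin (m a b) → ℂ), bet (fun _ _ => 0) x y = 0 := by
    intro x y
    simp [bet_apply]
  constructor
  · rintro ⟨l, hl⟩
    refine ⟨l.comp inc, (l.comp incM).comp toMU.symm.toLinearMap, ?_⟩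
    intro s x h1 h2
    have hker := hl (inc s + incM (toMU.symm x)) ?_
    · have e1 := congrArg (fun u : SqZero n m => u.1) hker
      have e2 := congrArg (fun u : SqZero n m => toMU u.2) hker
      simp only [SqZero.add_fst, SqZero.add_snd, inc_fst, inc_snd, incM_fst, incM_snd, add_zero,
        zero_add, LinearEquiv.apply_symm_apply, SqZero.zero_fst, SqZero.zero_snd, map_zero] at e1 e2
      exact ⟨e1, e2⟩
    · intro v
      rw [eq_inc_add v]
      have h1' := h1 v.1
      have h2' := h2 (toMU v.2)
      have : ((inc s + incM (toMU.symm x)) * (inc v.1 + incM v.2) -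
          (inc v.1 + incM v.2) * (inc s + incM (toMU.symm x)) : SqZero n m) =
          inc (s * v.1 - v.1 * s) + incM (toMU.symm (br (bl s) (toMU v.2))) -
            incM (toMU.symm (br (bl v.1) x)) := by
        simp only [mul_add, add_mul, ← inc_mul, inc_mul_incM, incM_mul_inc, incM_mul_incM,
          LinearEquiv.apply_symm_apply, map_sub, br_apply, add_zero]
        abel
      rw [this]
      simp only [LinearMap.comp_apply, LinearEquiv.coe_coe, hbet, add_zero] at h1' h2'
      simp only [map_add, map_sub] at h1' ⊢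
      linear_combination h1' + h2'
  · rintro ⟨lam, xi, hgood⟩
    refine ⟨lfun lam xi, fun u hu => ?_⟩
    have hfin := hgood u.1 (toMU u.2) ?_ ?_
    · apply ext_toMU
      · rw [hfin.1, SqZero.zero_fst]
      · rw [hfin.2, SqZero.zero_snd, map_zero]
    · intro s'
      have h := hu (inc s')
      rw [lfun_comm, inc_fst, inc_snd, map_zero, map_zero, map_zero, add_zero] at h
      exact h
    · intro y
      have h := hu (incM (toMU.symm y))
      rw [lfun_comm, incM_fst, incM_snd, mul_zero, zero_mul, sub_zero, map_zero, map_zero,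
        map_zero, LinearMap.zero_apply, map_zero, zero_add, sub_zero,
        LinearEquiv.apply_symm_apply] at h
      rw [hbet, add_zero, h]

end

end Pool.Agent.Helper29.AntiFrob
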