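import Pool.Agent.Helper29.AntiFrob.MatForm
import Pool.Agent.Helper29.AntiFrob.Castle

set_option autoImplicit false

namespace Pool.Agent.Helper29.AntiFrob

open Matrix

/-! ### Vertex-indexed form -/

/-- kernel condition over a general finite vertex set -/
def KerG {I : Type} [Fintype I] (fr : I → Prop) (V : I → Type) [∀ a, AddCommGroup (V a)]
    [∀ a, Module ℂ (V a)] (T : I → I → Type) [∀ a b, Fintype (T a b)]
    (Λ : ∀ a, V a →ₗ[ℂ] V a) (Ξ : ∀ a b, T a b → V a →ₗ[ℂ] V b) : Prop :=
  ∀ (s : ∀ a, V a →ₗ[ℂ] V a) (x : ∀ a b, T a b → V b →ₗ[ℂ] V a),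
    (∀ a, fr a → s a = 0) →
    (∀ a b t, Ξ a b t ∘ₗ s a = s b ∘ₗ Ξ a b t) →
    (∀ a, ¬ fr a → Λ a ∘ₗ s a - s a ∘ₗ Λ a =
      ∑ b, ∑ t, x a b t ∘ₗ Ξ a b t - ∑ b, ∑ t, Ξ b a t ∘ₗ x b a t) →
    (∀ a, s a = 0) ∧ (∀ a b t, x a b t = 0)

/-- existence of data with trivial kernel -/
def FrobG {I : Type} [Fintype I] (fr : I → Prop) (V : I → Type) [∀ a, AddCommGroup (V a)]
    [∀ a, Module ℂ (V a)] (T : I → I → Type) [∀ a b, Fintype (T a b)] : Prop :=
  ∃ (Λ : ∀ a, V a →ₗ[ℂ] V a) (Ξ : ∀ a b, T a b → V a →ₗ[ℂ] V b), KerG fr V T Λ Ξ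

section transport

variable {I I' : Type} [Fintype I] [Fintype I'] {fr : I → Prop} {fr' : I' → Prop}
  {V : I → Type} [∀ a, AddCommGroup (V a)] [∀ a, Module ℂ (V a)] [∀ a, FiniteDimensional ℂ (V a)]
  {V' : I' → Type} [∀ a, AddCommGroup (V' a)] [∀ a, Module ℂ (V' a)]
  [∀ a, FiniteDimensional ℂ (V' a)]
  {T : I → I → Type} [∀ a b, Fintype (T a b)] {T' : I' → I' → Type} [∀ a b, Fintype (T' a b)]

lemma FrobG.transport (ε : I ≃ I')
    (hfr : ∀ a, fr a ↔ fr' (ε a))
    (hV : ∀ a, Module.finrank ℂ (V a) = Module.finrank ℂ (V' (ε a)))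
    (hT : ∀ a b, Fintype.card (T a b) = Fintype.card (T' (ε a) (ε b)))
    (h : FrobG fr V T) : FrobG fr' V' T' := by
  classical
  obtain ⟨Λ, Ξ, hk⟩ := h
  have e : ∀ a, V a ≃ₗ[ℂ] V' (ε a) := fun a => LinearEquiv.ofFinrankEq _ _ (hV a)
  have τ : ∀ a b, T a b ≃ T' (ε a) (ε b) := fun a b => Fintype.equivOfCardEq (hT a b)
  let Λ' : ∀ a', V' a' →ₗ[ℂ] V' a' := Equiv.piCongrLeft (fun b => V' b →ₗ[ℂ] V' b) ε
    (fun a => (e a).toLinearMap ∘ₗ Λ a ∘ₗ (e a).symm.toLinearMap)
  have hΛ' : ∀ a, Λ' (ε a) = (e a).toLinearMap ∘ₗ Λ a ∘ₗ (e a).symm.toLinearMap := fun a =>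
    Equiv.piCongrLeft_apply_apply (fun b => V' b →ₗ[ℂ] V' b) ε _ a
  let Ξ' : ∀ a' b', T' a' b' → V' a' →ₗ[ℂ] V' b' :=
    Equiv.piCongrLeft (fun a' => ∀ b', T' a' b' → V' a' →ₗ[ℂ] V' b') ε
      (fun a => Equiv.piCongrLeft (fun b' => T' (ε a) b' → V' (ε a) →ₗ[ℂ] V' b') ε
        (fun b t' => (e b).toLinearMap ∘ₗ Ξ a b ((τ a b).symm t') ∘ₗ (e a).symm.toLinearMap))
  have hΞ' : ∀ a b t', Ξ' (ε a) (ε b) t' =
      (e b).toLinearMap ∘ₗ Ξ a b ((τ a b).symm t') ∘ₗ (e a).symm.toLinearMap := by
    intro a b t'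
    have h1 : Ξ' (ε a) = _ :=
      Equiv.piCongrLeft_apply_apply (fun a' => ∀ b', T' a' b' → V' a' →ₗ[ℂ] V' b') ε _ a
    rw [h1]
    exact congrFun (Equiv.piCongrLeft_apply_apply
      (fun b' => T' (ε a) b' → V' (ε a) →ₗ[ℂ] V' b') ε _ b) t'
  refine ⟨Λ', Ξ', ?_⟩
  intro s' x' h1 h2 h3
  have hres := hk (fun a => (e a).symm.toLinearMap ∘ₗ s' (ε a) ∘ₗ (e a).toLinearMap)
    (fun a b t => (e a).symm.toLinearMap ∘ₗ x' (ε a) (ε b) (τ a b t) ∘ₗ (e b).toLinearMap)
    (by
      intro a ha
      rw [h1 (ε a) ((hfr a).1 ha)]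
      simp)
    (by
      intro a b t
      have := h2 (ε a) (ε b) (τ a b t)
      rw [hΞ', Equiv.symm_apply_apply] at this
      apply LinearMap.ext
      intro v
      have h4 := congrArg (e b).symm (LinearMap.congr_fun this (e a v))
      simpa using h4)
    (by
      intro a ha
      have h4 := h3 (ε a) (fun h => ha ((hfr a).2 h))
      have e1 : ∑ b', ∑ t, x' (ε a) b' t ∘ₗ Ξ' (ε a) b' t =
          (e a).toLinearMap ∘ₗ (∑ b, ∑ t, ((e a).symm.toLinearMap ∘ₗ x' (ε a) (ε b) (τ a b t) ∘ₗ
            (e b).toLinearMap) ∘ₗ Ξ a b t) ∘ₗ (e a).symm.toLinearMap := by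
        rw [← Equiv.sum_comp ε]
        apply LinearMap.ext
        intro v
        simp only [LinearMap.sum_apply, LinearMap.comp_apply, LinearEquiv.coe_coe, map_sum,
          LinearEquiv.apply_symm_apply]
        refine Finset.sum_congr rfl fun b _ => ?_
        rw [← Equiv.sum_comp (τ a b)]
        refine Finset.sum_congr rfl fun t _ => ?_
        rw [hΞ', Equiv.symm_apply_apply]
        rfl
      have e2 : ∑ b', ∑ t, Ξ' b' (ε a) t ∘ₗ x' b' (ε a) t =
          (e a).toLinearMap ∘ₗ (∑ b, ∑ t, Ξ b a t ∘ₗ ((e b).symm.toLinearMap ∘ₗ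
            x' (ε b) (ε a) (τ b a t) ∘ₗ (e a).toLinearMap)) ∘ₗ (e a).symm.toLinearMap := by
        rw [← Equiv.sum_comp ε]
        apply LinearMap.ext
        intro v
        simp only [LinearMap.sum_apply, LinearMap.comp_apply, LinearEquiv.coe_coe, map_sum,
          LinearEquiv.apply_symm_apply]
        refine Finset.sum_congr rfl fun b _ => ?_
        rw [← Equiv.sum_comp (τ b a)]
        refine Finset.sum_congr rfl fun t _ => ?_
        rw [hΞ', Equiv.symm_apply_apply]
        rfl
      rw [e1, e2, hΛ'] at h4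
      apply LinearMap.ext
      intro v
      have h5 := congrArg (e a).symm (LinearMap.congr_fun h4 (e a v))
      simp only [LinearMap.sub_apply, LinearMap.comp_apply, LinearEquiv.coe_coe,
        LinearEquiv.symm_apply_apply, map_sub] at h5 ⊢
      exact h5)
  constructor
  · intro a'
    obtain ⟨a, rfl⟩ := ε.surjective a'
    apply LinearMap.ext
    intro v
    have h4 := congrArg (e a) (LinearMap.congr_fun (hres.1 a) ((e a).symm v))
    simpa using h4
  · intro a' b' t'
    obtain ⟨a, rfl⟩ := ε.surjective a'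
    obtain ⟨b, rfl⟩ := ε.surjective b'
    obtain ⟨t, rfl⟩ := (τ a b).surjective t'
    apply LinearMap.ext
    intro v
    have h4 := congrArg (e a) (LinearMap.congr_fun (hres.2 a b t) ((e b).symm v))
    simpa using h4

lemma FrobG.transport_iff (ε : I ≃ I')
    (hfr : ∀ a, fr a ↔ fr' (ε a))
    (hV : ∀ a, Module.finrank ℂ (V a) = Module.finrank ℂ (V' (ε a)))
    (hT : ∀ a b, Fintype.card (T a b) = Fintype.card (T' (ε a) (ε b))) :
    FrobG fr V T ↔ FrobG fr' V' T' := by
  constructor
  · exact FrobG.transport ε hfr hV hT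
  · refine FrobG.transport ε.symm ?_ ?_ ?_
    · intro a'
      have := hfr (ε.symm a')
      rw [Equiv.apply_symm_apply] at this
      exact this.symm
    · intro a'
      have := hV (ε.symm a')
      rw [Equiv.apply_symm_apply] at this
      exact this.symm
    · intro a' b'
      have := hT (ε.symm a') (ε.symm b')
      rw [Equiv.apply_symm_apply, Equiv.apply_symm_apply] at this
      exact this.symm

end transport

section

variable {ι : Type} [Fintype ι] {n : ι → ℕ} {m : Option ι → Option ι → ℕ}

/-- The Frobenius property in vertex-indexed form. -/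
theorem frobG_iff : HasFrobeniusFunctional (SqZero n m) ↔
    FrobG (fun a : Option ι => a = none) (fun a => Fin (size n a) → ℂ)
      (fun a b => Fin (m a b)) := by
  rw [matForm_iff]
  have hsum : ∀ (a : Option ι) (x : ∀ b, Fin (m a b) → (Fin (size n b) → ℂ) →ₗ[ℂ]
      (Fin (size n a) → ℂ)) (y : ∀ b, Fin (m a b) → (Fin (size n a) → ℂ) →ₗ[ℂ]
      (Fin (size n b) → ℂ)), LinearMap.toMatrix' (∑ b, ∑ t, x b t ∘ₗ y b t) =
        ∑ b, ∑ t, LinearMap.toMatrix' (x b t) * LinearMap.toMatrix' (y b t) := by
    intro a x y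
    simp only [map_sum, LinearMap.toMatrix'_comp]
  have hsum2 : ∀ (a : Option ι) (x : ∀ b, Fin (m b a) → (Fin (size n b) → ℂ) →ₗ[ℂ]
      (Fin (size n a) → ℂ)) (y : ∀ b, Fin (m b a) → (Fin (size n a) → ℂ) →ₗ[ℂ]
      (Fin (size n b) → ℂ)), LinearMap.toMatrix' (∑ b, ∑ t, x b t ∘ₗ y b t) =
        ∑ b, ∑ t, LinearMap.toMatrix' (x b t) * LinearMap.toMatrix' (y b t) := by
    intro a x y
    simp only [map_sum, LinearMap.toMatrix'_comp]
  constructor
  · rintro ⟨Lam, Xi, h⟩
    refine ⟨fun a => Matrix.toLin' (blk Lam a), fun a b t => Matrix.toLin' (Xi a b t), ?_⟩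
    intro s x h1 h2 h3
    have hs : ∀ a, blk (n := n) (fun i => LinearMap.toMatrix' (s (some i))) a =
        LinearMap.toMatrix' (s a) := by
      intro a
      cases a with
      | none => rw [h1 none rfl, map_zero]; rfl
      | some i => rfl
    have hres := h (fun i => LinearMap.toMatrix' (s (some i)))
      (fun a b t => LinearMap.toMatrix' (x a b t))
      (by
        intro a b t
        have := congrArg LinearMap.toMatrix' (h2 a b t)
        rw [LinearMap.toMatrix'_comp, LinearMap.toMatrix'_comp, LinearMap.toMatrix'_toLin'] at this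
        rw [hs, hs, this])
      (by
        intro i
        have := congrArg LinearMap.toMatrix' (h3 (some i) (by simp))
        rw [map_sub, map_sub, hsum (some i), hsum2 (some i), LinearMap.toMatrix'_comp,
          LinearMap.toMatrix'_comp] at this
        simp only [LinearMap.toMatrix'_toLin'] at this
        rw [hs]
        exact this)
    constructor
    · intro a
      cases a with
      | none => exact h1 none rfl
      | some i =>
        have := congrFun hres.1 i
        exact LinearMap.toMatrix'.injective (by rw [map_zero]; exact this)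
    · intro a b t
      have := congrFun (congrFun (congrFun hres.2 a) b) t
      exact LinearMap.toMatrix'.injective (by rw [map_zero]; exact this)
  · rintro ⟨Λ, Ξ, h⟩
    refine ⟨fun i => LinearMap.toMatrix' (Λ (some i)), fun a b t => LinearMap.toMatrix' (Ξ a b t),
      ?_⟩
    intro s x h1 h2
    have hres := h (fun a => Matrix.toLin' (blk s a)) (fun a b t => Matrix.toLin' (x a b t))
      (by
        rintro a rfl
        have : blk s none = 0 := rfl
        rw [this, map_zero])
      (by
        intro a b t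
        have := congrArg Matrix.toLin' (h1 a b t)
        rw [Matrix.toLin'_mul, Matrix.toLin'_mul, Matrix.toLin'_toMatrix'] at this
        exact this)
      (by
        intro a ha
        cases a with
        | none => exact absurd rfl ha
        | some i =>
          apply LinearMap.toMatrix'.injective
          rw [map_sub, map_sub, hsum (some i), hsum2 (some i), LinearMap.toMatrix'_comp,
            LinearMap.toMatrix'_comp]
          simp only [LinearMap.toMatrix'_toLin']
          exact h2 i)
    constructor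
    · funext i
      have := hres.1 (some i)
      exact Matrix.toLin'.injective (this.trans (map_zero Matrix.toLin').symm)
    · funext a b t
      have := hres.2 a b t
      exact Matrix.toLin'.injective (this.trans (map_zero Matrix.toLin').symm)

/-- Passing to the opposite algebra. -/
theorem frobenius_op : HasFrobeniusFunctional (SqZero n m) →
    HasFrobeniusFunctional (SqZero n (fun a b => m b a)) := by
  rw [matForm_iff, matForm_iff]
  rintro ⟨Lam, Xi, h⟩
  refine ⟨fun i => (Lam i).transpose, fun a b t => (Xi b a t).transpose, ?_⟩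
  intro s x h1 h2
  have hb : ∀ (s : SemisimpleAlg n) (a : Option ι),
      blk (fun i => (s i).transpose) a = (blk s a).transpose := by
    intro s a
    cases a with
    | none => exact Matrix.transpose_zero.symm
    | some i => rfl
  have hres := h (fun i => (s i).transpose) (fun a b t => (x b a t).transpose)
    (by
      intro a b t
      have := congrArg Matrix.transpose (h1 b a t)
      rw [Matrix.transpose_mul, Matrix.transpose_mul, Matrix.transpose_transpose] at this
      rw [hb, hb]
      exact this.symm)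
    (by
      intro i
      have := congrArg Matrix.transpose (h2 i)
      simp only [Matrix.transpose_sub, Matrix.transpose_mul, Matrix.transpose_sum,
        Matrix.transpose_transpose] at this
      rw [hb] at this ⊢
      rw [Matrix.transpose_transpose] at this
      rw [← neg_sub, this]
      abel)
  constructor
  · funext i
    have := congrArg Matrix.transpose (congrFun hres.1 i)
    simpa using this
  · funext a b t
    have := congrArg Matrix.transpose (congrFun (congrFun (congrFun hres.2 b) a) t)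
    simpa using this

end

end Pool.Agent.Helper29.AntiFrob
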