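import Pool.Agent.Helper29.AntiFrob.Equiv

set_option autoImplicit false

namespace Pool.Agent.Helper29.AntiFrob

open Matrix

section tr

variable {P Q : Type} [Fintype P] [Fintype Q] [DecidableEq P] [DecidableEq Q]

lemma exists_trace (f : Matrix P Q ℂ →ₗ[ℂ] ℂ) :
    ∃ X : Matrix Q P ℂ, ∀ x, f x = Matrix.trace (X * x) := by
  refine ⟨fun q p => f (Matrix.single p q 1), fun x => ?_⟩
  conv_lhs => rw [Matrix.matrix_eq_sum_single x]
  rw [Matrix.trace_mul_comm, Matrix.trace]
  simp only [map_sum, Matrix.diag_apply, Matrix.mul_apply]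
  refine Finset.sum_congr rfl fun p _ => Finset.sum_congr rfl fun q _ => ?_
  have : Matrix.single p q (x p q) = x p q • Matrix.single p q (1 : ℂ) := by
    rw [Matrix.smul_single, smul_eq_mul, mul_one]
  rw [this, map_smul, smul_eq_mul]

lemma eq_zero_of_trace (X : Matrix Q P ℂ) (h : ∀ x : Matrix P Q ℂ, Matrix.trace (X * x) = 0) :
    X = 0 := by
  ext q p
  have := h (Matrix.single p q 1)
  rw [Matrix.trace_mul_single] at this
  simpa using this

end tr

section

variable {ι : Type} [Fintype ι] {n : ι → ℕ} {m : Option ι → Option ι → ℕ}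

/-- The Frobenius property in matrix form. -/
def MatKer (Lam : SemisimpleAlg n)
    (Xi : ∀ a b : Option ι, Fin (m a b) → Matrix (Fin (size n b)) (Fin (size n a)) ℂ) : Prop :=
  ∀ (s : SemisimpleAlg n) (x : Bimod n m),
    (∀ a b t, Xi a b t * blk s a = blk s b * Xi a b t) →
    (∀ i, blk Lam (some i) * blk s (some i) - blk s (some i) * blk Lam (some i) =
      ∑ b, ∑ t, x (some i) b t * Xi (some i) b t - ∑ a, ∑ t, Xi a (some i) t * x a (some i) t) →
    s = 0 ∧ x = 0

/-- the functional -/
def ltr (Lam : SemisimpleAlg n)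
    (Xi : ∀ a b : Option ι, Fin (m a b) → Matrix (Fin (size n b)) (Fin (size n a)) ℂ) :
    SqZero n m →ₗ[ℂ] ℂ where
  toFun u := ∑ i, Matrix.trace (Lam i * u.1 i) + ∑ a, ∑ b, ∑ t, Matrix.trace (Xi a b t * u.2 a b t)
  map_add' u v := by
    simp only [SqZero.add_fst, SqZero.add_snd, Pi.add_apply, Matrix.mul_add, Matrix.trace_add,
      Finset.sum_add_distrib]
    ring
  map_smul' c u := by
    simp only [SqZero.smul_fst, SqZero.smul_snd, Pi.smul_apply, Matrix.mul_smul,
      Matrix.trace_smul, smul_eq_mul, RingHom.id_apply, mul_add, Finset.mul_sum]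

lemma ltr_apply (Lam : SemisimpleAlg n)
    (Xi : ∀ a b : Option ι, Fin (m a b) → Matrix (Fin (size n b)) (Fin (size n a)) ℂ)
    (u : SqZero n m) : ltr Lam Xi u =
      ∑ i, Matrix.trace (Lam i * u.1 i) +
        ∑ a, ∑ b, ∑ t, Matrix.trace (Xi a b t * u.2 a b t) := rfl

lemma exists_ltr (l : SqZero n m →ₗ[ℂ] ℂ) : ∃ Lam Xi, l = ltr Lam Xi := by
  classical
  choose Lam hLam using fun i => exists_trace
    ((l.comp inc).comp (LinearMap.single ℂ (fun i => Matrix (Fin (n i)) (Fin (n i)) ℂ) i))
  choose Xi hXi using fun (a b : Option ι) (t : Fin (m a b)) => exists_trace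
    ((l.comp incM).comp ((LinearMap.single ℂ
      (fun a => ∀ b, Fin (m a b) → Matrix (Fin (size n a)) (Fin (size n b)) ℂ) a).comp
      ((LinearMap.single ℂ (fun b => Fin (m a b) → Matrix (Fin (size n a)) (Fin (size n b)) ℂ) b).comp
        (LinearMap.single ℂ (fun _ => Matrix (Fin (size n a)) (Fin (size n b)) ℂ) t))))
  refine ⟨Lam, Xi, ?_⟩
  apply LinearMap.ext
  intro u
  rw [ltr_apply]
  conv_lhs => rw [eq_inc_add u, map_add]
  congr 1
  · have h1 : u.1 = ∑ i, Pi.single i (u.1 i) := by
      funext j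
      simp [Finset.sum_apply, Pi.single_apply]
    conv_lhs => rw [h1]
    rw [map_sum, map_sum]
    refine Finset.sum_congr rfl fun i _ => ?_
    rw [← hLam]
    rfl
  · have h1 : u.2 = ∑ a, ∑ b, ∑ t, Pi.single a (Pi.single b (Pi.single t (u.2 a b t))) := by
      funext a b t
      simp only [Finset.sum_apply]
      rw [Finset.sum_eq_single a]
      · rw [Finset.sum_eq_single b]
        · rw [Finset.sum_eq_single t]
          · simp
          · intro t' _ ht'
            simp [Pi.single_eq_of_ne (Ne.symm ht')]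
          · simp
        · intro b' _ hb'
          refine Finset.sum_eq_zero fun t' _ => ?_
          rw [Pi.single_eq_same, Pi.single_eq_of_ne (Ne.symm hb')]
          rfl
        · simp
      · intro a' _ ha'
        refine Finset.sum_eq_zero fun b' _ => Finset.sum_eq_zero fun t' _ => ?_
        rw [Pi.single_eq_of_ne (Ne.symm ha')]
        rfl
      · simp
    conv_lhs => rw [h1]
    simp only [map_sum]
    refine Finset.sum_congr rfl fun a _ => Finset.sum_congr rfl fun b _ =>
      Finset.sum_congr rfl fun t _ => ?_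
    rw [← hXi]
    rfl

lemma sum_block (f : ∀ a : Option ι, Matrix (Fin (size n a)) (Fin (size n a)) ℂ)
    (s : SemisimpleAlg n) : ∑ a, Matrix.trace (f a * blk s a) =
      ∑ i, Matrix.trace (f (some i) * blk s (some i)) := by
  rw [Fintype.sum_option]
  have : blk s none = 0 := rfl
  rw [this, Matrix.mul_zero, Matrix.trace_zero, zero_add]

lemma ltr_comm (Lam : SemisimpleAlg n)
    (Xi : ∀ a b : Option ι, Fin (m a b) → Matrix (Fin (size n b)) (Fin (size n a)) ℂ)
    (u v : SqZero n m) : ltr Lam Xi (u * v - v * u) =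
      ∑ i, Matrix.trace ((blk Lam (some i) * blk u.1 (some i) -
        blk u.1 (some i) * blk Lam (some i) -
        (∑ b, ∑ t, u.2 (some i) b t * Xi (some i) b t -
          ∑ a, ∑ t, Xi a (some i) t * u.2 a (some i) t)) * blk v.1 (some i)) +
      ∑ a, ∑ b, ∑ t, Matrix.trace ((Xi a b t * blk u.1 a - blk u.1 b * Xi a b t) * v.2 a b t) := by
  have e1 : ∑ i, Matrix.trace ((∑ b, ∑ t, u.2 (some i) b t * Xi (some i) b t) *
      blk v.1 (some i)) =
      ∑ a, ∑ b, ∑ t, Matrix.trace (Xi a b t * (blk v.1 a * u.2 a b t)) := by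
    have h1 := sum_block (fun a => ∑ b, ∑ t, u.2 a b t * Xi a b t) v.1
    rw [← h1]
    refine Finset.sum_congr rfl fun a _ => ?_
    simp only [Finset.sum_mul, Matrix.trace_sum]
    refine Finset.sum_congr rfl fun b _ => Finset.sum_congr rfl fun t _ => ?_
    rw [Matrix.mul_assoc, Matrix.trace_mul_comm, Matrix.mul_assoc]
  have e2 : ∑ i, Matrix.trace ((∑ a, ∑ t, Xi a (some i) t * u.2 a (some i) t) *
      blk v.1 (some i)) =
      ∑ a, ∑ b, ∑ t, Matrix.trace (Xi a b t * (u.2 a b t * blk v.1 b)) := by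
    have h1 := sum_block (fun b => ∑ a, ∑ t, Xi a b t * u.2 a b t) v.1
    rw [← h1, Finset.sum_comm]
    refine Finset.sum_congr rfl fun b _ => ?_
    simp only [Finset.sum_mul, Matrix.trace_sum]
    refine Finset.sum_congr rfl fun a _ => Finset.sum_congr rfl fun t _ => ?_
    rw [Matrix.mul_assoc]
  have e3 : ∀ i, Matrix.trace (Lam i * (u.1 i * v.1 i)) - Matrix.trace (Lam i * (v.1 i * u.1 i)) =
      Matrix.trace ((blk Lam (some i) * blk u.1 (some i) - blk u.1 (some i) * blk Lam (some i)) *
        blk v.1 (some i)) := by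
    intro i
    change Matrix.trace (Lam i * (u.1 i * v.1 i)) - Matrix.trace (Lam i * (v.1 i * u.1 i)) =
      Matrix.trace ((Lam i * u.1 i - u.1 i * Lam i) * v.1 i)
    rw [Matrix.sub_mul, Matrix.trace_sub]
    congr 1
    · rw [Matrix.mul_assoc]
    · rw [← Matrix.mul_assoc, Matrix.trace_mul_comm, Matrix.mul_assoc]
  rw [map_sub, ltr_apply, ltr_apply]
  simp only [SqZero.mul_fst, SqZero.mul_snd, Pi.mul_apply, Matrix.mul_add, Matrix.trace_add,
    Finset.sum_add_distrib]
  simp only [Matrix.sub_mul, Matrix.trace_sub, Finset.sum_sub_distrib] at e3 ⊢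
  rw [e1, e2]
  have e4 : ∑ a, ∑ b, ∑ t, Matrix.trace (blk u.1 b * Xi a b t * v.2 a b t) =
      ∑ a, ∑ b, ∑ t, Matrix.trace (Xi a b t * (v.2 a b t * blk u.1 b)) := by
    refine Finset.sum_congr rfl fun a _ => Finset.sum_congr rfl fun b _ =>
      Finset.sum_congr rfl fun t _ => ?_
    rw [Matrix.mul_assoc, Matrix.trace_mul_comm, Matrix.mul_assoc]
  have e5 : ∑ a, ∑ b, ∑ t, Matrix.trace (Xi a b t * blk u.1 a * v.2 a b t) =
      ∑ a, ∑ b, ∑ t, Matrix.trace (Xi a b t * (blk u.1 a * v.2 a b t)) := by
    refine Finset.sum_congr rfl fun a _ => Finset.sum_congr rfl fun b _ =>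
      Finset.sum_congr rfl fun t _ => ?_
    rw [Matrix.mul_assoc]
  rw [e4, e5, ← Finset.sum_sub_distrib, ← Finset.sum_congr rfl (fun i _ => e3 i),
    Finset.sum_sub_distrib]
  ring

theorem matForm_iff : HasFrobeniusFunctional (SqZero n m) ↔
    ∃ (Lam : SemisimpleAlg n)
      (Xi : ∀ a b : Option ι, Fin (m a b) → Matrix (Fin (size n b)) (Fin (size n a)) ℂ),
      MatKer Lam Xi := by
  classical
  constructor
  · rintro ⟨l, hl⟩
    obtain ⟨Lam, Xi, rfl⟩ := exists_ltr l
    refine ⟨Lam, Xi, fun s x h1 h2 => ?_⟩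
    have hker := hl (inc s + incM x) ?_
    · have e1 := congrArg (fun u : SqZero n m => u.1) hker
      have e2 := congrArg (fun u : SqZero n m => u.2) hker
      simp only [SqZero.add_fst, SqZero.add_snd, inc_fst, inc_snd, incM_fst, incM_snd, add_zero,
        zero_add, SqZero.zero_fst, SqZero.zero_snd] at e1 e2
      exact ⟨e1, e2⟩
    · intro v
      rw [ltr_comm]
      have f1 : (inc s + incM x : SqZero n m).1 = s := by
        rw [SqZero.add_fst, inc_fst, incM_fst, add_zero]
      have f2 : (inc s + incM x : SqZero n m).2 = x := by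
        rw [SqZero.add_snd, inc_snd, incM_snd, zero_add]
      rw [f1, f2]
      simp [h1, h2]
  · rintro ⟨Lam, Xi, hk⟩
    refine ⟨ltr Lam Xi, fun u hu => ?_⟩
    have hfin := hk u.1 u.2 ?_ ?_
    · apply SqZero.ext'
      · rw [hfin.1, SqZero.zero_fst]
      · intro a b t
        rw [hfin.2, SqZero.zero_snd]
    · intro a b t
      rw [← sub_eq_zero]
      apply eq_zero_of_trace
      intro y
      have h := hu (incM (Pi.single a (Pi.single b (Pi.single t y))))
      rw [ltr_comm, incM_fst, incM_snd] at h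
      simp only [blk_zero, Matrix.mul_zero, Matrix.trace_zero, Finset.sum_const_zero,
        zero_add] at h
      rw [Finset.sum_eq_single a, Finset.sum_eq_single b, Finset.sum_eq_single t] at h
      · rw [Pi.single_eq_same, Pi.single_eq_same, Pi.single_eq_same] at h
        exact h
      · intro t' _ ht'
        simp [Pi.single_eq_of_ne ht']
      · simp
      · intro b' _ hb'
        refine Finset.sum_eq_zero fun t' _ => ?_
        rw [Pi.single_eq_same, Pi.single_eq_of_ne hb']
        simp
      · simp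
      · intro a' _ ha'
        refine Finset.sum_eq_zero fun b' _ => Finset.sum_eq_zero fun t' _ => ?_
        rw [Pi.single_eq_of_ne ha']
        simp
      · simp
    · intro i
      rw [← sub_eq_zero]
      apply eq_zero_of_trace
      intro y
      have h := hu (inc (Pi.single i y))
      rw [ltr_comm, inc_fst, inc_snd] at h
      simp only [Pi.zero_apply, Matrix.mul_zero, Matrix.trace_zero, Finset.sum_const_zero,
        add_zero] at h
      have e0 : blk (Pi.single i y : SemisimpleAlg n) (some i) = y :=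
        Pi.single_eq_same (M := fun i => Matrix (Fin (n i)) (Fin (n i)) ℂ) i y
      rw [Finset.sum_eq_single i] at h
      · rw [e0] at h
        exact h
      · intro j _ hj
        have e1 : blk (Pi.single i y : SemisimpleAlg n) (some j) = 0 :=
          Pi.single_eq_of_ne (M := fun i => Matrix (Fin (n i)) (Fin (n i)) ℂ) hj y
        rw [e1, Matrix.mul_zero, Matrix.trace_zero]
      · simp

end

end Pool.Agent.Helper29.AntiFrob
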