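import Pool.Agent.Helper29.AntiFrob.Equiv

set_option autoImplicit false

namespace Pool.Agent.Helper29.AntiFrob

open Matrix

section

variable {ι : Type} {n : ι → ℕ} {U V : Option ι → Option ι → Type}
  [∀ a b, AddCommGroup (U a b)] [∀ a b, Module ℂ (U a b)]
  [∀ a b, AddCommGroup (V a b)] [∀ a b, Module ℂ (V a b)]

/-- map induced by linear maps of multiplicity spaces -/
def mmap (f : ∀ a b, U a b →ₗ[ℂ] V a b) : MU n U →ₗ[ℂ] MU n V where
  toFun x a b p q := f a b (x a b p q)
  map_add' x y := by funext a b p q; simp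
  map_smul' c x := by funext a b p q; simp

lemma mmap_apply (f : ∀ a b, U a b →ₗ[ℂ] V a b) (x : MU n U) (a b : Option ι)
    (p : Fin (size n a)) (q : Fin (size n b)) : mmap f x a b p q = f a b (x a b p q) := rfl

lemma mmap_L (f : ∀ a b, U a b →ₗ[ℂ] V a b) (σ : SP n) (x : MU n U) :
    mmap f (L σ x) = L σ (mmap f x) := by
  funext a b p q
  simp [mmap_apply, L_apply]

lemma mmap_R (f : ∀ a b, U a b →ₗ[ℂ] V a b) (σ : SP n) (x : MU n U) :
    mmap f (R σ x) = R σ (mmap f x) := by
  funext a b p q
  simp [mmap_apply, R_apply]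

lemma mmap_br (f : ∀ a b, U a b →ₗ[ℂ] V a b) (σ : SP n) (x : MU n U) :
    mmap f (br σ x) = br σ (mmap f x) := by
  simp only [br_apply, map_sub, mmap_L, mmap_R]

/-- `tens` as a linear map in the vector -/
def tensR [DecidableEq ι] (a b : Option ι) (X : Matrix (Fin (size n a)) (Fin (size n b)) ℂ) :
    U a b →ₗ[ℂ] MU n U where
  toFun u := tens a b X u
  map_add' u u' := by
    simp only [tens, smul_add, ← Pi.single_add]
    rfl
  map_smul' c u := by
    simp only [tens, smul_comm _ c, ← Pi.single_smul]
    rfl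

variable [Fintype ι]

lemma bet_zero (x y : MU n U) : bet (fun _ _ => 0) x y = 0 := by
  simp [bet_apply]

/-- Adding a nondegenerate part. -/
lemma good_of_retract (B : ∀ a b, V a b →ₗ[ℂ] V b a →ₗ[ℂ] ℂ)
    (hB : ∀ a b u v, B a b u v = - B b a v u)
    (inj : ∀ a b, U a b →ₗ[ℂ] V a b) (π : ∀ a b, V a b →ₗ[ℂ] U a b)
    (hπ : ∀ a b u, π a b (inj a b u) = u)
    (h1 : ∀ a b u v, B a b (inj a b u) v = 0)
    (h2 : ∀ a b v, (∀ w, B a b v w = 0) → v ∈ LinearMap.range (inj a b))
    (hn : ∀ i, 0 < n i)
    (hg : Good n U (fun _ _ => 0)) : Good n V B := by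
  classical
  obtain ⟨lam, xi, hgood⟩ := hg
  refine ⟨lam, xi.comp (mmap π), ?_⟩
  intro s x e1 e2
  have hfin := hgood s (mmap π x) ?_ ?_
  · refine ⟨hfin.1, ?_⟩
    have hx : ∀ y, bet B x y = 0 := by
      intro y
      have := e2 y
      rw [hfin.1] at this
      simpa [br_apply] using this
    have hx2 : ∀ a b p q, x a b p q ∈ LinearMap.range (inj a b) := by
      intro a b p q
      apply h2
      intro w
      have := hx (tens b a (Matrix.single q p 1) w)
      rw [bet_anti B hB, bet_tens, hB] at this
      simpa using this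
    funext a b p q
    obtain ⟨u, hu⟩ := hx2 a b p q
    have h3 : π a b (x a b p q) = 0 := congrFun (congrFun (congrFun (congrFun hfin.2 a) b) p) q
    rw [← hu, hπ] at h3
    rw [← hu, h3, map_zero]
    rfl
  · intro s'
    have := e1 s'
    simpa [LinearMap.comp_apply, mmap_br] using this
  · intro y
    have := e2 (mmap inj y)
    have hy : mmap π (mmap inj y) = y := by
      funext a b p q
      simp [mmap_apply, hπ]
    have hb : bet B x (mmap inj y) = 0 := by
      rw [bet_anti B hB, bet_apply]
      simp [mmap_apply, h1]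
    rw [hb, LinearMap.comp_apply, mmap_br, hy] at this
    rw [bet_zero]
    exact this

/-- Splitting off the nondegenerate part. -/
lemma good_ker [∀ a b, FiniteDimensional ℂ (V a b)]
    (B : ∀ a b, V a b →ₗ[ℂ] V b a →ₗ[ℂ] ℂ)
    (hB : ∀ a b u v, B a b u v = - B b a v u)
    (inj : ∀ a b, U a b →ₗ[ℂ] V a b)
    (hinj : ∀ a b, Function.Injective (inj a b))
    (h1 : ∀ a b u v, B a b (inj a b u) v = 0)
    (h2 : ∀ a b v, (∀ w, B a b v w = 0) → v ∈ LinearMap.range (inj a b))
    (hn : ∀ i, 0 < n i)
    (hg : Good n V B) : Good n U (fun _ _ => 0) := by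
  classical
  obtain ⟨lam, xi, hgood⟩ := hg
  choose C hC using fun a b => Submodule.exists_isCompl (LinearMap.range (inj a b))
  have h1' : ∀ a b v u, B a b v (inj b a u) = 0 := by
    intro a b v u
    rw [hB, h1, neg_zero]
  -- the element representing `xi` on the complement
  have hrep : ∀ (a b : Option ι) (f : V b a →ₗ[ℂ] ℂ),
      ∃ u ∈ C a b, ∀ c ∈ C b a, B a b u c = f c := by
    intro a b f
    let Φ : V a b →ₗ[ℂ] (C b a →ₗ[ℂ] ℂ) := (B a b).compl₂ (C b a).subtype
    have hΦ : Function.Surjective Φ := by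
      have : Function.Injective Φ.flip := by
        rw [← LinearMap.ker_eq_bot, Submodule.eq_bot_iff]
        intro c hc
        have hc0 : ∀ u, B b a c u = 0 := by
          intro u
          have := LinearMap.congr_fun hc u
          rw [hB b a, neg_eq_zero]
          exact this
        have hmem := h2 b a c hc0
        have : (c : V b a) ∈ LinearMap.range (inj b a) ⊓ C b a := ⟨hmem, c.2⟩
        rw [(hC b a).inf_eq_bot, Submodule.mem_bot] at this
        exact Subtype.ext this
      have h3 := (LinearMap.flip_surjective_iff₁ (B := Φ.flip)).2 this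
      rwa [LinearMap.flip_flip] at h3
    obtain ⟨u, hu⟩ := hΦ (f.comp (C b a).subtype)
    have hu' : ∀ c ∈ C b a, B a b u c = f c := by
      intro c hc
      exact LinearMap.congr_fun hu ⟨c, hc⟩
    have htop : u ∈ LinearMap.range (inj a b) ⊔ C a b := by
      rw [(hC a b).sup_eq_top]; trivial
    obtain ⟨k, ⟨k', hk'⟩, c', hc', hsum⟩ := Submodule.mem_sup.1 htop
    refine ⟨c', hc', fun c hc => ?_⟩
    rw [← hu' c hc, ← hsum, ← hk', map_add, LinearMap.add_apply, h1, zero_add]
  choose m0 hm0C hm0 using fun (a b : Option ι) (p : Fin (size n a)) (q : Fin (size n b)) =>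
    hrep a b (xi.comp (tensR b a (Matrix.single q p 1)))
  -- m0 represents xi on elements with coefficients in C
  have hrepr : ∀ y : MU n V, (∀ a b p q, y a b p q ∈ C a b) → xi y = bet B m0 y := by
    intro y hy
    conv_lhs => rw [decomp y]
    rw [bet_apply]
    simp only [map_sum]
    rw [Finset.sum_comm]
    refine Finset.sum_congr rfl fun b _ => Finset.sum_congr rfl fun a _ => ?_
    rw [Finset.sum_comm]
    refine Finset.sum_congr rfl fun q _ => Finset.sum_congr rfl fun p _ => ?_
    rw [hm0 b a q p _ (hy a b p q)]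
    rfl
  -- stability of the complement under the action
  have hLC : ∀ (σ : SP n) (y : MU n V), (∀ a b p q, y a b p q ∈ C a b) →
      ∀ a b p q, br σ y a b p q ∈ C a b := by
    intro σ y hy a b p q
    rw [br_apply]
    refine Submodule.sub_mem _ ?_ ?_
    · rw [L_apply]
      exact Submodule.sum_mem _ fun p' _ => Submodule.smul_mem _ _ (hy _ _ _ _)
    · rw [R_apply]
      exact Submodule.sum_mem _ fun p' _ => Submodule.smul_mem _ _ (hy _ _ _ _)
  have hanti := bet_anti (n := n) B hB
  have hN : ∀ σ τ : SP n, xi (br σ (br τ m0)) = - xi (br τ (br σ m0)) := by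
    intro σ τ
    rw [hrepr _ (hLC σ _ (hLC τ _ hm0C)), hrepr _ (hLC τ _ (hLC σ _ hm0C))]
    have e1 := bet_br B σ m0 (br τ m0)
    have e2 := bet_br B τ m0 (br σ m0)
    have e3 := hanti (br σ m0) (br τ m0)
    linear_combination e1 + e2 - e3
  let lam' : SemisimpleAlg n →ₗ[ℂ] ℂ :=
    lam + (1 / 2 : ℂ) • (xi.comp ((br.flip m0).comp bl))
  have hlam' : ∀ t, lam' t = lam t + (1 / 2 : ℂ) * xi (br (bl t) m0) := fun _ => rfl
  have hblc : ∀ s s' : SemisimpleAlg n, bl (s * s' - s' * s) = bl s * bl s' - bl s' * bl s := by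
    intro s s'
    rw [map_sub, bl_mul, bl_mul]
  refine ⟨lam', xi.comp (mmap inj), ?_⟩
  intro s k e1 e2
  have hfin := hgood s (br (bl s) m0 + mmap inj k) ?_ ?_
  · refine ⟨hfin.1, ?_⟩
    have hk : mmap inj k = 0 := by
      have := hfin.2
      rw [hfin.1, map_zero, map_zero, LinearMap.zero_apply, zero_add] at this
      exact this
    funext a b p q
    have := congrFun (congrFun (congrFun (congrFun hk a) b) p) q
    exact hinj a b (this.trans (map_zero (inj a b)).symm)
  · intro s'
    have h3 := e1 s'
    rw [hlam', hblc, br_comm, map_sub, LinearMap.comp_apply, mmap_br] at h3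
    have h4 := hN (bl s) (bl s')
    rw [map_add, map_add]
    simp only [map_sub] at h3 ⊢
    linear_combination h3 - (1 / 2 : ℂ) * h4
  · intro y
    -- decompose y
    have hdec : ∀ a b (v : V a b), ∃ (k' : U a b) (c : V a b), c ∈ C a b ∧ v = c + inj a b k' := by
      intro a b v
      have htop : v ∈ LinearMap.range (inj a b) ⊔ C a b := by
        rw [(hC a b).sup_eq_top]; trivial
      obtain ⟨k, ⟨k', hk'⟩, c', hc', hsum⟩ := Submodule.mem_sup.1 htop
      exact ⟨k', c', hc', by rw [← hsum, ← hk', add_comm]⟩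
    choose kk cc hcc hsum using hdec
    let yc : MU n V := fun a b p q => cc a b (y a b p q)
    let yk : MU n U := fun a b p q => kk a b (y a b p q)
    have hy : y = yc + mmap inj yk := by
      funext a b p q
      exact hsum a b (y a b p q)
    have hyc : ∀ a b p q, yc a b p q ∈ C a b := fun a b p q => hcc _ _ _
    have hbk : ∀ x, bet B x (mmap inj yk) = 0 := by
      intro x
      rw [bet_apply]
      simp [mmap_apply, h1']
    have hbk' : ∀ x, bet B (mmap inj k) x = 0 := by
      intro x
      rw [bet_apply]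
      simp [mmap_apply, h1]
    have h5 := e2 yk
    rw [bet_zero, add_zero, LinearMap.comp_apply, mmap_br] at h5
    have h6 := hrepr _ (hLC (bl s) yc hyc)
    have h7 := bet_br B (bl s) m0 yc
    rw [hy]
    simp only [map_add, LinearMap.add_apply, hbk, hbk', h5, add_zero]
    rw [h6, h7]
    ring

/-- no loops -/
lemma good_loop (hn : ∀ i, 0 < n i) (hg : Good n U (fun _ _ => 0)) (a : Option ι) (u : U a a) :
    u = 0 := by
  classical
  obtain ⟨lam, xi, hgood⟩ := hg
  have hbr : ∀ σ : SP n, br σ (tens a a (1 : Matrix _ _ ℂ) u) = 0 := by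
    intro σ
    rw [br_apply, L_tens, R_tens, Matrix.mul_one, Matrix.one_mul, sub_self]
  have hbr' : ∀ (s : SemisimpleAlg n) (y : MU n U), (0 : SemisimpleAlg n) = s →
      xi (br (bl s) y) = 0 := by
    rintro s y rfl
    simp
  have hfin := hgood 0 (tens a a (1 : Matrix _ _ ℂ) u) ?_ ?_
  · have := congrFun (congrFun (congrFun (congrFun hfin.2 a) a) (z hn a)) (z hn a)
    rw [tens_same] at this
    simpa using this
  · intro s'
    rw [hbr]
    simp
  · intro y
    rw [bet_zero]
    simp

/-- no two-cycles -/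
lemma good_two_cycle (hn : ∀ i, 0 < n i) (hg : Good n U (fun _ _ => 0)) {a b : Option ι}
    (hab : a ≠ b) (u : U a b) (v : U b a) : u = 0 ∨ v = 0 := by
  classical
  by_contra hcon
  rw [not_or] at hcon
  obtain ⟨hu, hv⟩ := hcon
  obtain ⟨lam, xi, hgood⟩ := hg
  let Y : Matrix (Fin (size n b)) (Fin (size n a)) ℂ :=
    fun q p => xi (tens a b (Matrix.single p q 1) u)
  let Z : Matrix (Fin (size n a)) (Fin (size n b)) ℂ :=
    fun p q => xi (tens b a (Matrix.single q p 1) v)
  have hY : ∀ X : Matrix (Fin (size n a)) (Fin (size n b)) ℂ,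
      xi (tens a b X u) = Matrix.trace (X * Y) := by
    intro X
    have h1 : tens a b X u = ∑ p, ∑ q, X p q • tens a b (Matrix.single p q 1) u := by
      have : X = ∑ p, ∑ q, X p q • Matrix.single p q (1 : ℂ) := by
        conv_lhs => rw [Matrix.matrix_eq_sum_single X]
        simp [Matrix.smul_single]
      calc tens a b X u = tensL a b u (∑ p, ∑ q, X p q • Matrix.single p q (1 : ℂ)) := by
            rw [← this]; rfl
        _ = _ := by simp only [map_sum, map_smul]; rfl
    rw [h1, Matrix.trace]
    simp only [map_sum, map_smul, Matrix.diag_apply, Matrix.mul_apply, smul_eq_mul]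
    rfl
  have hZ : ∀ X : Matrix (Fin (size n b)) (Fin (size n a)) ℂ,
      xi (tens b a X v) = Matrix.trace (X * Z) := by
    intro X
    have h1 : tens b a X v = ∑ p, ∑ q, X p q • tens b a (Matrix.single p q 1) v := by
      have : X = ∑ p, ∑ q, X p q • Matrix.single p q (1 : ℂ) := by
        conv_lhs => rw [Matrix.matrix_eq_sum_single X]
        simp [Matrix.smul_single]
      calc tens b a X v = tensL b a v (∑ p, ∑ q, X p q • Matrix.single p q (1 : ℂ)) := by
            rw [← this]; rfl
        _ = _ := by simp only [map_sum, map_smul]; rfl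
    rw [h1, Matrix.trace]
    simp only [map_sum, map_smul, Matrix.diag_apply, Matrix.mul_apply, smul_eq_mul]
    rfl
  have hfin := hgood 0 (tens a b Z u + tens b a Y v) ?_ ?_
  · have hZ0 : Z = 0 := by
      ext p q
      have := congrFun (congrFun (congrFun (congrFun hfin.2 a) b) p) q
      rw [Pi.add_apply, Pi.add_apply, Pi.add_apply, Pi.add_apply, tens_same,
        tens_ne_left hab] at this
      have h3 : Z p q • u = 0 := by simpa using this
      rcases smul_eq_zero.1 h3 with h4 | h4
      · exact h4
      · exact absurd h4 hu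
    have hY0 : Y = 0 := by
      ext p q
      have := congrFun (congrFun (congrFun (congrFun hfin.2 b) a) p) q
      rw [Pi.add_apply, Pi.add_apply, Pi.add_apply, Pi.add_apply, tens_same,
        tens_ne_left (Ne.symm hab)] at this
      have h3 : Y p q • v = 0 := by simpa using this
      rcases smul_eq_zero.1 h3 with h4 | h4
      · exact h4
      · exact absurd h4 hv
    have hfin2 := hgood 0 (tens a b (Matrix.single (z hn a) (z hn b) 1) u) ?_ ?_
    · have := congrFun (congrFun (congrFun (congrFun hfin2.2 a) b) (z hn a)) (z hn b)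
      rw [tens_same] at this
      apply hu
      simpa using this
    · intro s'
      rw [br_apply, L_tens, R_tens, map_sub xi, hY, hY, hY0]
      simp
    · intro y
      rw [bet_zero]
      simp
  · intro s'
    rw [br_apply, map_add, map_add, L_tens, R_tens, L_tens, R_tens]
    simp only [map_sub, map_add]
    rw [hY, hY, hZ, hZ]
    have e1 : Matrix.trace (bl s' a * Z * Y) = Matrix.trace (Y * bl s' a * Z) := by
      rw [Matrix.trace_mul_comm, ← Matrix.mul_assoc]
    have e2 : Matrix.trace (Z * bl s' b * Y) = Matrix.trace (bl s' b * Y * Z) := by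
      rw [Matrix.mul_assoc, Matrix.trace_mul_comm]
    rw [e1, e2]
    simp
    ring
  · intro y
    rw [bet_zero]
    simp

end

end Pool.Agent.Helper29.AntiFrob
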