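import Pool.Agent.Helper29.AntiFrob.Gen

set_option autoImplicit false

namespace Pool.Agent.Helper29.AntiFrob

/-- spaces over the vertex set with one more vertex -/
def OV {J : Type} (W : Type) (V : J → Type) : Option J → Type
  | none => W
  | some j => V j

instance OV.acg {J : Type} {W : Type} {V : J → Type} [AddCommGroup W] [∀ j, AddCommGroup (V j)] :
    ∀ a : Option J, AddCommGroup (OV W V a)
  | none => inferInstanceAs (AddCommGroup W)
  | some j => inferInstanceAs (AddCommGroup (V j))

instance OV.mod {J : Type} {W : Type} {V : J → Type} [AddCommGroup W] [∀ j, AddCommGroup (V j)]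
    [Module ℂ W] [∀ j, Module ℂ (V j)] : ∀ a : Option J, Module ℂ (OV W V a)
  | none => inferInstanceAs (Module ℂ W)
  | some j => inferInstanceAs (Module ℂ (V j))

instance OV.fin {J : Type} {W : Type} {V : J → Type} [AddCommGroup W] [∀ j, AddCommGroup (V j)]
    [Module ℂ W] [∀ j, Module ℂ (V j)] [FiniteDimensional ℂ W] [∀ j, FiniteDimensional ℂ (V j)] :
    ∀ a : Option J, FiniteDimensional ℂ (OV W V a)
  | none => inferInstanceAs (FiniteDimensional ℂ W)
  | some j => inferInstanceAs (FiniteDimensional ℂ (V j))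

/-- arrows, the new vertex having only outgoing arrows -/
def OTo {J : Type} (Q : J → Type) (T : J → J → Type) : Option J → Option J → Type
  | none, none => Empty
  | none, some j => Q j
  | some _, none => Empty
  | some j, some k => T j k

instance OTo.fin {J : Type} {Q : J → Type} {T : J → J → Type} [∀ j, Fintype (Q j)]
    [∀ j k, Fintype (T j k)] : ∀ a b : Option J, Fintype (OTo Q T a b)
  | none, none => inferInstanceAs (Fintype Empty)
  | none, some j => inferInstanceAs (Fintype (Q j))
  | some _, none => inferInstanceAs (Fintype Empty)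
  | some j, some k => inferInstanceAs (Fintype (T j k))

/-- arrows, the new vertex having only incoming arrows -/
def OTi {J : Type} (Q : J → Type) (T : J → J → Type) : Option J → Option J → Type
  | none, none => Empty
  | none, some _ => Empty
  | some j, none => Q j
  | some j, some k => T j k

instance OTi.fin {J : Type} {Q : J → Type} {T : J → J → Type} [∀ j, Fintype (Q j)]
    [∀ j k, Fintype (T j k)] : ∀ a b : Option J, Fintype (OTi Q T a b)
  | none, none => inferInstanceAs (Fintype Empty)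
  | none, some _ => inferInstanceAs (Fintype Empty)
  | some j, none => inferInstanceAs (Fintype (Q j))
  | some j, some k => inferInstanceAs (Fintype (T j k))

/-- frozen vertices -/
def ofr {J : Type} (fr : J → Prop) : Option J → Prop
  | none => False
  | some j => fr j

section

variable {J : Type} [Fintype J] (fr : J → Prop) (V : J → Type) [∀ a, AddCommGroup (V a)]
  [∀ a, Module ℂ (V a)] (Q : J → Type) [∀ j, Fintype (Q j)] (T : J → J → Type)
  [∀ a b, Fintype (T a b)]

/-- target of the structure map -/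
abbrev YY : Type := ∀ j : J, Q j → V j

/-- endomorphisms vanishing at frozen vertices -/
def SJ : Submodule ℂ (∀ j, V j →ₗ[ℂ] V j) where
  carrier := {s | ∀ j, fr j → s j = 0}
  add_mem' := by
    intro s t hs ht j hj
    rw [Pi.add_apply, hs j hj, ht j hj, add_zero]
  zero_mem' := fun _ _ => rfl
  smul_mem' := by
    intro c s hs j hj
    rw [Pi.smul_apply, hs j hj, smul_zero]

/-- end of the contraction -/
abbrev NJ : Type := ∀ j : {j : J // ¬ fr j}, V j.1 →ₗ[ℂ] V j.1

/-- unknown arrows between old vertices -/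
abbrev EJ : Type := ∀ j k : J, T j k → V k →ₗ[ℂ] V j

variable {T} in
/-- intertwining defect -/
def aMap (Ξ : ∀ j k : J, T j k → V j →ₗ[ℂ] V k) :
    SJ fr V →ₗ[ℂ] (∀ j k : J, T j k → V j →ₗ[ℂ] V k) where
  toFun s j k t := Ξ j k t ∘ₗ s.1 j - s.1 k ∘ₗ Ξ j k t
  map_add' s s' := by
    funext j k t
    simp only [Submodule.coe_add, Pi.add_apply, LinearMap.comp_add, LinearMap.add_comp]
    abel
  map_smul' c s := by
    funext j k t
    simp only [Submodule.coe_smul, Pi.smul_apply, LinearMap.comp_smul, LinearMap.smul_comp,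
      RingHom.id_apply, smul_sub]

/-- action on the target -/
def ρMap : SJ fr V →ₗ[ℂ] YY V Q →ₗ[ℂ] YY V Q :=
  LinearMap.mk₂ ℂ (fun s y j t => s.1 j (y j t))
    (by intro s s' y; funext j t; simp)
    (by intro c s y; funext j t; simp)
    (by intro s y y'; funext j t; simp)
    (by intro c s y; funext j t; simp)

/-- bracket -/
def bbMap : NJ fr V →ₗ[ℂ] SJ fr V →ₗ[ℂ] NJ fr V :=
  LinearMap.mk₂ ℂ (fun l s j => l j ∘ₗ s.1 j.1 - s.1 j.1 ∘ₗ l j)
    (by
      intro l l' s; funext j
      simp only [Pi.add_apply, LinearMap.comp_add, LinearMap.add_comp]; abel)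
    (by
      intro c l s; funext j
      simp only [Pi.smul_apply, LinearMap.comp_smul, LinearMap.smul_comp, smul_sub])
    (by
      intro l s s'; funext j
      simp only [Submodule.coe_add, Pi.add_apply, LinearMap.comp_add, LinearMap.add_comp]; abel)
    (by
      intro c l s; funext j
      simp only [Submodule.coe_smul, Pi.smul_apply, LinearMap.comp_smul, LinearMap.smul_comp,
        smul_sub])

variable {T} in
/-- contribution of the old arrows -/
def cMap (Ξ : ∀ j k : J, T j k → V j →ₗ[ℂ] V k) : EJ V T →ₗ[ℂ] NJ fr V where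
  toFun x j := ∑ k, ∑ t, Ξ k j.1 t ∘ₗ x k j.1 t - ∑ k, ∑ t, x j.1 k t ∘ₗ Ξ j.1 k t
  map_add' x x' := by
    funext j
    simp only [Pi.add_apply, LinearMap.comp_add, LinearMap.add_comp, Finset.sum_add_distrib]
    abel
  map_smul' c x := by
    funext j
    simp only [Pi.smul_apply, LinearMap.comp_smul, LinearMap.smul_comp, RingHom.id_apply,
      smul_sub, Finset.smul_sum]

/-- inclusion of a coordinate -/
def inj [DecidableEq J] [∀ j, DecidableEq (Q j)] (j : J) (t : Q j) : V j →ₗ[ℂ] YY V Q :=
  (LinearMap.single ℂ (fun j => Q j → V j) j) ∘ₗ (LinearMap.single ℂ (fun _ : Q j => V j) t)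

/-- coordinate projection -/
def prj (j : J) (t : Q j) : YY V Q →ₗ[ℂ] V j :=
  LinearMap.proj t ∘ₗ LinearMap.proj j

/-- contraction -/
def τMap [DecidableEq J] [∀ j, DecidableEq (Q j)] : (YY V Q →ₗ[ℂ] YY V Q) →ₗ[ℂ] NJ fr V where
  toFun P j := ∑ t, prj V Q j.1 t ∘ₗ P ∘ₗ inj V Q j.1 t
  map_add' P P' := by
    funext j
    simp only [Pi.add_apply, LinearMap.comp_add, LinearMap.add_comp, Finset.sum_add_distrib]
  map_smul' c P := by
    funext j
    simp only [Pi.smul_apply, LinearMap.comp_smul, LinearMap.smul_comp, RingHom.id_apply,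
      Finset.smul_sum]

variable [DecidableEq J] [∀ j, DecidableEq (Q j)]

lemma τMap_comm (P : YY V Q →ₗ[ℂ] YY V Q) (s : SJ fr V) :
    τMap fr V Q (P ∘ₗ ρMap fr V Q s - ρMap fr V Q s ∘ₗ P) = bbMap fr V (τMap fr V Q P) s := by
  have e1 : ∀ j t, ρMap fr V Q s ∘ₗ inj V Q j t = inj V Q j t ∘ₗ s.1 j := by
    intro j t
    apply LinearMap.ext
    intro v
    funext j' t'
    change s.1 j' ((inj V Q j t v) j' t') = (inj V Q j t (s.1 j v)) j' t'
    simp only [inj, LinearMap.comp_apply, LinearMap.coe_single]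
    rcases eq_or_ne j' j with rfl | hj
    · rw [Pi.single_eq_same, Pi.single_eq_same]
      rcases eq_or_ne t' t with rfl | ht
      · rw [Pi.single_eq_same, Pi.single_eq_same]
      · rw [Pi.single_eq_of_ne ht, Pi.single_eq_of_ne ht, map_zero]
    · rw [Pi.single_eq_of_ne hj, Pi.single_eq_of_ne hj]
      exact map_zero _
  have e2 : ∀ j t, prj V Q j t ∘ₗ ρMap fr V Q s = s.1 j ∘ₗ prj V Q j t := by
    intro j t
    rfl
  funext j
  change ∑ t, prj V Q j.1 t ∘ₗ (P ∘ₗ ρMap fr V Q s - ρMap fr V Q s ∘ₗ P) ∘ₗ inj V Q j.1 t =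
    (∑ t, prj V Q j.1 t ∘ₗ P ∘ₗ inj V Q j.1 t) ∘ₗ s.1 j.1 -
      s.1 j.1 ∘ₗ (∑ t, prj V Q j.1 t ∘ₗ P ∘ₗ inj V Q j.1 t)
  apply LinearMap.ext
  intro v
  rw [LinearMap.sub_apply, LinearMap.comp_apply, LinearMap.comp_apply, LinearMap.sum_apply,
    LinearMap.sum_apply, LinearMap.sum_apply, map_sum, ← Finset.sum_sub_distrib]
  refine Finset.sum_congr rfl fun t _ => ?_
  have e3 : ρMap fr V Q s (inj V Q j.1 t v) = inj V Q j.1 t (s.1 j.1 v) :=
    LinearMap.congr_fun (e1 j.1 t) v
  change prj V Q j.1 t (P (ρMap fr V Q s (inj V Q j.1 t v)) -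
    ρMap fr V Q s (P (inj V Q j.1 t v))) = _
  rw [e3, map_sub]
  rfl

end

end Pool.Agent.Helper29.AntiFrob
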