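import Pool.Agent.Helper29.AntiFrob.Split

set_option autoImplicit false

namespace Pool.Agent.Helper29.AntiFrob

section

variable {J : Type} {Q : J → Type} {T : J → J → Type}

instance (priority := high) OTo.e1 : IsEmpty (OTo Q T none none) := inferInstanceAs (IsEmpty Empty)
instance (priority := high) OTo.e2 (j : J) : IsEmpty (OTo Q T (some j) none) :=
  inferInstanceAs (IsEmpty Empty)
instance (priority := high) OTi.e1 : IsEmpty (OTi Q T none none) := inferInstanceAs (IsEmpty Empty)
instance (priority := high) OTi.e2 (j : J) : IsEmpty (OTi Q T none (some j)) :=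
  inferInstanceAs (IsEmpty Empty)

end

section

variable {J : Type} [Fintype J] (fr : J → Prop) (V : J → Type) [∀ a, AddCommGroup (V a)]
  [∀ a, Module ℂ (V a)] (Q : J → Type) [∀ j, Fintype (Q j)] (T : J → J → Type)
  [∀ a b, Fintype (T a b)]
  [DecidableEq J] [∀ j, DecidableEq (Q j)] (W : Type) [AddCommGroup W] [Module ℂ W]

lemma sum_inj_prj (y : YY V Q) : ∑ j, ∑ t, inj V Q j t (prj V Q j t y) = y := by
  funext j' t'
  rw [Finset.sum_apply, Finset.sum_apply, Finset.sum_eq_single j']
  · rw [Finset.sum_apply, Finset.sum_apply, Finset.sum_eq_single t']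
    · simp [inj, prj]
    · intro t _ ht
      simp [inj, Pi.single_eq_of_ne (Ne.symm ht)]
    · simp
  · intro j _ hj
    rw [Finset.sum_apply, Finset.sum_apply]
    refine Finset.sum_eq_zero fun t _ => ?_
    simp only [inj, LinearMap.comp_apply, LinearMap.coe_single]
    rw [Pi.single_eq_of_ne (Ne.symm hj)]
    rfl
  · simp

lemma prj_inj (j : J) (t : Q j) (v : V j) : prj V Q j t (inj V Q j t v) = v := by
  simp [inj, prj]

lemma prj_inj_ne_t (j : J) {t t' : Q j} (h : t' ≠ t) (v : V j) :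
    prj V Q j t' (inj V Q j t v) = 0 := by
  simp [inj, prj, Pi.single_eq_of_ne h]

lemma prj_inj_ne {j j' : J} (h : j' ≠ j) (t : Q j) (t' : Q j') (v : V j) :
    prj V Q j' t' (inj V Q j t v) = 0 := by
  simp only [inj, prj, LinearMap.comp_apply, LinearMap.coe_single, LinearMap.proj_apply]
  rw [Pi.single_eq_of_ne h]
  rfl

/-- a map out of the target from its coordinates -/
def ofCoord {U : Type} [AddCommGroup U] [Module ℂ U] (f : ∀ j, Q j → V j →ₗ[ℂ] U) :
    YY V Q →ₗ[ℂ] U := ∑ j, ∑ t, f j t ∘ₗ prj V Q j t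

lemma ofCoord_apply {U : Type} [AddCommGroup U] [Module ℂ U] (f : ∀ j, Q j → V j →ₗ[ℂ] U)
    (y : YY V Q) : ofCoord V Q f y = ∑ j, ∑ t, f j t (y j t) := by
  simp only [ofCoord, LinearMap.sum_apply, LinearMap.comp_apply]
  rfl

lemma ofCoord_inj {U : Type} [AddCommGroup U] [Module ℂ U] (f : ∀ j, Q j → V j →ₗ[ℂ] U)
    (j : J) (t : Q j) : ofCoord V Q f ∘ₗ inj V Q j t = f j t := by
  apply LinearMap.ext
  intro v
  rw [LinearMap.comp_apply, ofCoord_apply, Finset.sum_eq_single j]
  · rw [Finset.sum_eq_single t]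
    · exact congrArg (f j t) (prj_inj V Q j t v)
    · intro t' _ ht'
      have := prj_inj_ne_t V Q j ht' v
      change f j t' (prj V Q j t' (inj V Q j t v)) = 0
      rw [this, map_zero]
    · simp
  · intro j' _ hj'
    refine Finset.sum_eq_zero fun t' _ => ?_
    have := prj_inj_ne V Q hj' t t' v
    change f j' t' (prj V Q j' t' (inj V Q j t v)) = 0
    rw [this, map_zero]
  · simp

lemma ext_inj {U : Type} [AddCommGroup U] [Module ℂ U] {f g : YY V Q →ₗ[ℂ] U}
    (h : ∀ j t, f ∘ₗ inj V Q j t = g ∘ₗ inj V Q j t) : f = g := by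
  apply LinearMap.ext
  intro y
  rw [← sum_inj_prj V Q y]
  simp only [map_sum]
  refine Finset.sum_congr rfl fun j _ => Finset.sum_congr rfl fun t _ => ?_
  exact LinearMap.congr_fun (h j t) _

lemma frobG_out_mp (h : FrobG (ofr fr) (OV W V) (OTo Q T)) :
    ∃ (Ξ : ∀ j k, T j k → V j →ₗ[ℂ] V k) (Λ : W →ₗ[ℂ] W) (X : W →ₗ[ℂ] YY V Q) (l : NJ fr V),
      KSout (aMap fr V Ξ) (ρMap fr V Q) (bbMap fr V) (cMap fr V Ξ) (τMap fr V Q) Λ X l := by
  obtain ⟨Λ', Ξ', hk⟩ := h
  let Λ₀ : W →ₗ[ℂ] W := Λ' none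
  let Λj : ∀ j, V j →ₗ[ℂ] V j := fun j => Λ' (some j)
  let Ξj : ∀ j k, T j k → V j →ₗ[ℂ] V k := fun j k t => Ξ' (some j) (some k) t
  let Ξq : ∀ j, Q j → W →ₗ[ℂ] V j := fun j t => Ξ' none (some j) t
  let X : W →ₗ[ℂ] YY V Q := LinearMap.pi fun j => LinearMap.pi fun t => Ξ' none (some j) t
  have hX : ∀ j t, prj V Q j t ∘ₗ X = Ξ' none (some j) t := fun _ _ => rfl
  refine ⟨fun j k t => Ξ' (some j) (some k) t, Λ' none, X, fun j => Λ' (some j.1), ?_⟩
  intro σ s x m h1 h2 h3 h4
  let s' : ∀ a : Option J, OV W V a →ₗ[ℂ] OV W V a := fun a => match a with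
    | none => σ
    | some j => s.1 j
  let x' : ∀ a b : Option J, OTo Q T a b → OV W V b →ₗ[ℂ] OV W V a := fun a b => match a, b with
    | none, none => fun t => isEmptyElim t
    | none, some j => fun t => m ∘ₗ inj V Q j t
    | some _, none => fun t => isEmptyElim t
    | some j, some k => fun t => x j k t
  have hres := hk s' x'
    (by
      intro a ha
      cases a with
      | none => exact absurd ha id
      | some j => exact s.2 j ha)
    (by
      intro a b t
      cases a with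
      | none =>
        cases b with
        | none => exact isEmptyElim t
        | some j =>
          have := congrArg (fun f => prj V Q j t ∘ₗ f) h2
          exact this
      | some j =>
        cases b with
        | none => exact isEmptyElim t
        | some k =>
          have := congrFun (congrFun (congrFun h1 j) k) t
          exact sub_eq_zero.1 this)
    (by
      intro a ha
      cases a with
      | none =>
        rw [Fintype.sum_option, Fintype.sum_option]
        have e0 : ∀ j : J, ∑ t, Ξ' (some j) none t ∘ₗ x' (some j) none t = 0 := by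
          intro j
          rw [Finset.univ_eq_empty, Finset.sum_empty]
        simp only [e0, Finset.univ_eq_empty, Finset.sum_empty, Finset.sum_const_zero, add_zero,
          zero_add, sub_zero]
        change Λ₀ ∘ₗ σ - σ ∘ₗ Λ₀ = ∑ j, ∑ t, (m ∘ₗ inj V Q j t) ∘ₗ Ξq j t
        rw [show Λ₀ ∘ₗ σ - σ ∘ₗ Λ₀ = m ∘ₗ X from h3]
        apply LinearMap.ext
        intro w
        have e1 := sum_inj_prj V Q (X w)
        rw [LinearMap.comp_apply]
        conv_lhs => rw [← e1]
        simp only [map_sum, LinearMap.sum_apply, LinearMap.comp_apply]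
        rfl
      | some j =>
        rw [Fintype.sum_option, Fintype.sum_option]
        have h4j := congrFun h4 ⟨j, ha⟩
        change (Λj j ∘ₗ s.1 j - s.1 j ∘ₗ Λj j) +
          (∑ k, ∑ t, Ξj k j t ∘ₗ x k j t - ∑ k, ∑ t, x j k t ∘ₗ Ξj j k t) +
          ∑ t, prj V Q j t ∘ₗ (X ∘ₗ m) ∘ₗ inj V Q j t = 0 at h4j
        have e0 : ∑ t, x' (some j) none t ∘ₗ Ξ' (some j) none t = 0 := by
          rw [Finset.univ_eq_empty, Finset.sum_empty]
        rw [e0, zero_add]
        change Λj j ∘ₗ s.1 j - s.1 j ∘ₗ Λj j =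
          ∑ k, ∑ t, x j k t ∘ₗ Ξj j k t -
          (∑ t, prj V Q j t ∘ₗ (X ∘ₗ m) ∘ₗ inj V Q j t + ∑ k, ∑ t, Ξj k j t ∘ₗ x k j t)
        rw [← sub_eq_zero, ← h4j]
        abel)
  refine ⟨hres.1 none, ?_, ?_, ?_⟩
  · apply Subtype.ext
    funext j
    exact hres.1 (some j)
  · funext j k t
    exact hres.2 (some j) (some k) t
  · apply ext_inj
    intro j t
    have := hres.2 none (some j) t
    rw [LinearMap.zero_comp]
    exact this

lemma frobG_out_mpr (h : ∃ (Ξ : ∀ j k, T j k → V j →ₗ[ℂ] V k) (Λ : W →ₗ[ℂ] W)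
      (X : W →ₗ[ℂ] YY V Q) (l : NJ fr V),
      KSout (aMap fr V Ξ) (ρMap fr V Q) (bbMap fr V) (cMap fr V Ξ) (τMap fr V Q) Λ X l) :
    FrobG (ofr fr) (OV W V) (OTo Q T) := by
  classical
  obtain ⟨Ξ, Λ, X, l, hk⟩ := h
  let Λ' : ∀ a : Option J, OV W V a →ₗ[ℂ] OV W V a := fun a => match a with
    | none => Λ
    | some j => if hj : fr j then 0 else l ⟨j, hj⟩
  let Ξ' : ∀ a b : Option J, OTo Q T a b → OV W V a →ₗ[ℂ] OV W V b := fun a b => match a, b with
    | none, none => fun t => isEmptyElim t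
    | none, some j => fun t => prj V Q j t ∘ₗ X
    | some _, none => fun t => isEmptyElim t
    | some j, some k => fun t => Ξ j k t
  refine ⟨Λ', Ξ', ?_⟩
  intro s' x' h1 h2 h3
  let s : SJ fr V := ⟨fun j => s' (some j), fun j hj => h1 (some j) hj⟩
  let sj : ∀ j, V j →ₗ[ℂ] V j := fun j => s' (some j)
  let xj : ∀ j k, T j k → V k →ₗ[ℂ] V j := fun j k t => x' (some j) (some k) t
  let xq : ∀ j, Q j → V j →ₗ[ℂ] W := fun j t => x' none (some j) t
  let m : YY V Q →ₗ[ℂ] W := ofCoord V Q (fun j t => x' none (some j) t)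
  have hm : ∀ j t, m ∘ₗ inj V Q j t = x' none (some j) t := fun j t => ofCoord_inj V Q _ j t
  have hmX : m ∘ₗ X = ∑ j, ∑ t, (m ∘ₗ inj V Q j t) ∘ₗ (prj V Q j t ∘ₗ X) := by
    apply LinearMap.ext
    intro w
    have e1 := sum_inj_prj V Q (X w)
    rw [LinearMap.comp_apply]
    conv_lhs => rw [← e1]
    simp only [map_sum, LinearMap.sum_apply, LinearMap.comp_apply]
  have hres := hk (s' none) s (fun j k t => x' (some j) (some k) t) m
    (by
      funext j k t
      exact sub_eq_zero.2 (h2 (some j) (some k) t))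
    (by
      apply LinearMap.ext
      intro w
      funext j t
      exact LinearMap.congr_fun (h2 none (some j) t) w)
    (by
      have := h3 none id
      rw [Fintype.sum_option, Fintype.sum_option] at this
      have e0 : ∀ j : J, ∑ t, Ξ' (some j) none t ∘ₗ x' (some j) none t = 0 := by
        intro j
        rw [Finset.univ_eq_empty, Finset.sum_empty]
      simp only [e0, Finset.univ_eq_empty, Finset.sum_empty, Finset.sum_const_zero, add_zero,
        zero_add, sub_zero] at this
      rw [hmX]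
      simp only [hm]
      exact this)
    (by
      funext ⟨j, hj⟩
      have := h3 (some j) hj
      rw [Fintype.sum_option, Fintype.sum_option] at this
      have e0 : ∑ t, x' (some j) none t ∘ₗ Ξ' (some j) none t = 0 := by
        rw [Finset.univ_eq_empty, Finset.sum_empty]
      have e2 : Λ' (some j) = l ⟨j, hj⟩ := dif_neg hj
      rw [e0, zero_add, e2] at this
      change (l ⟨j, hj⟩ ∘ₗ sj j - sj j ∘ₗ l ⟨j, hj⟩) +
          (∑ k, ∑ t, Ξ k j t ∘ₗ xj k j t - ∑ k, ∑ t, xj j k t ∘ₗ Ξ j k t) +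
          ∑ t, prj V Q j t ∘ₗ (X ∘ₗ m) ∘ₗ inj V Q j t = 0
      have e3 : ∑ t, prj V Q j t ∘ₗ (X ∘ₗ m) ∘ₗ inj V Q j t =
          ∑ t, (prj V Q j t ∘ₗ X) ∘ₗ xq j t := by
        refine Finset.sum_congr rfl fun t _ => ?_
        rw [show xq j t = m ∘ₗ inj V Q j t from (hm j t).symm]
        rfl
      rw [e3]
      change l ⟨j, hj⟩ ∘ₗ sj j - sj j ∘ₗ l ⟨j, hj⟩ =
        ∑ k, ∑ t, xj j k t ∘ₗ Ξ j k t -
        (∑ t, (prj V Q j t ∘ₗ X) ∘ₗ xq j t + ∑ k, ∑ t, Ξ k j t ∘ₗ xj k j t) at this
      rw [this]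
      abel)
  constructor
  · intro a
    cases a with
    | none => exact hres.1
    | some j => exact congrFun (congrArg Subtype.val hres.2.1) j
  · intro a b t
    cases a with
    | none =>
      cases b with
      | none => exact isEmptyElim t
      | some j =>
        rw [← hm, hres.2.2.2, LinearMap.zero_comp]
        rfl
    | some j =>
      cases b with
      | none => exact isEmptyElim t
      | some k => exact congrFun (congrFun (congrFun hres.2.2.1 j) k) t

lemma frobG_in_mp (h : FrobG (ofr fr) (OV W V) (OTi Q T)) :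
    ∃ (Ξ : ∀ j k, T j k → V j →ₗ[ℂ] V k) (Λ : W →ₗ[ℂ] W) (q : YY V Q →ₗ[ℂ] W) (l : NJ fr V),
      KSin (aMap fr V Ξ) (ρMap fr V Q) (bbMap fr V) (cMap fr V Ξ) (τMap fr V Q) Λ q l := by
  obtain ⟨Λ', Ξ', hk⟩ := h
  let Λ₀ : W →ₗ[ℂ] W := Λ' none
  let Λj : ∀ j, V j →ₗ[ℂ] V j := fun j => Λ' (some j)
  let Ξj : ∀ j k, T j k → V j →ₗ[ℂ] V k := fun j k t => Ξ' (some j) (some k) t
  let Ξq : ∀ j, Q j → V j →ₗ[ℂ] W := fun j t => Ξ' (some j) none t
  let q : YY V Q →ₗ[ℂ] W := ofCoord V Q Ξq
  have hq : ∀ j t, q ∘ₗ inj V Q j t = Ξq j t := fun j t => ofCoord_inj V Q _ j t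
  refine ⟨fun j k t => Ξ' (some j) (some k) t, Λ' none, q, fun j => Λ' (some j.1), ?_⟩
  intro σ s x m h1 h2 h3 h4
  let s' : ∀ a : Option J, OV W V a →ₗ[ℂ] OV W V a := fun a => match a with
    | none => σ
    | some j => s.1 j
  let x' : ∀ a b : Option J, OTi Q T a b → OV W V b →ₗ[ℂ] OV W V a := fun a b => match a, b with
    | none, none => fun t => isEmptyElim t
    | none, some j => fun t => isEmptyElim t
    | some j, none => fun t => prj V Q j t ∘ₗ m
    | some j, some k => fun t => x j k t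
  have hρ : ∀ j t, ρMap fr V Q s ∘ₗ inj V Q j t = inj V Q j t ∘ₗ s.1 j := by
    intro j t
    apply LinearMap.ext
    intro v
    funext j' t'
    change s.1 j' (prj V Q j' t' (inj V Q j t v)) = prj V Q j' t' (inj V Q j t (s.1 j v))
    rcases eq_or_ne j' j with rfl | hj
    · rcases eq_or_ne t' t with rfl | ht
      · rw [prj_inj, prj_inj]
      · rw [prj_inj_ne_t V Q _ ht, prj_inj_ne_t V Q _ ht, map_zero]
    · rw [prj_inj_ne V Q hj, prj_inj_ne V Q hj, map_zero]
  have hres := hk s' x'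
    (by
      intro a ha
      cases a with
      | none => exact absurd ha id
      | some j => exact s.2 j ha)
    (by
      intro a b t
      cases a with
      | none =>
        cases b with
        | none => exact isEmptyElim t
        | some j => exact isEmptyElim t
      | some j =>
        cases b with
        | none =>
          change Ξq j t ∘ₗ s.1 j = σ ∘ₗ Ξq j t
          rw [← hq, LinearMap.comp_assoc, ← hρ, ← LinearMap.comp_assoc, ← LinearMap.comp_assoc, h2]
        | some k =>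
          have := congrFun (congrFun (congrFun h1 j) k) t
          exact sub_eq_zero.1 this)
    (by
      intro a ha
      cases a with
      | none =>
        rw [Fintype.sum_option, Fintype.sum_option]
        have e0 : ∀ j : J, ∑ t, x' none (some j) t ∘ₗ Ξ' none (some j) t = 0 := by
          intro j
          rw [Finset.univ_eq_empty, Finset.sum_empty]
        simp only [e0, Finset.univ_eq_empty, Finset.sum_empty, Finset.sum_const_zero, add_zero,
          zero_add, zero_sub]
        change Λ₀ ∘ₗ σ - σ ∘ₗ Λ₀ = - ∑ j, ∑ t, Ξq j t ∘ₗ (prj V Q j t ∘ₗ m)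
        rw [show Λ₀ ∘ₗ σ - σ ∘ₗ Λ₀ = -(q ∘ₗ m) from h3]
        congr 1
        apply LinearMap.ext
        intro w
        have e1 := sum_inj_prj V Q (m w)
        rw [LinearMap.comp_apply]
        conv_lhs => rw [← e1]
        simp only [map_sum, LinearMap.sum_apply, LinearMap.comp_apply]
        refine Finset.sum_congr rfl fun j _ => Finset.sum_congr rfl fun t _ => ?_
        rw [← hq]
        rfl
      | some j =>
        rw [Fintype.sum_option, Fintype.sum_option]
        have h4j := congrFun h4 ⟨j, ha⟩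
        change (Λj j ∘ₗ s.1 j - s.1 j ∘ₗ Λj j) +
          (∑ k, ∑ t, Ξj k j t ∘ₗ x k j t - ∑ k, ∑ t, x j k t ∘ₗ Ξj j k t) -
          ∑ t, prj V Q j t ∘ₗ (m ∘ₗ q) ∘ₗ inj V Q j t = 0 at h4j
        have e0 : ∑ t, Ξ' none (some j) t ∘ₗ x' none (some j) t = 0 := by
          rw [Finset.univ_eq_empty, Finset.sum_empty]
        rw [e0, zero_add]
        have e3 : ∑ t, (prj V Q j t ∘ₗ m) ∘ₗ Ξq j t =
            ∑ t, prj V Q j t ∘ₗ (m ∘ₗ q) ∘ₗ inj V Q j t := by
          refine Finset.sum_congr rfl fun t _ => ?_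
          rw [← hq]
          rfl
        change Λj j ∘ₗ s.1 j - s.1 j ∘ₗ Λj j =
          ∑ t, (prj V Q j t ∘ₗ m) ∘ₗ Ξq j t +
          ∑ k, ∑ t, x j k t ∘ₗ Ξj j k t -
          ∑ k, ∑ t, Ξj k j t ∘ₗ x k j t
        rw [e3]
        rw [← sub_eq_zero, ← h4j]
        abel)
  refine ⟨hres.1 none, ?_, ?_, ?_⟩
  · apply Subtype.ext
    funext j
    exact hres.1 (some j)
  · funext j k t
    exact hres.2 (some j) (some k) t
  · apply LinearMap.ext
    intro w
    funext j t
    exact LinearMap.congr_fun (hres.2 (some j) none t) w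

lemma frobG_in_mpr (h : ∃ (Ξ : ∀ j k, T j k → V j →ₗ[ℂ] V k) (Λ : W →ₗ[ℂ] W)
      (q : YY V Q →ₗ[ℂ] W) (l : NJ fr V),
      KSin (aMap fr V Ξ) (ρMap fr V Q) (bbMap fr V) (cMap fr V Ξ) (τMap fr V Q) Λ q l) :
    FrobG (ofr fr) (OV W V) (OTi Q T) := by
  classical
  obtain ⟨Ξ, Λ, q, l, hk⟩ := h
  let Λ' : ∀ a : Option J, OV W V a →ₗ[ℂ] OV W V a := fun a => match a with
    | none => Λ
    | some j => if hj : fr j then 0 else l ⟨j, hj⟩
  let Ξ' : ∀ a b : Option J, OTi Q T a b → OV W V a →ₗ[ℂ] OV W V b := fun a b => match a, b with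
    | none, none => fun t => isEmptyElim t
    | none, some j => fun t => isEmptyElim t
    | some j, none => fun t => q ∘ₗ inj V Q j t
    | some j, some k => fun t => Ξ j k t
  refine ⟨Λ', Ξ', ?_⟩
  intro s' x' h1 h2 h3
  let s : SJ fr V := ⟨fun j => s' (some j), fun j hj => h1 (some j) hj⟩
  let sj : ∀ j, V j →ₗ[ℂ] V j := fun j => s' (some j)
  let xj : ∀ j k, T j k → V k →ₗ[ℂ] V j := fun j k t => x' (some j) (some k) t
  have hρ : ∀ j t, ρMap fr V Q s ∘ₗ inj V Q j t = inj V Q j t ∘ₗ s.1 j := by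
    intro j t
    apply LinearMap.ext
    intro v
    funext j' t'
    change s.1 j' (prj V Q j' t' (inj V Q j t v)) = prj V Q j' t' (inj V Q j t (s.1 j v))
    rcases eq_or_ne j' j with rfl | hj
    · rcases eq_or_ne t' t with rfl | ht
      · rw [prj_inj, prj_inj]
      · rw [prj_inj_ne_t V Q _ ht, prj_inj_ne_t V Q _ ht, map_zero]
    · rw [prj_inj_ne V Q hj, prj_inj_ne V Q hj, map_zero]
  let m : W →ₗ[ℂ] YY V Q := LinearMap.pi fun j => LinearMap.pi fun t => x' (some j) none t
  have hm : ∀ j t, prj V Q j t ∘ₗ m = x' (some j) none t := fun _ _ => rfl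
  have hqm : q ∘ₗ m = ∑ j, ∑ t, (q ∘ₗ inj V Q j t) ∘ₗ (prj V Q j t ∘ₗ m) := by
    apply LinearMap.ext
    intro w
    have e1 := sum_inj_prj V Q (m w)
    rw [LinearMap.comp_apply]
    conv_lhs => rw [← e1]
    simp only [map_sum, LinearMap.sum_apply, LinearMap.comp_apply]
  have hres := hk (s' none) s (fun j k t => x' (some j) (some k) t) m
    (by
      funext j k t
      exact sub_eq_zero.2 (h2 (some j) (some k) t))
    (by
      apply ext_inj
      intro j t
      rw [LinearMap.comp_assoc, LinearMap.comp_assoc, hρ, ← LinearMap.comp_assoc]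
      exact (h2 (some j) none t).symm)
    (by
      have := h3 none id
      rw [Fintype.sum_option, Fintype.sum_option] at this
      have e0 : ∀ j : J, ∑ t, x' none (some j) t ∘ₗ Ξ' none (some j) t = 0 := by
        intro j
        rw [Finset.univ_eq_empty, Finset.sum_empty]
      simp only [e0, Finset.univ_eq_empty, Finset.sum_empty, Finset.sum_const_zero, add_zero,
        zero_add, zero_sub] at this
      rw [hqm]
      exact this)
    (by
      funext ⟨j, hj⟩
      have := h3 (some j) hj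
      rw [Fintype.sum_option, Fintype.sum_option] at this
      have e0 : ∑ t, Ξ' none (some j) t ∘ₗ x' none (some j) t = 0 := by
        rw [Finset.univ_eq_empty, Finset.sum_empty]
      have e2 : Λ' (some j) = l ⟨j, hj⟩ := dif_neg hj
      rw [e0, zero_add, e2] at this
      change (l ⟨j, hj⟩ ∘ₗ sj j - sj j ∘ₗ l ⟨j, hj⟩) +
          (∑ k, ∑ t, Ξ k j t ∘ₗ xj k j t - ∑ k, ∑ t, xj j k t ∘ₗ Ξ j k t) -
          ∑ t, prj V Q j t ∘ₗ (m ∘ₗ q) ∘ₗ inj V Q j t = 0
      change l ⟨j, hj⟩ ∘ₗ sj j - sj j ∘ₗ l ⟨j, hj⟩ =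
        (∑ t, prj V Q j t ∘ₗ (m ∘ₗ q) ∘ₗ inj V Q j t +
          ∑ k, ∑ t, xj j k t ∘ₗ Ξ j k t) -
          ∑ k, ∑ t, Ξ k j t ∘ₗ xj k j t at this
      rw [this]
      abel)
  constructor
  · intro a
    cases a with
    | none => exact hres.1
    | some j => exact congrFun (congrArg Subtype.val hres.2.1) j
  · intro a b t
    cases a with
    | none =>
      cases b with
      | none => exact isEmptyElim t
      | some j => exact isEmptyElim t
    | some j =>
      cases b with
      | none =>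
        rw [← hm, hres.2.2.2, LinearMap.comp_zero]
        rfl
      | some k => exact congrFun (congrFun (congrFun hres.2.2.1 j) k) t

end

end Pool.Agent.Helper29.AntiFrob
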