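import Pool.Agent.Helper29.AntiFrob.MatForm
import Pool.Agent.Helper29.AntiFrob.Final

set_option autoImplicit false

namespace Pool.Agent.Helper29.AntiFrob

open Matrix

/-! ### The one-block problem -/

/-- kernel condition for linear maps -/
def QQ {V Y : Type} [AddCommGroup V] [Module ℂ V] [AddCommGroup Y] [Module ℂ Y]
    (Λ : V →ₗ[ℂ] V) (X : V →ₗ[ℂ] Y) : Prop :=
  ∀ (s : V →ₗ[ℂ] V) (m : Y →ₗ[ℂ] V), X ∘ₗ s = 0 → Λ ∘ₗ s - s ∘ₗ Λ = m ∘ₗ X → s = 0 ∧ m = 0

lemma QQ_dvd (N : ℕ) : ∀ (V Y : Type) [AddCommGroup V] [Module ℂ V] [FiniteDimensional ℂ V]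
    [AddCommGroup Y] [Module ℂ Y] [FiniteDimensional ℂ Y] (Λ : V →ₗ[ℂ] V) (X : V →ₗ[ℂ] Y),
    Module.finrank ℂ V = N → QQ Λ X → Module.finrank ℂ Y ∣ N := by
  induction N using Nat.strong_induction_on with
  | _ N ih =>
    intro V Y _ _ _ _ _ _ Λ X hN hQ
    rcases Nat.eq_zero_or_pos N with rfl | hpos
    · exact dvd_zero _
    have hVnt : Nontrivial V := Module.nontrivial_of_finrank_pos (R := ℂ) (by omega)
    obtain ⟨v0, hv0⟩ := exists_ne (0 : V)
    -- surjectivity
    have hsurj : Function.Surjective X := by
      rw [← LinearMap.range_eq_top]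
      by_contra hne
      obtain ⟨φ, hφ0, hφ⟩ := Submodule.exists_le_ker_of_lt_top _ (lt_top_iff_ne_top.2 hne)
      have h1 := hQ 0 (φ.smulRight v0) (by simp) (by
        apply LinearMap.ext
        intro v
        have : φ (X v) = 0 := hφ (LinearMap.mem_range_self X v)
        simp [this])
      apply hφ0
      apply LinearMap.ext
      intro y
      have h2 := LinearMap.congr_fun h1.2 y
      rw [LinearMap.smulRight_apply, LinearMap.zero_apply, smul_eq_zero] at h2
      exact h2.resolve_right hv0
    -- positivity
    have hYpos : 0 < Module.finrank ℂ Y := by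
      rw [pos_iff_ne_zero]
      intro h0
      have hsub : Subsingleton Y := Module.finrank_zero_iff.1 h0
      have h1 := hQ LinearMap.id 0 (by
        apply LinearMap.ext; intro v; exact Subsingleton.elim _ _) (by
        apply LinearMap.ext; intro v; simp)
      apply hv0
      have := LinearMap.congr_fun h1.1 v0
      simpa using this
    obtain ⟨σ, hσ⟩ := X.exists_rightInverse_of_surjective (LinearMap.range_eq_top.2 hsurj)
    have hσ' : ∀ y, X (σ y) = y := fun y => LinearMap.congr_fun hσ y
    let W := LinearMap.ker X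
    have hπmem : ∀ v, v - σ (X v) ∈ LinearMap.ker X := by
      intro v
      rw [LinearMap.mem_ker, map_sub, hσ', sub_self]
    let π : V →ₗ[ℂ] LinearMap.ker X :=
      LinearMap.codRestrict (LinearMap.ker X) (LinearMap.id - σ ∘ₗ X) (fun v => hπmem v)
    have hπ : ∀ v, (π v : V) = v - σ (X v) := fun v => rfl
    have hπinc : ∀ w : LinearMap.ker X, π (w : V) = w := by
      intro w
      apply Subtype.ext
      rw [hπ, LinearMap.mem_ker.1 w.2, map_zero, sub_zero]
    have hπσ : ∀ y, π (σ y) = 0 := by
      intro y
      apply Subtype.ext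
      rw [hπ, hσ', sub_self]
      rfl
    let inc' : LinearMap.ker X →ₗ[ℂ] V := (LinearMap.ker X).subtype
    have hinc : ∀ w, inc' w = (w : V) := fun _ => rfl
    have hQ' : QQ (V := LinearMap.ker X) (Y := Y) (π ∘ₗ Λ ∘ₗ inc') (X ∘ₗ Λ ∘ₗ inc') := by
      intro t c ht hc
      have ht' : ∀ w, X (Λ (t w : V)) = 0 := fun w => LinearMap.congr_fun ht w
      have hc' : ∀ w, π (Λ (t w : V)) - t (π (Λ (w : V))) = c (X (Λ (w : V))) :=
        fun w => LinearMap.congr_fun hc w
      have hX0 : ∀ w : LinearMap.ker X, X (w : V) = 0 := fun w => w.2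
      have h1 := hQ (inc' ∘ₗ t ∘ₗ π + inc' ∘ₗ c ∘ₗ X)
        ((Λ ∘ₗ (inc' ∘ₗ t ∘ₗ π + inc' ∘ₗ c ∘ₗ X) - (inc' ∘ₗ t ∘ₗ π + inc' ∘ₗ c ∘ₗ X) ∘ₗ Λ) ∘ₗ σ)
        (by
          apply LinearMap.ext
          intro v
          simp [hinc, hX0])
        (by
          apply LinearMap.ext
          intro v
          have hv : v = (π v : V) + σ (X v) := by rw [hπ]; abel
          have h2 : ∀ w : LinearMap.ker X,
              Λ ((t w : V)) - ((t (π (Λ (w : V))) : V) + (c (X (Λ (w : V))) : V)) = 0 := by
            intro w
            have h3 : Λ (t w : V) = (π (Λ (t w : V)) : V) := by rw [hπ, ht', map_zero, sub_zero]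
            have h4 := congrArg (fun z : LinearMap.ker X => (z : V)) (hc' w)
            simp only [Submodule.coe_sub] at h4
            rw [h3, ← h4]
            abel
          have h5 : (Λ ∘ₗ (inc' ∘ₗ t ∘ₗ π + inc' ∘ₗ c ∘ₗ X) -
              (inc' ∘ₗ t ∘ₗ π + inc' ∘ₗ c ∘ₗ X) ∘ₗ Λ) (π v : V) = 0 := by
            have := h2 (π v)
            simpa [hinc, hπinc, hX0] using this
          conv_lhs => rw [hv, map_add, h5, zero_add]
          rfl)
      constructor
      · apply LinearMap.ext
        intro w
        have h2 := LinearMap.congr_fun h1.1 (w : V)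
        apply Subtype.ext
        simpa [hinc, hπinc, hX0] using h2
      · apply LinearMap.ext
        intro y
        have h2 := LinearMap.congr_fun h1.1 (σ y)
        apply Subtype.ext
        simpa [hinc, hπσ, hσ'] using h2
    have hdim := LinearMap.finrank_range_add_finrank_ker X
    rw [LinearMap.range_eq_top.2 hsurj, finrank_top, hN] at hdim
    have h3 := ih (Module.finrank ℂ (LinearMap.ker X)) (by omega) (LinearMap.ker X) Y _ _ rfl hQ'
    rw [← hdim]
    exact dvd_add (dvd_refl _) h3

lemma QQ_exists (d q : ℕ) : ∃ (V : Type) (_ : AddCommGroup V) (_ : Module ℂ V)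
    (_ : FiniteDimensional ℂ V) (Λ : V →ₗ[ℂ] V) (X : V →ₗ[ℂ] (Fin d → ℂ)),
    Module.finrank ℂ V = q * d ∧ QQ Λ X := by
  induction q with
  | zero =>
    refine ⟨Fin 0 → ℂ, inferInstance, inferInstance, inferInstance, 0, 0, by simp, ?_⟩
    intro s m _ _
    exact ⟨Subsingleton.elim _ _, Subsingleton.elim _ _⟩
  | succ q ih =>
    obtain ⟨W, _, _, _, Λ', X', hdim, hQ⟩ := ih
    refine ⟨W × (Fin d → ℂ), inferInstance, inferInstance, inferInstance,
      (LinearMap.prod Λ' X') ∘ₗ LinearMap.fst ℂ W (Fin d → ℂ), LinearMap.snd ℂ W (Fin d → ℂ),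
      ?_, ?_⟩
    · rw [Module.finrank_prod, hdim, Module.finrank_fin_fun]
      ring
    · intro s m h1 h2
      have h1' : ∀ v, (s v).2 = 0 := fun v => LinearMap.congr_fun h1 v
      have hs : ∀ v, s v = ((s v).1, 0) := fun v => Prod.ext rfl (h1' v)
      let t : W →ₗ[ℂ] W := LinearMap.fst ℂ W (Fin d → ℂ) ∘ₗ s ∘ₗ LinearMap.inl ℂ W (Fin d → ℂ)
      let c : (Fin d → ℂ) →ₗ[ℂ] W :=
        LinearMap.fst ℂ W (Fin d → ℂ) ∘ₗ s ∘ₗ LinearMap.inr ℂ W (Fin d → ℂ)
      have hsv : ∀ w y, (s (w, y)).1 = t w + c y := by
        intro w y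
        have : ((w, y) : W × (Fin d → ℂ)) = (w, 0) + (0, y) := by simp
        rw [this, map_add]
        rfl
      have h2' : ∀ w : W, (Λ' (t w), X' (t w)) - s (Λ' w, X' w) = (0 : W × (Fin d → ℂ)) := by
        intro w
        have h := LinearMap.congr_fun h2 (w, (0 : Fin d → ℂ))
        have e : m ((LinearMap.snd ℂ W (Fin d → ℂ)) (w, 0)) = 0 := by simp
        exact h.trans e
      have h3 := hQ t c
        (by
          apply LinearMap.ext
          intro w
          have := congrArg Prod.snd (h2' w)
          simp only [Prod.snd_sub, h1', Prod.snd_zero, sub_zero] at this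
          exact this)
        (by
          apply LinearMap.ext
          intro w
          have := congrArg Prod.fst (h2' w)
          simp only [Prod.fst_sub, hsv, Prod.fst_zero] at this
          change Λ' (t w) - t (Λ' w) = c (X' w)
          rw [sub_eq_zero] at this
          rw [this]
          abel)
      have hs0 : s = 0 := by
        apply LinearMap.ext
        rintro ⟨w, y⟩
        rw [hs, hsv, h3.1, h3.2]
        simp
      refine ⟨hs0, ?_⟩
      apply LinearMap.ext
      intro y
      have := LinearMap.congr_fun h2 (0, y)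
      rw [hs0] at this
      simpa using this.symm

/-- kernel condition for matrices, one block -/
def Qm {P D : Type} [Fintype P] [Fintype D] (Λ : Matrix P P ℂ) (X : Matrix D P ℂ) : Prop :=
  ∀ (s : Matrix P P ℂ) (x : Matrix P D ℂ), X * s = 0 → Λ * s - s * Λ = x * X → s = 0 ∧ x = 0

lemma Qm_iff_QQ {P D : Type} [Fintype P] [Fintype D] [DecidableEq P] [DecidableEq D]
    (Λ : Matrix P P ℂ) (X : Matrix D P ℂ) :
    Qm Λ X ↔ QQ (Matrix.toLin' Λ) (Matrix.toLin' X) := by
  constructor
  · intro h s m h1 h2
    have := h (LinearMap.toMatrix' s) (LinearMap.toMatrix' m)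
      (by
        have := congrArg LinearMap.toMatrix' h1
        rwa [LinearMap.toMatrix'_comp, LinearMap.toMatrix'_toLin', map_zero] at this)
      (by
        have := congrArg LinearMap.toMatrix' h2
        rwa [map_sub, LinearMap.toMatrix'_comp, LinearMap.toMatrix'_comp,
          LinearMap.toMatrix'_comp, LinearMap.toMatrix'_toLin', LinearMap.toMatrix'_toLin'] at this)
    constructor
    · exact LinearMap.toMatrix'.injective (by rw [this.1, map_zero])
    · exact LinearMap.toMatrix'.injective (by rw [this.2, map_zero])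
  · intro h s m h1 h2
    have := h (Matrix.toLin' s) (Matrix.toLin' m)
      (by rw [← Matrix.toLin'_mul, h1, map_zero])
      (by rw [← Matrix.toLin'_mul, ← Matrix.toLin'_mul, ← Matrix.toLin'_mul, ← map_sub, h2])
    constructor
    · exact Matrix.toLin'.injective (by rw [this.1, map_zero])
    · exact Matrix.toLin'.injective (by rw [this.2, map_zero])

lemma QQ_congr {V V' Y : Type} [AddCommGroup V] [Module ℂ V] [AddCommGroup V'] [Module ℂ V']
    [AddCommGroup Y] [Module ℂ Y] (e : V ≃ₗ[ℂ] V') (Λ : V →ₗ[ℂ] V) (X : V →ₗ[ℂ] Y)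
    (h : QQ Λ X) : QQ (e.toLinearMap ∘ₗ Λ ∘ₗ e.symm.toLinearMap) (X ∘ₗ e.symm.toLinearMap) := by
  intro s m h1 h2
  have h3 := h (e.symm.toLinearMap ∘ₗ s ∘ₗ e.toLinearMap) (e.symm.toLinearMap ∘ₗ m)
    (by
      apply LinearMap.ext
      intro v
      exact LinearMap.congr_fun h1 (e v))
    (by
      apply LinearMap.ext
      intro v
      have := congrArg e.symm (LinearMap.congr_fun h2 (e v))
      simpa using this)
  constructor
  · apply LinearMap.ext
    intro v
    have := congrArg e (LinearMap.congr_fun h3.1 (e.symm v))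
    simpa using this
  · apply LinearMap.ext
    intro v
    have := congrArg e (LinearMap.congr_fun h3.2 v)
    simpa using this

lemma exists_Qm_iff (N d : ℕ) :
    (∃ (Λ : Matrix (Fin N) (Fin N) ℂ) (X : Matrix (Fin d) (Fin N) ℂ), Qm Λ X) ↔ d ∣ N := by
  constructor
  · rintro ⟨Λ, X, h⟩
    rw [Qm_iff_QQ] at h
    have := QQ_dvd N (Fin N → ℂ) (Fin d → ℂ) _ _ (by simp) h
    simpa using this
  · rintro ⟨q, rfl⟩
    obtain ⟨V, _, _, _, Λ, X, hdim, h⟩ := QQ_exists d q
    have e : V ≃ₗ[ℂ] (Fin (d * q) → ℂ) := by
      apply LinearEquiv.ofFinrankEq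
      rw [hdim, Module.finrank_fin_fun, mul_comm]
    have h' := QQ_congr e Λ X h
    refine ⟨LinearMap.toMatrix' (e.toLinearMap ∘ₗ Λ ∘ₗ e.symm.toLinearMap),
      LinearMap.toMatrix' (X ∘ₗ e.symm.toLinearMap), ?_⟩
    rw [Qm_iff_QQ, Matrix.toLin'_toMatrix', Matrix.toLin'_toMatrix']
    exact h'

/-- kernel condition for one block attached to the zero index -/
def BlkKer {P O T T' : Type} [Fintype P] [Fintype O] [Fintype T] [Fintype T']
    (Λ : Matrix P P ℂ) (X : T → Matrix O P ℂ) (X' : T' → Matrix P O ℂ) : Prop :=
  ∀ (s : Matrix P P ℂ) (x : T → Matrix P O ℂ) (x' : T' → Matrix O P ℂ),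
    (∀ t, X t * s = 0) → (∀ t, s * X' t = 0) →
    Λ * s - s * Λ = ∑ t, x t * X t - ∑ t, X' t * x' t → s = 0 ∧ x = 0 ∧ x' = 0

lemma BlkKer_left {P O T T' : Type} [Fintype P] [Fintype O] [Fintype T] [Fintype T'] [Unique O]
    [IsEmpty T'] (Λ : Matrix P P ℂ) (X : T → Matrix O P ℂ) (X' : T' → Matrix P O ℂ) :
    BlkKer Λ X X' ↔ Qm Λ (Matrix.of fun t p => X t default p) := by
  have hmul : ∀ x : T → Matrix P O ℂ, ∑ t, x t * X t =
      (Matrix.of fun p t => x t p default) * (Matrix.of fun t p => X t default p) := by
    intro x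
    ext p q
    simp [Matrix.sum_apply, Matrix.mul_apply]
  have hX : ∀ s : Matrix P P ℂ, (∀ t, X t * s = 0) ↔
      (Matrix.of fun t p => X t default p) * s = 0 := by
    intro s
    constructor
    · intro h
      ext t q
      have := congrFun (congrFun (h t) default) q
      simpa [Matrix.mul_apply] using this
    · intro h t
      ext o q
      have := congrFun (congrFun h t) q
      rw [Unique.eq_default o]
      simpa [Matrix.mul_apply] using this
  constructor
  · intro h s m h1 h2
    obtain ⟨e1, e2, _⟩ := h s (fun t => Matrix.of fun p _ => m p t) (fun t => isEmptyElim t)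
      ((hX s).2 h1) (fun t => isEmptyElim t) (by
        rw [hmul, h2]
        simp
        rfl)
    refine ⟨e1, ?_⟩
    ext p t
    exact congrFun (congrFun (congrFun e2 t) p) default
  · intro h s x x' h1 _ h3
    obtain ⟨e1, e2⟩ := h s (Matrix.of fun p t => x t p default) ((hX s).1 h1) (by
      rw [h3, hmul]
      simp)
    refine ⟨e1, ?_, Subsingleton.elim _ _⟩
    funext t
    ext p o
    rw [Unique.eq_default o]
    exact congrFun (congrFun e2 p) t

lemma BlkKer_transpose {P O T T' : Type} [Fintype P] [Fintype O] [Fintype T] [Fintype T']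
    (Λ : Matrix P P ℂ) (X : T → Matrix O P ℂ) (X' : T' → Matrix P O ℂ)
    (h : BlkKer Λ X X') : BlkKer Λ.transpose (fun t => (X' t).transpose)
      (fun t => (X t).transpose) := by
  intro s x x' h1 h2 h3
  obtain ⟨e1, e2, e3⟩ := h s.transpose (fun t => (x' t).transpose) (fun t => (x t).transpose)
    (by
      intro t
      have := congrArg Matrix.transpose (h2 t)
      simpa using this)
    (by
      intro t
      have := congrArg Matrix.transpose (h1 t)
      simpa using this)
    (by
      have := congrArg Matrix.transpose h3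
      simp only [Matrix.transpose_sub, Matrix.transpose_mul, Matrix.transpose_transpose,
        Matrix.transpose_sum] at this
      rw [← neg_sub, this]
      abel)
  refine ⟨?_, ?_, ?_⟩
  · have := congrArg Matrix.transpose e1
    simpa using this
  · funext t
    have := congrArg Matrix.transpose (congrFun e3 t)
    simpa using this
  · funext t
    have := congrArg Matrix.transpose (congrFun e2 t)
    simpa using this

section star

variable {ι : Type} [Fintype ι] {n : ι → ℕ} {m : Option ι → Option ι → ℕ}

lemma star_iff (h00 : m none none = 0) (hr : ∀ i j, m (some i) (some j) = 0)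
    (Lam : SemisimpleAlg n)
    (Xi : ∀ a b : Option ι, Fin (m a b) → Matrix (Fin (size n b)) (Fin (size n a)) ℂ) :
    MatKer Lam Xi ↔
      ∀ i, BlkKer (blk Lam (some i)) (Xi (some i) none) (Xi none (some i)) := by
  classical
  have he00 : IsEmpty (Fin (m none none)) := by rw [h00]; infer_instance
  have her : ∀ i j, IsEmpty (Fin (m (some i) (some j))) := by
    intro i j; rw [hr]; infer_instance
  constructor
  · intro h i s0 x0 x0' h1 h2 h3
    obtain ⟨e1, e2⟩ := h (Pi.single (M := fun i => Matrix (Fin (n i)) (Fin (n i)) ℂ) i s0)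
      (Pi.single (some i) (Pi.single none x0) + Pi.single none (Pi.single (some i) x0'))
      (by
        intro a b t
        cases a with
        | none =>
          cases b with
          | none => exact isEmptyElim t
          | some j =>
            have : blk (Pi.single (M := fun i => Matrix (Fin (n i)) (Fin (n i)) ℂ) i s0) none =
              0 := rfl
            rw [this, Matrix.mul_zero]
            rcases eq_or_ne j i with rfl | hj
            · have e0 : blk (Pi.single (M := fun i => Matrix (Fin (n i)) (Fin (n i)) ℂ) j s0)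
                (some j) = s0 :=
                Pi.single_eq_same (M := fun i => Matrix (Fin (n i)) (Fin (n i)) ℂ) j s0
              rw [e0, h2]
            · have e0 : blk (Pi.single (M := fun i => Matrix (Fin (n i)) (Fin (n i)) ℂ) i s0)
                (some j) = 0 :=
                Pi.single_eq_of_ne (M := fun i => Matrix (Fin (n i)) (Fin (n i)) ℂ) hj s0
              rw [e0, Matrix.zero_mul]
        | some j =>
          cases b with
          | some k => exact isEmptyElim t
          | none =>
            have : blk (Pi.single (M := fun i => Matrix (Fin (n i)) (Fin (n i)) ℂ) i s0) none =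
              0 := rfl
            rw [this, Matrix.zero_mul]
            rcases eq_or_ne j i with rfl | hj
            · have e0 : blk (Pi.single (M := fun i => Matrix (Fin (n i)) (Fin (n i)) ℂ) j s0)
                (some j) = s0 :=
                Pi.single_eq_same (M := fun i => Matrix (Fin (n i)) (Fin (n i)) ℂ) j s0
              rw [e0, h1]
            · have e0 : blk (Pi.single (M := fun i => Matrix (Fin (n i)) (Fin (n i)) ℂ) i s0)
                (some j) = 0 :=
                Pi.single_eq_of_ne (M := fun i => Matrix (Fin (n i)) (Fin (n i)) ℂ) hj s0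
              rw [e0, Matrix.mul_zero])
      (by
        intro j
        rw [Fintype.sum_option, Fintype.sum_option]
        rcases eq_or_ne j i with rfl | hj
        · have e0 : blk (Pi.single (M := fun i => Matrix (Fin (n i)) (Fin (n i)) ℂ) j s0)
                (some j) = s0 :=
                Pi.single_eq_same (M := fun i => Matrix (Fin (n i)) (Fin (n i)) ℂ) j s0
          rw [e0, h3]
          simp
        · have e0 : blk (Pi.single (M := fun i => Matrix (Fin (n i)) (Fin (n i)) ℂ) i s0)
                (some j) = 0 :=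
                Pi.single_eq_of_ne (M := fun i => Matrix (Fin (n i)) (Fin (n i)) ℂ) hj s0
          have hj' : some j ≠ some i := fun h => hj (Option.some.inj h)
          rw [e0]
          simp [Pi.single_eq_of_ne hj'])
    refine ⟨?_, ?_, ?_⟩
    · have := congrFun e1 i
      rw [Pi.single_eq_same] at this
      exact this
    · have := congrFun (congrFun e2 (some i)) none
      simpa using this
    · have := congrFun (congrFun e2 none) (some i)
      simpa using this
  · intro h s x h1 h2
    have hall : ∀ i, blk s (some i) = 0 ∧ x (some i) none = 0 ∧ x none (some i) = 0 := by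
      intro i
      apply h i
      · intro t
        rw [h1]
        have : blk s none = 0 := rfl
        rw [this, Matrix.zero_mul]
      · intro t
        rw [← h1]
        have : blk s none = 0 := rfl
        rw [this, Matrix.mul_zero]
      · rw [h2 i, Fintype.sum_option, Fintype.sum_option]
        simp
    constructor
    · funext i
      exact (hall i).1
    · funext a b
      cases a with
      | none =>
        cases b with
        | none => exact Subsingleton.elim _ _
        | some j => exact (hall j).2.2
      | some i =>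
        cases b with
        | none => exact (hall i).2.1
        | some j => exact Subsingleton.elim _ _

end star

end Pool.Agent.Helper29.AntiFrob
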